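import Pool.Agent.Helper66.NE.P6
import Pool.Agent.Helper96.NE.Two
import Pool.Agent.Helper1.NE.Long

/-!
# E6b: all types
-/

set_option autoImplicit false

namespace Pool.Agent.Helper78.NE

open Pool.Agent.Helper74.NW Pool.Agent.Helper74.NE Pool.Agent.Helper19.NF
open Pool.Agent.Helper74.NS (Expands)

variable {n d m : ℕ} {B : Type} [AddCommGroup B] [NeZero m] {S K : ℕ}

theorem dp_nonneg {ι : Type} [Finite ι] [Finite B] {T : ℕ} {δ : ℝ} (hδ : DP B ι T δ) : 0 ≤ δ := by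
  have h := hδ 0 (fun _ => ∅) (fun _ => ∅)
  have h1 : (0 : ℝ) < Nat.card ((ι → B) × (ι → B)) := by
    exact_mod_cast Nat.card_pos
  by_contra h2
  have h3 : δ * Nat.card ((ι → B) × (ι → B)) < 0 := mul_neg_of_neg_of_pos (not_le.mp h2) h1
  have h4 : (0 : ℝ) ≤ Nat.card {p : (ι → B) × (ι → B) // ((fun _ => ∅ : (ι → B) → Set B) p.2 ∪
      (fun _ => ∅ : (ι → B) → Set B) p.1).ncard ≤ T ∧ ∀ t, (0 : ι → B) t + p.1 t + p.2 t ∈
        (fun _ => ∅ : (ι → B) → Set B) p.2 ∪ (fun _ => ∅ : (ι → B) → Set B) p.1} := Nat.cast_nonneg _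
  linarith

/-- E6b: all types. -/
theorem good_bound [Fintype B] (P : NProg B (Fin d × Fin m → B) B S) (e : B → Fin K)
    (he : Function.Injective e) (g : Fin d → Equiv.Perm (Fin n)) (x0 : Fin n × Fin m → B)
    {R T a : ℕ} {δ : ℝ} (hδ : DP B (Fin a × Fin m) T δ) (ha : 1 ≤ a) (hE : Expands g a) :
    (Nat.card {I : B → Fin d × Fin m → B // CF (fine g) x0 R I ∧ ∃ l t, Best P e I P.start l t ∧
        Nat.card {c // c ∈ l} ≤ T ∧ 4 * a ≤ (full g x0 I R l).card ∧ l.length ≤ 2 ^ R} : ℝ) ≤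
      R * n.choose a * ((d * m) ^ a) ^ 2 * (S : ℝ) ^ 3 * δ * Nat.card (B → Fin d × Fin m → B) :=
  Pool.Agent.Helper66.NE.good_bound_of P e g x0 (dp_nonneg hδ)
    (fun _ hI l hl hh => Pool.Agent.Helper1.NE.long ha hE hI l hl hh)
    (fun _ _ u hu r r' s p t I hI => Pool.Agent.Helper96.NE.class_bound P e he g x0 hδ u hu r r' s p t I hI)

end Pool.Agent.Helper78.NE
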