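import Pool.Agent.Helper78.NE.Main
import Pool.Agent.Helper78.NE.Good
import Pool.Agent.Helper60.NW.Cf
import Pool.Agent.Helper1.NW.Sim

/-!
# E7, E8, E8b, E9
-/

namespace Pool.Agent.Helper78.NE

open Finset Pool.Agent.Helper74.NE Pool.Agent.Helper19.NF
open Pool.Agent.Helper74.NW hiding fine fine_apply full hole chg InX
open Pool.Agent.Helper74.NS (Expands)
open Pool.Agent.Helper78.NW (miss nc)

variable {n d m : ℕ} {B : Type} [AddCommGroup B] [NeZero m] {S : ℕ}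

theorem two_card_le (n m : ℕ) [NeZero m] (hn1 : 1 ≤ n) : 1 ≤ Fintype.card (Fin n × Fin m) := by
  rw [Fintype.card_prod, Fintype.card_fin, Fintype.card_fin]
  exact Nat.mul_pos hn1 (NeZero.pos m)

open Classical in
theorem card_miss (P : NProg B (Fin d × Fin m → B) B S) (g : Fin d → Equiv.Perm (Fin n))
    (x0 : Fin n × Fin m → B) {R a : ℕ} (hn : 8 * a ≤ n) (I : B → Fin d × Fin m → B)
    (hI : ∃ l z, P.Ends I l z ∧ (full g x0 I R l).card < 4 * a) :
    Fintype.card (Fin n × Fin m) ≤ 2 * m * (univ.filter (fun v => miss P (fine g) x0 R I v)).card := by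
  obtain ⟨l, z, h1, h2⟩ := hI
  -- every node outside `full` has an unread letter
  have h3 : ∀ u ∈ (full g x0 I R l)ᶜ, ∃ t, val (fine g) x0 I R (u, t) ∉ l := by
    intro u hu
    rw [Finset.mem_compl] at hu
    unfold full at hu
    rw [Finset.mem_filter] at hu
    by_contra hno
    push Not at hno
    exact hu ⟨Finset.mem_univ _, hno⟩
  choose! f hf using h3
  have h4 : ((full g x0 I R l)ᶜ).card ≤ (univ.filter (fun v => miss P (fine g) x0 R I v)).card := by
    apply Finset.card_le_card_of_injOn (fun u => (u, f u))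
    · intro u hu
      rw [Finset.mem_coe] at hu
      rw [Finset.mem_coe, Finset.mem_filter]
      exact ⟨Finset.mem_univ _, l, z, h1, hf u hu⟩
    · intro u _ u' _ e
      exact congrArg Prod.fst e
  have h5 : ((full g x0 I R l)ᶜ).card + (full g x0 I R l).card = n := by
    rw [Finset.card_compl, Fintype.card_fin]
    have := Finset.card_le_univ (full g x0 I R l)
    rw [Fintype.card_fin] at this
    omega
  rw [Fintype.card_prod, Fintype.card_fin, Fintype.card_fin]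
  have h6 : n ≤ 2 * (univ.filter (fun v => miss P (fine g) x0 R I v)).card := by omega
  calc n * m ≤ 2 * (univ.filter (fun v => miss P (fine g) x0 R I v)).card * m := Nat.mul_le_mul_right _ h6
    _ = 2 * m * (univ.filter (fun v => miss P (fine g) x0 R I v)).card := by ring

/-- E7a -/
theorem root_bound [Fintype B] (P : NProg B (Fin d × Fin m → B) B S)
    (g : Fin d → Equiv.Perm (Fin n)) (x0 : Fin n × Fin m → B) {R a p : ℕ} (c : Fin d × Fin m)
    (hn : 8 * a ≤ n) (hn1 : 1 ≤ n) (φ : B → B) (hφ : ∀ y, Nat.card {x // φ x = y} ≤ p) :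
    Nat.card {I : B → Fin d × Fin m → B // CF (fine g) x0 R I ∧
        (∀ l z, P.Ends I l z → z = φ (res (fine g) x0 R c I)) ∧
        ∃ l z, P.Ends I l z ∧ (full g x0 I R l).card < 4 * a} * Fintype.card B ≤
      2 * m * p * Nat.card (B → Fin d × Fin m → B) := by
  classical
  rw [nc]
  refine root_gen P (fine g) x0 (R := R) c (two_card_le n m hn1) φ hφ _ ?_ ?_
  · intro I hI
    obtain ⟨_, h1, h2, _⟩ := Finset.mem_filter.mp hI
    exact ⟨h1, h2⟩
  · intro I hI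
    obtain ⟨_, _, _, h3⟩ := Finset.mem_filter.mp hI
    exact card_miss P g x0 hn I h3

/-- E7b -/
theorem root_bound' [Fintype B] (P : NProg B (Fin d × Fin m → B) B S)
    (g : Fin d → Equiv.Perm (Fin n)) (x0 : Fin n × Fin m → B) {R a : ℕ} (c : Fin d × Fin m)
    (hn : 8 * a ≤ n) (hn1 : 1 ≤ n) (Y : Finset B) :
    Nat.card {I : B → Fin d × Fin m → B // CF (fine g) x0 R I ∧ res (fine g) x0 R c I ∈ Y ∧
        ∃ l z, P.Ends I l z ∧ (full g x0 I R l).card < 4 * a} * (Fintype.card B - Y.card) ≤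
      2 * m * Y.card * Nat.card {I : B → Fin d × Fin m → B // res (fine g) x0 R c I ∉ Y ∧ ∃ l z, P.Ends I l z} := by
  classical
  rw [nc, nc]
  refine root_gen' P (fine g) x0 (R := R) c (two_card_le n m hn1) Y _ ?_ ?_ _ ?_
  · intro I hI
    obtain ⟨_, h1, h2, _⟩ := Finset.mem_filter.mp hI
    exact ⟨h1, h2⟩
  · intro I hI
    obtain ⟨_, _, _, h3⟩ := Finset.mem_filter.mp hI
    exact card_miss P g x0 hn I h3
  · intro I h1 h2
    exact Finset.mem_filter.mpr ⟨Finset.mem_univ _, h1, h2⟩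

theorem DP_nonneg [Fintype B] {ι : Type} [Finite ι] {T : ℕ} {δ : ℝ} (h : DP B ι T δ) : 0 ≤ δ := by
  have h1 := h (fun _ => 0) (fun _ => ∅) (fun _ => ∅)
  have h2 : (0 : ℝ) < Nat.card ((ι → B) × (ι → B)) := by
    have : 0 < Nat.card ((ι → B) × (ι → B)) := Nat.card_pos
    exact_mod_cast this
  by_contra hneg
  push Not at hneg
  have h3 : δ * Nat.card ((ι → B) × (ι → B)) < 0 := mul_neg_of_neg_of_pos hneg h2
  have h4 : (0 : ℝ) ≤ (Nat.card {p : (ι → B) × (ι → B) // ((fun _ => ∅ : (ι → B) → Set B) p.2 ∪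
    (fun _ => ∅ : (ι → B) → Set B) p.1).ncard ≤ T ∧ ∀ t, (fun _ => 0 : ι → B) t + p.1 t + p.2 t ∈
    (fun _ => ∅ : (ι → B) → Set B) p.2 ∪ (fun _ => ∅ : (ι → B) → Set B) p.1} : ℝ) := Nat.cast_nonneg _
  linarith

open Classical in
/-- the instances which are not covered by the root step have a good computation -/
theorem cover {K : ℕ} (P : NProg B (Fin d × Fin m → B) B S) (e : B → Fin K)
    (g : Fin d → Equiv.Perm (Fin n)) (x0 : Fin n × Fin m → B) {R T a : ℕ} (hn : 8 * a ≤ n)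
    (I : B → Fin d × Fin m → B) (hCF : CF (fine g) x0 R I) (h1 : ∃ l z, P.Ends I l z)
    (h2 : ∀ l z, P.Shortest I l z → Nat.card {b // b ∈ l} ≤ T ∧ min S l.length ≤ 2 ^ R) :
    (CF (fine g) x0 R I ∧ ∃ l t, Best P e I P.start l t ∧
        Nat.card {c // c ∈ l} ≤ T ∧ 4 * a ≤ (full g x0 I R l).card ∧ l.length ≤ 2 ^ R) ∨
      Fintype.card (Fin n × Fin m) ≤ 2 * m * (univ.filter (fun v => miss P (fine g) x0 R I v)).card := by
  obtain ⟨l₀, z₀, h0⟩ := h1
  obtain ⟨l, z, t, hb, ht, hs⟩ := exists_best e h0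
  obtain ⟨hT, hm⟩ := h2 l z hs
  have hlen : l.length ≤ 2 ^ R := by
    have := shortest_lt hs
    omega
  by_cases h4 : 4 * a ≤ (full g x0 I R l).card
  · exact Or.inl ⟨hCF, l, t, hb, hT, h4, hlen⟩
  · exact Or.inr (card_miss P g x0 hn I ⟨l, z, hs.1, not_le.mp h4⟩)

/-- E8: the main inequality. -/
theorem main_bound [Fintype B] (P : NProg B (Fin d × Fin m → B) B S)
    (g : Fin d → Equiv.Perm (Fin n)) (x0 : Fin n × Fin m → B) (h0 : Function.Injective x0) {R T a p : ℕ} {δ : ℝ}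
    (hδ : DP B (Fin a × Fin m) T δ) (c : Fin d × Fin m) (ha : 1 ≤ a) (hn : 8 * a ≤ n) (hE : Expands g a)
    (φ : B → B) (hφ : ∀ y, Nat.card {x // φ x = y} ≤ p) :
    (Nat.card {I : B → Fin d × Fin m → B // (∃ l z, P.Ends I l z) ∧
        (∀ l z, P.Ends I l z → z = φ (res (fine g) x0 R c I)) ∧
        ∀ l z, P.Shortest I l z → Nat.card {b // b ∈ l} ≤ T ∧ min S l.length ≤ 2 ^ R} : ℝ) ≤
      ((2 * m * p + ((R + 1) * (n * m)) ^ 2) / Fintype.card B +
        R * n.choose a * ((d * m) ^ a) ^ 2 * (S : ℝ) ^ 3 * δ) * Nat.card (B → Fin d × Fin m → B) := by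
  classical
  have : Nonempty (Fin d × Fin m) := ⟨c⟩
  have hC := Pool.Agent.Helper60.NWF.card_not_CF (fine g) x0 h0 R
  have hG := good_bound (R := R) P (Fintype.equivFin B) (Fintype.equivFin B).injective g x0 hδ ha hE
  have h := main_gen (f := 2 * m) (T := T) P (fine g) x0 (R := R) c (two_card_le n m (by omega)) φ hφ
    (fun I => CF (fine g) x0 R I ∧ ∃ l t, Best P (Fintype.equivFin B) I P.start l t ∧
        Nat.card {c // c ∈ l} ≤ T ∧ 4 * a ≤ (full g x0 I R l).card ∧ l.length ≤ 2 ^ R)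
    (fun I hCF h1 h2 => cover P (Fintype.equivFin B) g x0 hn I hCF h1 h2) hC _ hG
  rw [Fintype.card_prod, Fintype.card_fin, Fintype.card_fin] at h
  push_cast at h
  exact h

/-- E8b: the decision version. -/
theorem decision_bound [Fintype B] (P : NProg B (Fin d × Fin m → B) B S)
    (g : Fin d → Equiv.Perm (Fin n)) (x0 : Fin n × Fin m → B) (h0 : Function.Injective x0) {R T a : ℕ} {δ : ℝ}
    (hδ : DP B (Fin a × Fin m) T δ) (c : Fin d × Fin m) (ha : 1 ≤ a) (hn : 8 * a ≤ n) (hE : Expands g a)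
    (Y : Finset B) (y : ℝ) (hy : y = Y.card / Fintype.card B) :
    (min y ((1 - y) / (2 * m)) - ((R + 1) * (n * m)) ^ 2 / Fintype.card B -
        R * n.choose a * ((d * m) ^ a) ^ 2 * (S : ℝ) ^ 3 * δ) * Nat.card (B → Fin d × Fin m → B) ≤
      Nat.card {I : B → Fin d × Fin m → B // ¬ (((∃ l z, P.Ends I l z) ↔ res (fine g) x0 R c I ∈ Y) ∧
        ∀ l z, P.Shortest I l z → Nat.card {b // b ∈ l} ≤ T ∧ min S l.length ≤ 2 ^ R)} := by
  classical
  have : Nonempty (Fin d × Fin m) := ⟨c⟩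
  have hC := Pool.Agent.Helper60.NWF.card_not_CF (fine g) x0 h0 R
  have hG := good_bound (R := R) P (Fintype.equivFin B) (Fintype.equivFin B).injective g x0 hδ ha hE
  have hδ0 := DP_nonneg hδ
  have hm : 1 ≤ m := NeZero.pos m
  have h := decision_gen (f := 2 * m) (T := T) P (fine g) x0 (R := R) (by omega) c
    ((⟨0, by omega⟩ : Fin n), (0 : Fin m)) Y y hy
    (fun I => CF (fine g) x0 R I ∧ ∃ l t, Best P (Fintype.equivFin B) I P.start l t ∧
        Nat.card {c // c ∈ l} ≤ T ∧ 4 * a ≤ (full g x0 I R l).card ∧ l.length ≤ 2 ^ R)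
    (fun I hCF h1 h2 => cover P (Fintype.equivFin B) g x0 hn I hCF h1 h2) hC
    (R * n.choose a * ((d * m) ^ a) ^ 2 * (S : ℝ) ^ 3 * δ) (by positivity) hG
  rw [Fintype.card_prod, Fintype.card_fin, Fintype.card_fin] at h
  push_cast at h
  exact h

/-- monotonicity of the last term in the number of states -/
theorem last_mono {n d m a R S b : ℕ} {q δ : ℝ} (hδ : 0 ≤ δ) (hS : (S : ℝ) ≤ (2 * q ^ 2 + 2) ^ (b + 2)) :
    R * n.choose a * ((d * m : ℝ) ^ a) ^ 2 * (S : ℝ) ^ 3 * δ ≤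
      R * n.choose a * ((d * m : ℝ) ^ a) ^ 2 * ((2 * q ^ 2 + 2) ^ (b + 2)) ^ 3 * δ := by
  gcongr

/-- E9a -/
theorem push_main_bound {Q Γ : Type} [Fintype Q] [Fintype B] (P : NPProg B (Fin d × Fin m → B) B Q Γ)
    (g : Fin d → Equiv.Perm (Fin n)) (x0 : Fin n × Fin m → B) (h0 : Function.Injective x0) {R T a p b : ℕ} {δ : ℝ}
    (hδ : DP B (Fin a × Fin m) (T + 1) δ) (hb : b < R) (c : Fin d × Fin m) (ha : 1 ≤ a) (hn : 8 * a ≤ n)
    (hE : Expands g a) (φ : B → B) (hφ : ∀ y, Nat.card {x // φ x = y} ≤ p) :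
    (Nat.card {I : B → Fin d × Fin m → B // (∃ l k z, P.Ends I l k z ∧ k ≤ 2 ^ b) ∧
        ∀ l k z, P.Ends I l k z → z = φ (res (fine g) x0 R c I) ∧ Nat.card {b // b ∈ l} ≤ T} : ℝ) ≤
      ((2 * m * p + ((R + 1) * (n * m)) ^ 2) / Fintype.card B +
        R * n.choose a * ((d * m) ^ a) ^ 2 * ((2 * (Fintype.card Q : ℝ) ^ 2 + 2) ^ (b + 2)) ^ 3 * δ) *
          Nat.card (B → Fin d × Fin m → B) := by
  have hδ0 := DP_nonneg hδ
  refine push_main_gen P (fun I => φ (res (fine g) x0 R c I)) (0 : B)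
    (Pool.Agent.Helper1.NW.sim P (0 : B) b) hb _ ?_
  intro S hS P'
  have hSr : (S : ℝ) ≤ (2 * (Fintype.card Q : ℝ) ^ 2 + 2) ^ (b + 2) := by exact_mod_cast hS
  refine (main_bound P' g x0 h0 (R := R) hδ c ha hn hE φ hφ).trans ?_
  exact mul_le_mul_of_nonneg_right (add_le_add_right (last_mono hδ0 hSr) _) (Nat.cast_nonneg _)

/-- E9b -/
theorem push_decision_bound {Q Γ : Type} [Fintype Q] [Fintype B] (P : NPProg B (Fin d × Fin m → B) B Q Γ)
    (g : Fin d → Equiv.Perm (Fin n)) (x0 : Fin n × Fin m → B) (h0 : Function.Injective x0) {R T a b : ℕ} {δ : ℝ}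
    (hδ : DP B (Fin a × Fin m) (T + 1) δ) (hb : b < R) (c : Fin d × Fin m) (ha : 1 ≤ a) (hn : 8 * a ≤ n)
    (hE : Expands g a) (Y : Finset B) (y : ℝ) (hy : y = Y.card / Fintype.card B) :
    (min y ((1 - y) / (2 * m)) - ((R + 1) * (n * m)) ^ 2 / Fintype.card B -
        R * n.choose a * ((d * m) ^ a) ^ 2 * ((2 * (Fintype.card Q : ℝ) ^ 2 + 2) ^ (b + 2)) ^ 3 * δ) *
          Nat.card (B → Fin d × Fin m → B) ≤
      Nat.card {I : B → Fin d × Fin m → B //
        ¬ ((res (fine g) x0 R c I ∈ Y → ∃ l k z, P.Ends I l k z ∧ k ≤ 2 ^ b) ∧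
          ∀ l k z, P.Ends I l k z → res (fine g) x0 R c I ∈ Y ∧ Nat.card {b // b ∈ l} ≤ T)} := by
  have hδ0 := DP_nonneg hδ
  refine push_dec_gen P (fun I => res (fine g) x0 R c I ∈ Y) (0 : B)
    (Pool.Agent.Helper1.NW.sim P (0 : B) b) hb _ ?_
  intro S hS P'
  have hSr : (S : ℝ) ≤ (2 * (Fintype.card Q : ℝ) ^ 2 + 2) ^ (b + 2) := by exact_mod_cast hS
  refine le_trans ?_ (decision_bound P' g x0 h0 (R := R) hδ c ha hn hE Y y hy)
  exact mul_le_mul_of_nonneg_right (sub_le_sub_left (last_mono hδ0 hSr) _) (Nat.cast_nonneg _)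

end Pool.Agent.Helper78.NE
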