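import Pool.Agent.Helper78.NE.Perp

set_option linter.unusedSectionVars false

namespace H78NE

open Matrix Finset

variable {V : Type*} [Fintype V] [DecidableEq V] {ι : Type*} [Fintype ι] [DecidableEq ι]

lemma sqrt3_mul : √3 * √3 = (3:ℝ) := Real.mul_self_sqrt (by norm_num)

lemma sqrt2_mul : √2 * √2 = (2:ℝ) := Real.mul_self_sqrt (by norm_num)

lemma sqrt3_lb : (1.732:ℝ) ≤ √3 := by
  apply Real.le_sqrt_of_sq_le; norm_num

lemma sqrt2_lb : (1.4142:ℝ) ≤ √2 := by
  apply Real.le_sqrt_of_sq_le; norm_num

lemma sqrt2_ub : √2 ≤ (1.4143:ℝ) := by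
  rw [Real.sqrt_le_left (by norm_num)]; norm_num

lemma cub_sqrt2 : cub (-√2) = 2 * √2 := by
  rw [cub_neg (Real.sqrt_nonneg 2)]
  linear_combination √2 * sqrt2_mul

lemma cub_sqrt3 : cub (-√3) = 3 * √3 := by
  rw [cub_neg (Real.sqrt_nonneg 3)]
  linear_combination √3 * sqrt3_mul

/-- No path components. -/
lemma fin0 {G : SimpleGraph V} {w : V} (h : Hub G w ι) (hP : ∀ i, ¬ h.P i) {x : ℝ}
    (ht : HasT G x) (hx : (2:ℝ) + Fintype.card ι ≤ cub (-x)) :
    (Fintype.card V : ℝ) ≤ gE cub G := by
  obtain ⟨y, hy0, hy⟩ := ht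
  have := hub_energy0 cub_good h y hy0 hy hP
  linarith

open Classical in
/-- With path components. -/
lemma finP {G : SimpleGraph V} {w : V} (h : Hub G w ι) {x : ℝ} (m : ℕ)
    (hm : Fintype.card {i // h.P i} = m)
    (ht : HasT G x) (hx : (2:ℝ) + Fintype.card ι + m - (m - 1) * (2 * √2 - 1) ≤ cub (-x)) :
    (Fintype.card V : ℝ) ≤ gE cub G := by
  obtain ⟨y, hy0, hy⟩ := ht
  have := hub_energy cub_good h y hy0 hy
  have hk : Fintype.card {i // h.P i} + Fintype.card {i // ¬ h.P i} = Fintype.card ι := by
    rw [← Fintype.card_sum]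
    exact Fintype.card_congr (Equiv.sumCompl h.P)
  have hk' : (Fintype.card {i // h.P i} : ℝ) + Fintype.card {i // ¬ h.P i} = Fintype.card ι := by
    exact_mod_cast hk
  rw [cub_sqrt2, hm] at this
  rw [hm] at hk'
  linarith

lemma exists_other (i : ι) (h : 2 ≤ Fintype.card ι) : ∃ j, j ≠ i := by
  have : 1 < Fintype.card ι := h
  exact Fintype.exists_ne_of_one_lt_card this i

/-- A component that is not fully joined contains an edge from a neighbour to a non-neighbour. -/
lemma exists_edge {G : SimpleGraph V} {w : V} (h : Hub G w ι) (i : ι)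
    (hnf : ∃ u, u ≠ w ∧ h.c u = i ∧ ¬ G.Adj w u) :
    ∃ u v, u ≠ w ∧ v ≠ w ∧ h.c u = i ∧ h.c v = i ∧ G.Adj w u ∧ ¬ G.Adj w v ∧ G.Adj u v := by
  obtain ⟨v, hv, cv, nv⟩ := hnf
  obtain ⟨u, hu, cu, au⟩ := h.hn i
  by_cases hP : h.P i
  · by_cases hq : G.Adj w (h.q i)
    · rcases h.hall i hP v hv cv with h1 | h1 | h1
      · refine ⟨h.q i, v, h.hqw i hP, hv, h.cq i hP, cv, hq, nv, ?_⟩
        rw [h1]; exact (h.apq i hP).symm
      · rw [h1] at nv; exact absurd hq nv
      · refine ⟨h.q i, v, h.hqw i hP, hv, h.cq i hP, cv, hq, nv, ?_⟩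
        rw [h1]; exact h.aqs i hP
    · rcases h.hall i hP u hu cu with h1 | h1 | h1
      · refine ⟨u, h.q i, hu, h.hqw i hP, cu, h.cq i hP, au, hq, ?_⟩
        rw [h1]; exact h.apq i hP
      · rw [h1] at au; exact absurd au hq
      · refine ⟨u, h.q i, hu, h.hqw i hP, cu, h.cq i hP, au, hq, ?_⟩
        rw [h1]; exact (h.aqs i hP).symm
  · have huv : u ≠ v := by
      rintro rfl; exact nv au
    exact ⟨u, v, hu, hv, cu, cv, au, nv, h.hK i hP u v hu hv huv cu cv⟩

lemma nadj_of {G : SimpleGraph V} {w : V} (h : Hub G w ι) {u v : V} {i j : ι} (hu : u ≠ w)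
    (hv : v ≠ w) (cu : h.c u = i) (cv : h.c v = j) (hij : i ≠ j) : ¬ G.Adj u v := by
  intro hadj
  apply hij
  rw [← cu, ← cv]
  exact h.hc u v hu hv hadj

lemma ne_of {G : SimpleGraph V} {w : V} (h : Hub G w ι) {u v : V} {i j : ι}
    (cu : h.c u = i) (cv : h.c v = j) (hij : i ≠ j) : u ≠ v := by
  rintro rfl
  exact hij (cu.symm.trans cv)

/-- Two components, one not fully joined: induced path on four vertices. -/
lemma hasT_two {G : SimpleGraph V} {w : V} (h : Hub G w ι) {i j : ι} (hij : j ≠ i)
    (hnf : ∃ u, u ≠ w ∧ h.c u = i ∧ ¬ G.Adj w u) : HasT G (21 / 13) := by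
  obtain ⟨u, v, hu, hv, cu, cv, au, nv, auv⟩ := exists_edge h i hnf
  obtain ⟨t, ht, ct, at'⟩ := h.hn j
  exact hasT_P4 (a := t) (b := w) (c := u) (d := v) at'.symm au auv
    (nadj_of h ht hu ct cu hij) (nadj_of h ht hv ct cv hij) nv
    (ne_of h ct cu hij) (ne_of h ct cv hij) hv.symm

/-- Three components, one not fully joined: induced fork. -/
lemma hasT_three {G : SimpleGraph V} {w : V} (h : Hub G w ι) {i j k : ι} (hij : j ≠ i)
    (hik : k ≠ i) (hjk : j ≠ k)
    (hnf : ∃ u, u ≠ w ∧ h.c u = i ∧ ¬ G.Adj w u) : HasT G (116 / 63) := by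
  obtain ⟨u, v, hu, hv, cu, cv, au, nv, auv⟩ := exists_edge h i hnf
  obtain ⟨t, ht, ct, at'⟩ := h.hn j
  obtain ⟨t2, ht2, ct2, at2⟩ := h.hn k
  exact hasT_fork (w := w) (a := t) (b := t2) (c := u) (d := v) at' at2 au auv
    (ne_of h ct ct2 hjk) (ne_of h ct cu hij) (ne_of h ct cv hij) (ne_of h ct2 cu hik)
    (ne_of h ct2 cv hik) hv.symm
    (nadj_of h ht ht2 ct ct2 hjk) (nadj_of h ht hu ct cu hij) (nadj_of h ht hv ct cv hij)
    (nadj_of h ht2 hu ct2 cu hik) (nadj_of h ht2 hv ct2 cv hik) nv

/-- The case of no path component. -/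
theorem case0 {G : SimpleGraph V} {w : V} (h : Hub G w ι) (hP : ∀ i, ¬ h.P i)
    (hG : G ≠ ⊤) (hcard : 4 ≤ Fintype.card V) : (Fintype.card V : ℝ) ≤ gE cub G := by
  classical
  rcases Nat.lt_or_ge (Fintype.card ι) 3 with hr | hr
  · have hcases : Fintype.card ι = 0 ∨ Fintype.card ι = 1 ∨ Fintype.card ι = 2 := by omega
    rcases hcases with hr | hr | hr
    · exfalso
      have hemp := Fintype.card_eq_zero_iff.1 hr
      have : Fintype.card V ≤ 1 := by
        rw [Fintype.card_le_one_iff]
        intro a b
        exact (hemp.false (h.c a)).elim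
      omega
    · -- one clique
      obtain ⟨i, hi⟩ := Fintype.card_eq_one_iff.1 hr
      have hnf : ∃ u, u ≠ w ∧ h.c u = i ∧ ¬ G.Adj w u := by
        by_contra hcon
        push Not at hcon
        apply hG
        ext a b
        simp only [SimpleGraph.top_adj]
        refine ⟨fun h' => h'.ne, fun hab => ?_⟩
        by_cases ha : a = w
        · subst ha
          exact hcon b (fun h' => hab h'.symm) (hi _)
        · by_cases hb : b = w
          · subst hb
            exact (hcon a ha (hi _)).symm
          · exact h.hK i (hP i) a b ha hb hab (hi _) (hi _)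
      obtain ⟨u, v, hu, hv, cu, cv, au, nv, auv⟩ := exists_edge h i hnf
      obtain ⟨t, ht⟩ : ∃ t, t ∉ ({w, u, v} : Finset V) := by
        by_contra hcon
        push Not at hcon
        have h1 : (Finset.univ : Finset V) ⊆ {w, u, v} := fun t _ => hcon t
        have h2 := Finset.card_le_card h1
        rw [Finset.card_univ] at h2
        have h3 : ({w, u, v} : Finset V).card ≤ 3 := Finset.card_le_three
        omega
      simp only [Finset.mem_insert, Finset.mem_singleton, not_or] at ht
      obtain ⟨htw, htu, htv⟩ := ht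
      have atu : G.Adj t u := h.hK i (hP i) t u htw hu htu (hi _) (hi _)
      have atv : G.Adj t v := h.hK i (hP i) t v htw hv htv (hi _) (hi _)
      by_cases htw' : G.Adj w t
      · refine fin0 h hP (x := 64 / 41) ?_ ?_
        · exact hasT_diamond (a := u) (b := t) (c := w) (d := v) atu.symm au.symm auv
            htw'.symm atv nv hv.symm
        · rw [hr, cub_neg (by norm_num)]; norm_num
      · refine fin0 h hP (x := 31 / 21) ?_ ?_
        · exact hasT_paw (a := v) (b := t) (c := u) (d := w) atv.symm auv.symm atu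
            au.symm (fun h' => nv h'.symm) (fun h' => htw' h'.symm) hv htw
        · rw [hr, cub_neg (by norm_num)]; norm_num
    · -- two cliques
      by_cases hfull : ∀ u, u ≠ w → G.Adj w u
      · -- both fully joined
        have hne : Nonempty ι := by
          rw [← Fintype.card_pos_iff, hr]; norm_num
        have hbig : ∃ i, 2 ≤ sz h i := by
          by_contra hcon
          push Not at hcon
          have huniq : ∀ a b : V, a ≠ w → b ≠ w → h.c a = h.c b → a = b := by
            intro a b ha hb hc
            by_contra hab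
            have := sz_ge_two h (h.c a) hab ha hb rfl hc.symm
            exact absurd this (not_le.2 (hcon (h.c a)))
          have hinj : Function.Injective (fun a : {a : V // a ≠ w} => h.c a.1) := by
            intro a b hab
            exact Subtype.ext (huniq a.1 b.1 a.2 b.2 hab)
          have h1 := Fintype.card_le_of_injective _ hinj
          have h2 : Fintype.card {a : V // a ≠ w} = Fintype.card V - 1 := by
            rw [Fintype.card_subtype_compl, Fintype.card_subtype_eq]
          omega
        obtain ⟨i, hi⟩ := hbig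
        obtain ⟨j, hij⟩ := exists_other i (by omega)
        have hj := sz_ge_one h j
        set v0 : EuclideanSpace ℝ V := EuclideanSpace.single w (1:ℝ) with hv0
        have v0w : v0 w = 1 := by simp [hv0]
        have v0o : ∀ u, u ≠ w → v0 u = 0 := by
          intro u hu; simp [hv0, hu]
        set v1 : EuclideanSpace ℝ V := v0 + (-((0.82:ℝ) / sz h i)) • one h i with hv1
        have v1w : v1 w = 1 := by
          rw [hv1, PiLp.add_apply, PiLp.smul_apply, one_apply, v0w]
          simp
        have v1j : ∀ u, u ≠ w → h.c u = j → v1 u = 0 := by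
          intro u hu hc
          rw [hv1, PiLp.add_apply, PiLp.smul_apply, one_apply, v0o u hu, if_neg]
          · simp
          · rintro ⟨-, h'⟩
            exact hij (hc.symm.trans h')
        set v2 : EuclideanSpace ℝ V := v1 + (-((0.7:ℝ) / sz h j)) • one h j with hv2
        have v2w : v2 w = 1 := by
          rw [hv2, PiLp.add_apply, PiLp.smul_apply, one_apply, v1w]
          simp
        have e1 := add_clique h i (hP i) (fun u hu _ => hfull u hu) v0
          (fun u hu _ => v0o u hu) v0w 0.82 1.443
        have e2 := add_clique h j (hP j) (fun u hu _ => hfull u hu) v1 v1j v1w 0.7 1.443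
        rw [← hv1] at e1
        rw [← hv2, e1] at e2
        have q0 : Q (adj G) v0 = 0 := by
          unfold Q
          apply Finset.sum_eq_zero
          intro a _
          apply Finset.sum_eq_zero
          intro b _
          by_cases ha : a = w
          · by_cases hb : b = w
            · rw [ha, hb, adj_self]; ring
            · rw [v0o b hb]; ring
          · rw [v0o a ha]; ring
        have n0 : ‖v0‖ ^ 2 = 1 := by
          rw [hv0, PiLp.norm_single]; simp
        rw [q0, n0] at e2
        have hi' : (1.443 - 1) / sz h i ≤ 0.443 / 2 := by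
          rw [div_le_div_iff₀ (by linarith) (by norm_num)]
          linarith
        have hj' : (1.443 - 1) / sz h j ≤ 0.443 / 1 := by
          rw [div_le_div_iff₀ (by linarith) (by norm_num)]
          linarith
        have hQ : Q (adj G) v2 ≤ -1.443 * ‖v2‖ ^ 2 := by nlinarith
        have hne2 : v2 ≠ 0 := by
          intro h'
          rw [h'] at v2w
          simp at v2w
        have := hub_energy0' cub_good h v2 hne2 hQ hP (by
          intro v hv
          rw [hv2, inner_one h j (hP j) hv, hv1, inner_one h i (hP i) hv, hv0,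
            EuclideanSpace.inner_single_left, hv.hw]
          simp)
        rw [hr, cub_neg (by norm_num)] at this
        norm_num at this
        linarith
      · push Not at hfull
        obtain ⟨u, hu, nu⟩ := hfull
        obtain ⟨j, hj⟩ := exists_other (h.c u) (by omega)
        refine fin0 h hP (hasT_two h hj ⟨u, hu, rfl, nu⟩) ?_
        rw [hr, cub_neg (by norm_num)]; norm_num
  · -- at least three cliques
    refine fin0 h hP (hasT_hub h) ?_
    have hr' : (3:ℝ) ≤ Fintype.card ι := by exact_mod_cast hr
    set r : ℝ := ((Fintype.card ι : ℕ) : ℝ) with hrdef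
    rw [cub_neg (Real.sqrt_nonneg _)]
    have h1 : √r * √r = r := Real.mul_self_sqrt (by linarith)
    have h2 : √3 ≤ √r := Real.sqrt_le_sqrt hr'
    have h3 := sqrt3_lb
    have h4 : √r ^ 3 = r * √r := by
      calc √r ^ 3 = (√r * √r) * √r := by ring
        _ = r * √r := by rw [h1]
    rw [h4]
    nlinarith

end H78NE
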