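import Pool.Agent.Helper78.NE.Cases

set_option linter.unusedSectionVars false

namespace H78NE

open Matrix Finset

variable {V : Type*} [Fintype V] [DecidableEq V] {ι : Type*} [Fintype ι] [DecidableEq ι]

/-- Paw: two orthogonal test vectors. -/
lemma paw_two {G : SimpleGraph V} {a b c d : V} (hab : G.Adj a b) (hac : G.Adj a c)
    (hbc : G.Adj b c) (hcd : G.Adj c d) (nad : ¬ G.Adj a d) (nbd : ¬ G.Adj b d)
    (ead : a ≠ d) (ebd : b ≠ d) : 4 ≤ gE cub G := by
  have hf : Function.Injective ![a, b, c, d] := inj4 hab.ne hac.ne ead hbc.ne ebd hcd.ne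
  have hn := norm4 hf (-2) (-2) 5 (-3)
  have hn2 := norm4 hf 1 (-1) 0 0
  have h := two_vec cub_good (G := G) (ext ![a, b, c, d] !₂[-2, -2, 5, -3])
    (ext ![a, b, c, d] !₂[1, -1, 0, 0]) (x := 31 / 21)
    (by apply ne_zero_of_norm; rw [hn]; norm_num)
    (by
      rw [Q4, hn, adj_one hab, adj_one hac, adj_one hbc, adj_one hcd, adj_zero nad, adj_zero nbd]
      norm_num)
    (by apply ne_zero_of_norm; rw [hn2]; norm_num)
    (by
      rw [Q4, hn2, adj_one hab, adj_one hac, adj_one hbc, adj_one hcd, adj_zero nad, adj_zero nbd]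
      norm_num)
    (by
      rw [ext_inner hf, inner_sum]
      simp [Fin.sum_univ_succ])
  rw [cub_neg (by norm_num)] at h
  refine le_trans ?_ h
  norm_num

/-- Diamond: two orthogonal test vectors. -/
lemma diamond_two {G : SimpleGraph V} {a b c d : V} (hab : G.Adj a b) (hac : G.Adj a c)
    (had : G.Adj a d) (hbc : G.Adj b c) (hbd : G.Adj b d) (ncd : ¬ G.Adj c d)
    (ecd : c ≠ d) : 4 ≤ gE cub G := by
  have hf : Function.Injective ![a, b, c, d] := inj4 hab.ne hac.ne had.ne hbc.ne hbd.ne ecd
  have hn := norm4 hf (-4) (-4) 5 5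
  have hn2 := norm4 hf 1 (-1) 0 0
  have h := two_vec cub_good (G := G) (ext ![a, b, c, d] !₂[-4, -4, 5, 5])
    (ext ![a, b, c, d] !₂[1, -1, 0, 0]) (x := 64 / 41)
    (by apply ne_zero_of_norm; rw [hn]; norm_num)
    (by
      rw [Q4, hn, adj_one hab, adj_one hac, adj_one had, adj_one hbc, adj_one hbd, adj_zero ncd]
      norm_num)
    (by apply ne_zero_of_norm; rw [hn2]; norm_num)
    (by
      rw [Q4, hn2, adj_one hab, adj_one hac, adj_one had, adj_one hbc, adj_one hbd, adj_zero ncd]
      norm_num)
    (by
      rw [ext_inner hf, inner_sum]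
      simp [Fin.sum_univ_succ])
  rw [cub_neg (by norm_num)] at h
  refine le_trans ?_ h
  norm_num

open Classical in
/-- One path component attached by an end and the centre, one fully joined clique. -/
lemma special {G : SimpleGraph V} {w : V} (h : Hub G w ι) {i j : ι} (hij : j ≠ i)
    (hPi : h.P i) (hPj : ¬ h.P j) (e : V) (he : e ≠ w) (hc : h.c e = i) (aw : G.Adj w e)
    (awq : G.Adj w (h.q i)) (aeq : G.Adj e (h.q i))
    (hv : ∀ v : EuclideanSpace ℝ V, InU h v → v (h.q i) = -√2 * v e)
    (hfull : ∀ u, u ≠ w → h.c u = j → G.Adj w u)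
    (hm : Fintype.card {i // h.P i} = 1) (hr : Fintype.card ι = 2) :
    (Fintype.card V : ℝ) ≤ gE cub G := by
  have hf : Function.Injective ![w, e, h.q i] := by
    intro a b hab
    have h1 := aw.ne
    have h2 := awq.ne
    have h3 := aeq.ne
    fin_cases a <;> fin_cases b <;> simp_all
  set v0 : EuclideanSpace ℝ V := ext ![w, e, h.q i] !₂[1, -(2/3:ℝ), -(√2/3)] with hv0
  have v0w : v0 w = 1 := by
    have := ext_apply_f hf !₂[1, -(2/3:ℝ), -(√2/3)] 0
    simpa [hv0] using this
  have v0o : ∀ u, u ≠ w → h.c u = j → v0 u = 0 := by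
    intro u hu hcu
    apply ext_apply_off
    intro k
    fin_cases k
    · exact fun h' => hu h'.symm
    · intro h'
      have h'' : e = u := h'
      rw [← h'', hc] at hcu
      exact hij hcu.symm
    · intro h'
      have h'' : h.q i = u := h'
      rw [← h'', h.cq i hPi] at hcu
      exact hij hcu.symm
  have q0 : Q (adj G) v0 = 2 * (-(2/3:ℝ) - √2/3 + (2/3) * (√2/3)) := by
    rw [hv0, Q_ext]
    unfold Q
    simp [Fin.sum_univ_succ, adj_self]
    rw [adj_one aw, adj_one aw.symm, adj_one awq, adj_one awq.symm, adj_one aeq, adj_one aeq.symm]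
    ring
  have n0 : ‖v0‖ ^ 2 = 5 / 3 := by
    rw [hv0, ext_norm hf, norm_sq_sum]
    simp [Fin.sum_univ_succ]
    have := sqrt2_mul
    linear_combination (1/9) * this
  have hj := sz_ge_one h j
  have e1 := add_clique h j hPj hfull v0 v0o v0w 0.75 1.3
  rw [q0, n0] at e1
  set v1 : EuclideanSpace ℝ V := v0 + (-((0.75:ℝ) / sz h j)) • one h j with hv1
  have v1w : v1 w = 1 := by
    rw [hv1, PiLp.add_apply, PiLp.smul_apply, one_apply, v0w]
    simp
  have hj' : (1.3 - 1) / sz h j ≤ 0.3 / 1 := by
    rw [div_le_div_iff₀ (by linarith) (by norm_num)]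
    linarith
  have hQ : Q (adj G) v1 ≤ -1.3 * ‖v1‖ ^ 2 := by
    have := sqrt2_lb
    nlinarith
  have hne : v1 ≠ 0 := by
    intro h'
    rw [h'] at v1w
    simp at v1w
  have key := hub_energy' cub_good h v1 hne hQ (by
    intro v hInv
    rw [hv1, inner_one h j hPj hInv, hv0, inner_sum]
    have : ∑ x, (ext ![w, e, h.q i] !₂[1, -(2/3:ℝ), -(√2/3)]) x * v x
        = ∑ x, v x * (ext ![w, e, h.q i] !₂[1, -(2/3:ℝ), -(√2/3)]) x :=
      Finset.sum_congr rfl (fun x _ => mul_comm _ _)
    rw [this, sum_ext]
    simp [Fin.sum_univ_succ]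
    rw [hInv.hw, hv v hInv]
    have := sqrt2_mul
    linear_combination (v.ofLp e / 3) * this)
  have hk : Fintype.card {i // h.P i} + Fintype.card {i // ¬ h.P i} = Fintype.card ι := by
    rw [← Fintype.card_sum]
    exact Fintype.card_congr (Equiv.sumCompl h.P)
  have hk2 : Fintype.card {i // ¬ h.P i} = 1 := by omega
  rw [hm, hk2, cub_sqrt2, cub_neg (by norm_num)] at key
  have := sqrt2_lb
  push_cast at key
  norm_num at key
  linarith

/-- The case of at least one path component. -/
theorem caseP {G : SimpleGraph V} {w : V} (h : Hub G w ι) (hP : ∃ i, h.P i)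
    (hcard : 4 ≤ Fintype.card V) : (Fintype.card V : ℝ) ≤ gE cub G := by
  classical
  obtain ⟨i, hPi⟩ := hP
  obtain ⟨m, hm⟩ : ∃ m, Fintype.card {i // h.P i} = m := ⟨_, rfl⟩
  have hk : Fintype.card {i // h.P i} + Fintype.card {i // ¬ h.P i} = Fintype.card ι := by
    rw [← Fintype.card_sum]
    exact Fintype.card_congr (Equiv.sumCompl h.P)
  have hm1 : 1 ≤ m := by
    rw [← hm]
    exact Fintype.card_pos_iff.2 ⟨⟨i, hPi⟩⟩
  have hmr : m ≤ Fintype.card ι := by omega
  have hm1' : (1:ℝ) ≤ m := by exact_mod_cast hm1
  have s2l := sqrt2_lb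
  have s2u := sqrt2_ub
  have s3 := sqrt3_lb
  have hpw := h.hpw i hPi
  have hqw := h.hqw i hPi
  have hsw := h.hsw i hPi
  have hpq := h.hpq i hPi
  have hqs := h.hqs i hPi
  have hps := h.hps i hPi
  have cp := h.cp i hPi
  have cq := h.cq i hPi
  have cs := h.cs i hPi
  have apq := h.apq i hPi
  have aqs := h.aqs i hPi
  have aps := h.aps i hPi
  rcases Nat.lt_or_ge (Fintype.card ι) 4 with hr4 | hr4
  · have hr1 : 1 ≤ Fintype.card ι := by omega
    have hcases : Fintype.card ι = 1 ∨ Fintype.card ι = 2 ∨ Fintype.card ι = 3 := by omega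
    rcases hcases with hr | hr | hr
    · -- a single component
      have hm' : m = 1 := by omega
      subst hm'
      have hcard4 : Fintype.card V ≤ 4 := by
        have h1 : (Finset.univ : Finset V) ⊆ {w, h.p i, h.q i, h.s i} := by
          intro u _
          by_cases hu : u = w
          · simp [hu]
          · have : h.c u = i := by
              obtain ⟨i0, hi0⟩ := Fintype.card_eq_one_iff.1 hr
              rw [hi0 (h.c u), hi0 i]
            rcases h.hall i hPi u hu this with h' | h' | h' <;> simp [h']
        have h2 := Finset.card_le_card h1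
        rw [Finset.card_univ] at h2
        exact h2.trans Finset.card_le_four
      have hcV : (Fintype.card V : ℝ) = 4 := by
        have : Fintype.card V = 4 := by omega
        exact_mod_cast this
      by_cases hp : G.Adj w (h.p i) <;> by_cases hq : G.Adj w (h.q i) <;>
        by_cases hs : G.Adj w (h.s i)
      · -- all
        rw [hcV]
        exact diamond_two (a := w) (b := h.q i) (c := h.p i) (d := h.s i) hq hp hs apq.symm aqs
          aps hps
      · rw [hcV]
        exact paw_two (a := w) (b := h.p i) (c := h.q i) (d := h.s i) hp hq apq aqs hs aps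
          hsw.symm hps
      · refine finP h 1 hm (x := 2) ?_ ?_
        · exact hasT_C4 (a := w) (b := h.p i) (c := h.q i) (d := h.s i) hp apq aqs hs hq aps
            hqw.symm hps
        · rw [hr, cub_neg (by norm_num)]; norm_num
      · refine finP h 1 hm (x := 21 / 13) ?_ ?_
        · exact hasT_P4 (a := w) (b := h.p i) (c := h.q i) (d := h.s i) hp apq aqs hq hs aps
            hqw.symm hsw.symm hps
        · rw [hr, cub_neg (by norm_num)]; norm_num
      · rw [hcV]
        exact paw_two (a := w) (b := h.s i) (c := h.q i) (d := h.p i) hs hq aqs.symm apq.symm hp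
          (fun h' => aps h'.symm) hpw.symm hps.symm
      · refine finP h 1 hm (x := √3) ?_ ?_
        · exact hasT_star3 (w := h.q i) (a := w) (b := h.p i) (c := h.s i) hq.symm apq.symm aqs
            hpw.symm hsw.symm hps hp hs aps
        · rw [hr, cub_sqrt3]; push_cast; linarith
      · refine finP h 1 hm (x := 21 / 13) ?_ ?_
        · exact hasT_P4 (a := w) (b := h.s i) (c := h.q i) (d := h.p i) hs aqs.symm apq.symm hq hp
            (fun h' => aps h'.symm) hqw.symm hpw.symm hps.symm
        · rw [hr, cub_neg (by norm_num)]; norm_num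
      · exfalso
        obtain ⟨u, hu, cu, au⟩ := h.hn i
        rcases h.hall i hPi u hu cu with h' | h' | h'
        · rw [h'] at au; exact hp au
        · rw [h'] at au; exact hq au
        · rw [h'] at au; exact hs au
    · -- two components
      obtain ⟨j, hji⟩ := exists_other i (by omega)
      obtain ⟨t, htw, ct, at'⟩ := h.hn j
      have ntp : ¬ G.Adj t (h.p i) := nadj_of h htw hpw ct cp hji
      have ntq : ¬ G.Adj t (h.q i) := nadj_of h htw hqw ct cq hji
      have nts : ¬ G.Adj t (h.s i) := nadj_of h htw hsw ct cs hji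
      have etp := ne_of h ct cp hji
      have etq := ne_of h ct cq hji
      have ets := ne_of h ct cs hji
      have hm12 : m = 1 ∨ m = 2 := by omega
      rcases hm12 with hm' | hm'
      · subst hm'
        have hPj : ¬ h.P j := by
          intro hPj
          have : Fintype.card {i // h.P i} ≤ 1 := hm.le
          rw [Fintype.card_le_one_iff] at this
          have h1 := this ⟨j, hPj⟩ ⟨i, hPi⟩
          exact hji (congrArg Subtype.val h1)
        have c3 : (2:ℝ) + Fintype.card ι + (1:ℕ) - ((1:ℕ) - 1) * (2 * √2 - 1) ≤ cub (-√3) := by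
          rw [hr, cub_sqrt3]; push_cast; linarith
        by_cases hp : G.Adj w (h.p i)
        · by_cases hs : G.Adj w (h.s i)
          · refine finP h 1 hm (x := √3) ?_ c3
            exact hasT_star3 (w := w) (a := h.p i) (b := h.s i) (c := t) hp hs at'
              hps etp.symm ets.symm aps (fun h' => ntp h'.symm) (fun h' => nts h'.symm)
          · by_cases hq : G.Adj w (h.q i)
            · by_cases hnf : ∃ u, u ≠ w ∧ h.c u = j ∧ ¬ G.Adj w u
              · obtain ⟨u, v, hu, hv, cu, cv, au, nv, auv⟩ := exists_edge h j hnf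
                refine finP h 1 hm (x := √3) ?_ c3
                exact hasT_P5 (a := v) (b := u) (c := w) (d := h.q i) (e := h.s i) auv.symm
                  au.symm hq aqs (fun h' => nv h'.symm) (nadj_of h hv hqw cv cq hji)
                  (nadj_of h hv hsw cv cs hji) (nadj_of h hu hqw cu cq hji)
                  (nadj_of h hu hsw cu cs hji) hs hv (ne_of h cv cq hji) (ne_of h cv cs hji)
                  (ne_of h cu cq hji) (ne_of h cu cs hji) hsw.symm
              · push Not at hnf
                exact special h hji hPi hPj (h.p i) hpw cp hp hq apq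
                  (fun v hv => hv.hP2 i hPi) hnf hm hr
            · refine finP h 1 hm (x := √3) ?_ c3
              exact hasT_P5 (a := t) (b := w) (c := h.p i) (d := h.q i) (e := h.s i) at'.symm hp
                apq aqs ntp ntq nts hq hs aps etp etq ets hqw.symm hsw.symm hps
        · by_cases hq : G.Adj w (h.q i)
          · by_cases hs : G.Adj w (h.s i)
            · by_cases hnf : ∃ u, u ≠ w ∧ h.c u = j ∧ ¬ G.Adj w u
              · obtain ⟨u, v, hu, hv, cu, cv, au, nv, auv⟩ := exists_edge h j hnf
                refine finP h 1 hm (x := √3) ?_ c3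
                exact hasT_P5 (a := v) (b := u) (c := w) (d := h.q i) (e := h.p i) auv.symm
                  au.symm hq apq.symm (fun h' => nv h'.symm) (nadj_of h hv hqw cv cq hji)
                  (nadj_of h hv hpw cv cp hji) (nadj_of h hu hqw cu cq hji)
                  (nadj_of h hu hpw cu cp hji) hp hv (ne_of h cv cq hji) (ne_of h cv cp hji)
                  (ne_of h cu cq hji) (ne_of h cu cp hji) hpw.symm
              · push Not at hnf
                exact special h hji hPi hPj (h.s i) hsw cs hs hq aqs.symm
                  (fun v hv => by rw [← hv.hP1 i hPi]; exact hv.hP2 i hPi) hnf hm hr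
            · refine finP h 1 hm (x := √3) ?_ c3
              exact hasT_star3 (w := h.q i) (a := w) (b := h.p i) (c := h.s i) hq.symm apq.symm
                aqs hpw.symm hsw.symm hps hp hs aps
          · by_cases hs : G.Adj w (h.s i)
            · refine finP h 1 hm (x := √3) ?_ c3
              exact hasT_P5 (a := t) (b := w) (c := h.s i) (d := h.q i) (e := h.p i) at'.symm hs
                aqs.symm apq.symm nts ntq ntp hq hp (fun h' => aps h'.symm) ets etq etp
                hqw.symm hpw.symm hps.symm
            · exfalso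
              obtain ⟨u, hu, cu, au⟩ := h.hn i
              rcases h.hall i hPi u hu cu with h' | h' | h'
              · rw [h'] at au; exact hp au
              · rw [h'] at au; exact hq au
              · rw [h'] at au; exact hs au
      · subst hm'
        by_cases hnf : ∃ u, u ≠ w ∧ h.c u = i ∧ ¬ G.Adj w u
        · refine finP h 2 hm (hasT_two h hji hnf) ?_
          rw [hr, cub_neg (by norm_num)]
          norm_num
          linarith
        · push Not at hnf
          have hp := hnf _ hpw cp
          have hs := hnf _ hsw cs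
          refine finP h 2 hm (x := √3) ?_ ?_
          · exact hasT_star3 (w := w) (a := h.p i) (b := h.s i) (c := t) hp hs at'
              hps etp.symm ets.symm aps (fun h' => ntp h'.symm) (fun h' => nts h'.symm)
          · rw [hr, cub_sqrt3]; push_cast; linarith
    · -- three components
      rcases Nat.lt_or_ge m 2 with hm2 | hm2
      · have hm' : m = 1 := by omega
        subst hm'
        obtain ⟨j, k, hjk, hj⟩ : ∃ j k, j ≠ k ∧ Finset.univ.erase i = {j, k} := by
          have : (Finset.univ.erase i).card = 2 := by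
            rw [Finset.card_erase_of_mem (Finset.mem_univ i), Finset.card_univ, hr]
          rw [Finset.card_eq_two] at this
          obtain ⟨j, k, h1, h2⟩ := this
          exact ⟨j, k, h1, h2⟩
        have hji : j ≠ i := by
          have : j ∈ Finset.univ.erase i := by rw [hj]; simp
          exact (Finset.mem_erase.1 this).1
        have hki : k ≠ i := by
          have : k ∈ Finset.univ.erase i := by rw [hj]; simp
          exact (Finset.mem_erase.1 this).1
        by_cases hnf : ∃ u, u ≠ w ∧ h.c u = i ∧ ¬ G.Adj w u
        · refine finP h 1 hm (hasT_three h hji hki hjk hnf) ?_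
          rw [hr, cub_neg (by norm_num)]
          norm_num
        · push Not at hnf
          have hp := hnf _ hpw cp
          have hs := hnf _ hsw cs
          obtain ⟨t, htw, ct, at1⟩ := h.hn j
          obtain ⟨t2, ht2w, ct2, at2⟩ := h.hn k
          refine finP h 1 hm (x := 2) ?_ ?_
          · exact hasT_star4 (w := w) (a := h.p i) (b := h.s i) (c := t) (d := t2) hp hs at1 at2
              hps (ne_of h cp ct hji.symm) (ne_of h cp ct2 hki.symm) (ne_of h cs ct hji.symm)
              (ne_of h cs ct2 hki.symm) (ne_of h ct ct2 hjk)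
              aps (nadj_of h hpw htw cp ct hji.symm) (nadj_of h hpw ht2w cp ct2 hki.symm)
              (nadj_of h hsw htw cs ct hji.symm) (nadj_of h hsw ht2w cs ct2 hki.symm)
              (nadj_of h htw ht2w ct ct2 hjk)
          · rw [hr, cub_neg (by norm_num)]; norm_num
      · have hm2' : (2:ℝ) ≤ m := by exact_mod_cast hm2
        refine finP h m hm (hasT_hub h) ?_
        rw [hr]
        have : ((3:ℕ):ℝ) = 3 := by norm_num
        rw [this, cub_sqrt3]
        nlinarith
  · refine finP h m hm (hasT_hub h) ?_
    have hr' : (4:ℝ) ≤ Fintype.card ι := by exact_mod_cast hr4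
    set r : ℝ := ((Fintype.card ι : ℕ) : ℝ) with hrdef
    rw [cub_neg (Real.sqrt_nonneg _)]
    have h1 : √r * √r = r := Real.mul_self_sqrt (by linarith)
    have h2 : 2 ≤ √r := by
      apply Real.le_sqrt_of_sq_le
      norm_num
      linarith
    have h4 : √r ^ 3 = r * √r := by
      calc √r ^ 3 = (√r * √r) * √r := by ring
        _ = r * √r := by rw [h1]
    rw [h4]
    nlinarith

/-- Energy bound for a hub. -/
theorem hub_bound {G : SimpleGraph V} {w : V} (h : Hub G w ι)
    (hG : G ≠ ⊤) (hcard : 4 ≤ Fintype.card V) : (Fintype.card V : ℝ) ≤ gE cub G := by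
  by_cases hP : ∃ i, h.P i
  · exact caseP h hP hcard
  · push Not at hP
    exact case0 h hP hG hcard

end H78NE
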