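import Mathlib

set_option linter.unusedSectionVars false

/-!
Correlation matrices adapted to a connected graph.
-/

namespace H78NE

open Finset

/-- The function `t / (1 + t)`. -/
noncomputable def ph (t : ℝ) : ℝ := t / (1 + t)

lemma ph_zero : ph 0 = 0 := by simp [ph]

lemma ph_conc {s T : ℝ} (hs : 0 ≤ s) (hT : 0 ≤ T) :
    ph s ≤ ph T + (s - T) / (1 + T) ^ 2 := by
  unfold ph
  have h1 : 0 < 1 + s := by linarith
  have h2 : 0 < 1 + T := by linarith
  have h3 : T / (1 + T) + (s - T) / (1 + T) ^ 2 - s / (1 + s)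
      = (s - T) ^ 2 / ((1 + T) ^ 2 * (1 + s)) := by
    field_simp
    ring
  have h4 : 0 ≤ (s - T) ^ 2 / ((1 + T) ^ 2 * (1 + s)) := by positivity
  linarith

lemma ph_scale {t m : ℝ} (ht : 0 ≤ t) (hm : 2 ≤ m) :
    (m ^ 3 * ph t - 1) / ((m - 1) * (m + 1) ^ 2) ≤ ph ((m - 1) / m * t) := by
  unfold ph
  have h1 : 0 < 1 + t := by linarith
  have h2 : 0 < m - 1 := by linarith
  have h3 : 0 < m := by linarith
  have h4 : 0 < m + 1 := by linarith
  have h5 : 0 < 1 + (m - 1) / m * t := by positivity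
  have h6 : 0 < m + (m - 1) * t := by positivity
  have key : (m - 1) / m * t / (1 + (m - 1) / m * t)
      - (m ^ 3 * (t / (1 + t)) - 1) / ((m - 1) * (m + 1) ^ 2)
      = m * ((m - 1) * t - 1) ^ 2 / ((m + (m - 1) * t) * (1 + t) * ((m - 1) * (m + 1) ^ 2)) := by
    have e1 : (m - 1) / m * t / (1 + (m - 1) / m * t) = (m - 1) * t / (m + (m - 1) * t) := by
      rw [div_eq_div_iff h5.ne' h6.ne']
      field_simp
    rw [e1]
    field_simp
    ring
  have h7 : 0 ≤ m * ((m - 1) * t - 1) ^ 2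
      / ((m + (m - 1) * t) * (1 + t) * ((m - 1) * (m + 1) ^ 2)) := by positivity
  linarith

lemma ph_avg {V : Type*} (T : Finset V) (t : V → ℝ) (m : ℝ) (hm : 2 ≤ m)
    (hT : (T.card : ℝ) = m - 1) (ht : ∀ w ∈ T, 0 ≤ t w) :
    (m ^ 3 * (∑ w ∈ T, ph (t w)) - (m - 1)) / ((m - 1) ^ 2 * (m + 1) ^ 2)
      ≤ ph ((∑ w ∈ T, t w) / m) := by
  have h2 : 0 < m - 1 := by linarith
  have h3 : 0 < m := by linarith
  have h4 : 0 < m + 1 := by linarith
  set τ : ℝ := (∑ w ∈ T, t w) / m with hτ
  have hτ0 : 0 ≤ τ := div_nonneg (Finset.sum_nonneg ht) h3.le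
  have hA : ∀ w ∈ T, (m ^ 3 * ph (t w) - 1) / ((m - 1) * (m + 1) ^ 2)
      ≤ ph τ + ((m - 1) / m * t w - τ) / (1 + τ) ^ 2 := by
    intro w hw
    have hs : 0 ≤ (m - 1) / m * t w := mul_nonneg (div_nonneg h2.le h3.le) (ht w hw)
    exact (ph_scale (ht w hw) hm).trans (ph_conc hs hτ0)
  have hsum := Finset.sum_le_sum hA
  rw [← Finset.sum_div, Finset.sum_sub_distrib, ← Finset.mul_sum, Finset.sum_const,
    Finset.sum_add_distrib, Finset.sum_const, ← Finset.sum_div, Finset.sum_sub_distrib,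
    ← Finset.mul_sum, Finset.sum_const, nsmul_eq_mul, nsmul_eq_mul, nsmul_eq_mul, hT] at hsum
  have e : (m - 1) / m * (∑ w ∈ T, t w) - (m - 1) * τ = 0 := by
    rw [hτ]; field_simp; ring
  rw [e, zero_div, add_zero, mul_one] at hsum
  rw [div_le_iff₀ (by positivity)]
  rw [div_le_iff₀ (by positivity)] at hsum
  calc m ^ 3 * (∑ w ∈ T, ph (t w)) - (m - 1) ≤ (m - 1) * ph τ * ((m - 1) * (m + 1) ^ 2) := hsum
    _ = ph τ * ((m - 1) ^ 2 * (m + 1) ^ 2) := by ring

variable {V : Type*} [Fintype V] [DecidableEq V]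

/-- The quadratic form of a kernel. -/
def qf (W : V → V → ℝ) (x : V → ℝ) : ℝ := ∑ u, ∑ v, x u * W u v * x v

/-- A correlation matrix on the vertex set `S`, negative on the edges inside `S`. -/
structure Corr (G : SimpleGraph V) (S : Finset V) (W : V → V → ℝ) : Prop where
  symm : ∀ u v, W u v = W v u
  psd : ∀ x, 0 ≤ qf W x
  supp : ∀ u v, u ∉ S → W u v = 0
  diag : ∀ u ∈ S, W u u = 1
  neg : ∀ u ∈ S, ∀ v ∈ S, G.Adj u v → W u v < 0

open Classical in
/-- The weight of a correlation matrix. -/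
noncomputable def th (G : SimpleGraph V) (W : V → V → ℝ) : ℝ :=
  ∑ u, ∑ v, if G.Adj u v then ph (-W u v) else 0

/-- Connectedness of the graph induced on a finite set, in the form without a separation. -/
def Cn (G : SimpleGraph V) (S : Finset V) : Prop :=
  S.Nonempty ∧ ∀ A ⊆ S, A.Nonempty → A ≠ S → ∃ u ∈ A, ∃ v ∈ S, v ∉ A ∧ G.Adj u v

lemma Corr.supp' {G : SimpleGraph V} {S : Finset V} {W : V → V → ℝ} (h : Corr G S W)
    (u v : V) (hv : v ∉ S) : W u v = 0 := by
  rw [h.symm]; exact h.supp v u hv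

lemma qf_shift (W : V → V → ℝ) (hW : ∀ u v, W u v = W v u) (w : V) (x : V → ℝ) (c : ℝ) :
    qf W (fun u => x u - c * (if u = w then 1 else 0))
      = qf W x - 2 * c * (∑ u, W u w * x u) + c ^ 2 * W w w := by
  unfold qf
  have h1 : ∀ u v, (x u - c * (if u = w then (1:ℝ) else 0)) * W u v
      * (x v - c * (if v = w then (1:ℝ) else 0))
      = x u * W u v * x v - (if v = w then c * (x u * W u v) else 0)
        - (if u = w then c * (W u v * x v) else 0)
        + (if u = w then (if v = w then c ^ 2 * W u v else 0) else 0) := by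
    intro u v
    split_ifs <;> ring
  simp only [h1, Finset.sum_add_distrib, Finset.sum_sub_distrib]
  have e1 : ∑ u, ∑ v, (if v = w then c * (x u * W u v) else 0) = c * ∑ u, W u w * x u := by
    rw [Finset.mul_sum]
    apply Finset.sum_congr rfl
    intro u _
    rw [Finset.sum_ite_eq']
    simp only [Finset.mem_univ, if_true]
    ring
  have e2 : ∑ u, ∑ v, (if u = w then c * (W u v * x v) else 0) = c * ∑ u, W u w * x u := by
    rw [Finset.sum_comm, Finset.mul_sum]
    apply Finset.sum_congr rfl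
    intro v _
    rw [Finset.sum_ite_eq']
    simp only [Finset.mem_univ, if_true]
    rw [hW w v]
  have e3 : ∑ u, ∑ v, (if u = w then (if v = w then c ^ 2 * W u v else 0) else 0)
      = c ^ 2 * W w w := by
    have : ∀ u, ∑ v, (if u = w then (if v = w then c ^ 2 * W u v else 0) else 0)
        = if u = w then c ^ 2 * W u w else 0 := by
      intro u
      by_cases hu : u = w
      · simp only [hu, if_true]
        rw [Finset.sum_ite_eq']
        simp
      · simp [hu]
    simp only [this]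
    rw [Finset.sum_ite_eq']
    simp
  rw [e1, e2, e3]
  ring

lemma Corr.qf_ge {G : SimpleGraph V} {S : Finset V} {W : V → V → ℝ} (h : Corr G S W)
    {w : V} (hw : w ∈ S) (x : V → ℝ) : (∑ u, W u w * x u) ^ 2 ≤ qf W x := by
  have h1 := h.psd (fun u => x u - (∑ u, W u w * x u) * (if u = w then 1 else 0))
  rw [qf_shift W h.symm, h.diag w hw] at h1
  nlinarith

end H78NE
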