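import Pool.Agent.Helper78.NE.Corr

set_option linter.unusedSectionVars false

/-!
Every connected graph on `n` vertices has a correlation matrix of weight at least `n - 1`.
-/

namespace H78NE

open Finset

variable {V : Type*} [Fintype V] [DecidableEq V]

/-! ### Base cases -/

lemma corr_one (G : SimpleGraph V) (a : V) :
    ∃ W, Corr G {a} W ∧ (1:ℝ) - 1 ≤ th G W := by
  classical
  refine ⟨fun u v => (if u = a then 1 else 0) * (if v = a then 1 else 0), ?_, ?_⟩
  · constructor
    · intro u v; ring
    · intro x
      have : qf (fun u v => (if u = a then (1:ℝ) else 0) * (if v = a then 1 else 0)) x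
          = (∑ u, x u * (if u = a then 1 else 0)) ^ 2 := by
        unfold qf
        rw [sq, Finset.sum_mul_sum]
        apply Finset.sum_congr rfl; intro u _
        apply Finset.sum_congr rfl; intro v _
        ring
      rw [this]; positivity
    · intro u v hu
      simp only [Finset.mem_singleton] at hu
      simp [hu]
    · intro u hu
      simp only [Finset.mem_singleton] at hu
      simp [hu]
    · intro u hu v hv huv
      simp only [Finset.mem_singleton] at hu hv
      rw [hu, hv] at huv
      exact absurd huv (G.loopless.irrefl a)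
  · rw [sub_self]
    unfold th
    apply Finset.sum_nonneg; intro u _
    apply Finset.sum_nonneg; intro v _
    by_cases h : G.Adj u v
    · rw [if_pos h]
      have hne : ¬ (u = a ∧ v = a) := by
        rintro ⟨h1, h2⟩
        rw [h1, h2] at h
        exact G.loopless.irrefl a h
      have : ((if u = a then (1:ℝ) else 0) * (if v = a then 1 else 0)) = 0 := by
        by_cases h1 : u = a
        · by_cases h2 : v = a
          · exact absurd ⟨h1, h2⟩ hne
          · simp [h2]
        · simp [h1]
      simp only [this]
      simp [ph]
    · rw [if_neg h]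

lemma corr_two (G : SimpleGraph V) {a b : V} (hab : G.Adj a b) :
    ∃ W, Corr G {a, b} W ∧ (2:ℝ) - 1 ≤ th G W := by
  classical
  have hne : a ≠ b := hab.ne
  set e : V → ℝ := fun u => (if u = a then 1 else 0) - (if u = b then 1 else 0) with he
  have ea : e a = 1 := by simp [he, hne]
  have eb : e b = -1 := by simp [he, hne.symm]
  have e0 : ∀ u, u ≠ a → u ≠ b → e u = 0 := by
    intro u h1 h2; simp [he, h1, h2]
  refine ⟨fun u v => e u * e v, ?_, ?_⟩
  · constructor
    · intro u v; ring
    · intro x
      have : qf (fun u v => e u * e v) x = (∑ u, x u * e u) ^ 2 := by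
        unfold qf
        rw [sq, Finset.sum_mul_sum]
        apply Finset.sum_congr rfl; intro u _
        apply Finset.sum_congr rfl; intro v _
        ring
      rw [this]; positivity
    · intro u v hu
      simp only [Finset.mem_insert, Finset.mem_singleton, not_or] at hu
      rw [e0 u hu.1 hu.2, zero_mul]
    · intro u hu
      simp only [Finset.mem_insert, Finset.mem_singleton] at hu
      rcases hu with h | h
      · rw [h, ea]; norm_num
      · rw [h, eb]; norm_num
    · intro u hu v hv huv
      simp only [Finset.mem_insert, Finset.mem_singleton] at hu hv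
      rcases hu with h | h <;> rcases hv with h' | h'
      · rw [h, h'] at huv; exact absurd huv (G.loopless.irrefl a)
      · rw [h, h', ea, eb]; norm_num
      · rw [h, h', ea, eb]; norm_num
      · rw [h, h'] at huv; exact absurd huv (G.loopless.irrefl b)
  · have hnn : ∀ u v, 0 ≤ (if G.Adj u v then ph (-(e u * e v)) else 0) := by
      intro u v
      by_cases h : G.Adj u v
      · rw [if_pos h]
        have huv : u ≠ v := h.ne
        by_cases h1 : u = a
        · by_cases h2 : v = b
          · rw [h1, h2, ea, eb]; norm_num [ph]
          · have : v ≠ a := fun h3 => huv (h1.trans h3.symm)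
            rw [e0 v this h2]; simp [ph]
        · by_cases h2 : u = b
          · by_cases h3 : v = a
            · rw [h2, h3, ea, eb]; norm_num [ph]
            · have : v ≠ b := fun h4 => huv (h2.trans h4.symm)
              rw [e0 v h3 this]; simp [ph]
          · rw [e0 u h1 h2]; simp [ph]
      · rw [if_neg h]
    have h1 : (1:ℝ) / 2 ≤ ∑ v, if G.Adj a v then ph (-(e a * e v)) else 0 := by
      have := Finset.single_le_sum (f := fun v => if G.Adj a v then ph (-(e a * e v)) else 0)
        (fun v _ => hnn a v) (Finset.mem_univ b)
      refine le_trans ?_ this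
      simp only [if_pos hab, ea, eb]
      norm_num [ph]
    have h2 : (1:ℝ) / 2 ≤ ∑ v, if G.Adj b v then ph (-(e b * e v)) else 0 := by
      have := Finset.single_le_sum (f := fun v => if G.Adj b v then ph (-(e b * e v)) else 0)
        (fun v _ => hnn b v) (Finset.mem_univ a)
      refine le_trans ?_ this
      simp only [if_pos hab.symm, ea, eb]
      norm_num [ph]
    have h3 : (∑ v, if G.Adj a v then ph (-(e a * e v)) else 0)
        + (∑ v, if G.Adj b v then ph (-(e b * e v)) else 0)
        ≤ ∑ u, ∑ v, if G.Adj u v then ph (-(e u * e v)) else 0 := by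
      have := Finset.sum_le_sum_of_subset_of_nonneg
        (f := fun u => ∑ v, if G.Adj u v then ph (-(e u * e v)) else 0)
        (Finset.subset_univ ({a, b} : Finset V))
        (fun u _ _ => Finset.sum_nonneg (fun v _ => hnn u v))
      rw [Finset.sum_pair hne] at this
      exact this
    unfold th
    linarith

/-! ### Gluing at a vertex -/

lemma corr_glue (G : SimpleGraph V) {w : V} {A B : Finset V} (hwA : w ∉ A) (hwB : w ∉ B)
    (hAB : Disjoint A B) (hno : ∀ u ∈ A, ∀ v ∈ B, ¬ G.Adj u v)
    {W1 W2 : V → V → ℝ} (h1 : Corr G (insert w A) W1) (h2 : Corr G (insert w B) W2) :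
    ∃ W, Corr G (insert w (A ∪ B)) W ∧ th G W = th G W1 + th G W2 := by
  classical
  have hw1 : w ∈ insert w A := Finset.mem_insert_self _ _
  have hw2 : w ∈ insert w B := Finset.mem_insert_self _ _
  set e : V → ℝ := fun u => if u = w then 1 else 0 with he
  set a : V → ℝ := fun u => W1 u w - e u with ha
  set b : V → ℝ := fun u => W2 u w - e u with hb
  have ew : e w = 1 := by simp [he]
  have e0 : ∀ u, u ≠ w → e u = 0 := by intro u hu; simp [he, hu]
  have a0 : ∀ u, u ∉ A → a u = 0 := by
    intro u hu
    by_cases huw : u = w
    · rw [huw]; simp only [ha]; rw [h1.diag w hw1, ew]; ring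
    · simp only [ha]
      rw [h1.supp u w (by simp [huw, hu]), e0 u huw]; ring
  have b0 : ∀ u, u ∉ B → b u = 0 := by
    intro u hu
    by_cases huw : u = w
    · rw [huw]; simp only [hb]; rw [h2.diag w hw2, ew]; ring
    · simp only [hb]
      rw [h2.supp u w (by simp [huw, hu]), e0 u huw]; ring
  set W : V → V → ℝ := fun u v => W1 u v + W2 u v - e u * e v + a u * b v + b u * a v with hW
  -- cross terms vanish on edges
  have hedge : ∀ u v, G.Adj u v → W u v = W1 u v + W2 u v := by
    intro u v huv
    have h3 : e u * e v = 0 := by
      by_cases hu : u = w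
      · have hv : v ≠ w := fun h => huv.ne (hu.trans h.symm)
        rw [e0 v hv, mul_zero]
      · rw [e0 u hu, zero_mul]
    have h4 : a u * b v = 0 := by
      by_cases hu : u ∈ A
      · have hv : v ∉ B := fun hv => hno u hu v hv huv
        rw [b0 v hv, mul_zero]
      · rw [a0 u hu, zero_mul]
    have h5 : b u * a v = 0 := by
      by_cases hv : v ∈ A
      · have hu : u ∉ B := fun hu => hno v hv u hu huv.symm
        rw [b0 u hu, zero_mul]
      · rw [a0 v hv, mul_zero]
    simp only [hW]
    rw [h3, h4, h5]; ring
  have hone : ∀ u v, G.Adj u v → W1 u v = 0 ∨ W2 u v = 0 := by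
    intro u v huv
    by_cases hu : u ∈ insert w A
    · by_cases hv : v ∈ insert w A
      · right
        by_cases hu2 : u ∈ insert w B
        · by_cases hv2 : v ∈ insert w B
          · exfalso
            have huw : u = w := by
              rcases Finset.mem_insert.1 hu with h | h
              · exact h
              · rcases Finset.mem_insert.1 hu2 with h' | h'
                · exact h'
                · exact absurd h' (Finset.disjoint_left.1 hAB h)
            have hvw : v = w := by
              rcases Finset.mem_insert.1 hv with h | h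
              · exact h
              · rcases Finset.mem_insert.1 hv2 with h' | h'
                · exact h'
                · exact absurd h' (Finset.disjoint_left.1 hAB h)
            exact huv.ne (huw.trans hvw.symm)
          · exact h2.supp' u v hv2
        · exact h2.supp u v hu2
      · left; exact h1.supp' u v hv
    · left; exact h1.supp u v hu
  refine ⟨W, ?_, ?_⟩
  · constructor
    · intro u v
      simp only [hW]
      rw [h1.symm u v, h2.symm u v]; ring
    · intro x
      set α : ℝ := ∑ u, W1 u w * x u with hα
      set β : ℝ := ∑ u, W2 u w * x u with hβ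
      have hq : qf W x = qf W1 x + qf W2 x - x w ^ 2 + 2 * ((α - x w) * (β - x w)) := by
        have hs1 : ∑ u, a u * x u = α - x w := by
          simp only [ha, sub_mul, Finset.sum_sub_distrib]
          congr 1
          simp [he]
        have hs2 : ∑ u, b u * x u = β - x w := by
          simp only [hb, sub_mul, Finset.sum_sub_distrib]
          congr 1
          simp [he]
        have hse : ∑ u, e u * x u = x w := by simp [he]
        have hexp : qf W x = qf W1 x + qf W2 x - (∑ u, e u * x u) * (∑ v, e v * x v)
            + (∑ u, a u * x u) * (∑ v, b v * x v) + (∑ u, b u * x u) * (∑ v, a v * x v) := by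
          unfold qf
          rw [Finset.sum_mul_sum, Finset.sum_mul_sum, Finset.sum_mul_sum]
          rw [← Finset.sum_add_distrib, ← Finset.sum_sub_distrib, ← Finset.sum_add_distrib,
            ← Finset.sum_add_distrib]
          apply Finset.sum_congr rfl; intro u _
          rw [← Finset.sum_add_distrib, ← Finset.sum_sub_distrib, ← Finset.sum_add_distrib,
            ← Finset.sum_add_distrib]
          apply Finset.sum_congr rfl; intro v _
          simp only [hW]; ring
        rw [hexp, hs1, hs2, hse]; ring
      have g1 := h1.qf_ge hw1 x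
      have g2 := h2.qf_ge hw2 x
      rw [← hα] at g1
      rw [← hβ] at g2
      rw [hq]
      nlinarith [sq_nonneg (α + β - x w)]
    · intro u v hu
      simp only [Finset.mem_insert, Finset.mem_union, not_or] at hu
      obtain ⟨huw, huA, huB⟩ := hu
      simp only [hW]
      rw [h1.supp u v (by simp [huw, huA]), h2.supp u v (by simp [huw, huB]), e0 u huw,
        a0 u huA, b0 u huB]
      ring
    · intro u hu
      simp only [hW]
      simp only [Finset.mem_insert, Finset.mem_union] at hu
      rcases hu with h | h | h
      · rw [h, h1.diag w hw1, h2.diag w hw2, ew, a0 w hwA]; ring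
      · have huw : u ≠ w := fun h' => hwA (h' ▸ h)
        have huB : u ∉ B := Finset.disjoint_left.1 hAB h
        rw [h1.diag u (Finset.mem_insert_of_mem h), h2.supp u u (by simp [huw, huB]),
          e0 u huw, b0 u huB]; ring
      · have huw : u ≠ w := fun h' => hwB (h' ▸ h)
        have huA : u ∉ A := Finset.disjoint_right.1 hAB h
        rw [h2.diag u (Finset.mem_insert_of_mem h), h1.supp u u (by simp [huw, huA]),
          e0 u huw, a0 u huA]; ring
    · intro u hu v hv huv
      rw [hedge u v huv]
      have hcase : (u ∈ insert w A ∧ v ∈ insert w A) ∨ (u ∈ insert w B ∧ v ∈ insert w B) := by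
        simp only [Finset.mem_insert, Finset.mem_union] at hu hv ⊢
        rcases hu with h | h | h <;> rcases hv with h' | h' | h'
        · left; exact ⟨Or.inl h, Or.inl h'⟩
        · left; exact ⟨Or.inl h, Or.inr h'⟩
        · right; exact ⟨Or.inl h, Or.inr h'⟩
        · left; exact ⟨Or.inr h, Or.inl h'⟩
        · left; exact ⟨Or.inr h, Or.inr h'⟩
        · exact absurd huv (hno u h v h')
        · right; exact ⟨Or.inr h, Or.inl h'⟩
        · exact absurd huv.symm (hno v h' u h)
        · right; exact ⟨Or.inr h, Or.inr h'⟩
      rcases hcase with ⟨hu1, hv1⟩ | ⟨hu1, hv1⟩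
      · have hneg := h1.neg u hu1 v hv1 huv
        rcases hone u v huv with h0 | h0
        · rw [h0] at hneg; exact absurd hneg (lt_irrefl 0)
        · rw [h0]; linarith
      · have hneg := h2.neg u hu1 v hv1 huv
        rcases hone u v huv with h0 | h0
        · rw [h0]; linarith
        · rw [h0] at hneg; exact absurd hneg (lt_irrefl 0)
  · unfold th
    rw [← Finset.sum_add_distrib]
    apply Finset.sum_congr rfl; intro u _
    rw [← Finset.sum_add_distrib]
    apply Finset.sum_congr rfl; intro v _
    by_cases huv : G.Adj u v
    · rw [if_pos huv, if_pos huv, if_pos huv, hedge u v huv]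
      rcases hone u v huv with h0 | h0
      · rw [h0]; simp [ph]
      · rw [h0]; simp [ph]
    · rw [if_neg huv, if_neg huv, if_neg huv, add_zero]

/-! ### Averaging over the vertices -/

lemma pair_count (S : Finset V) :
    (∑ u ∈ S, ∑ v ∈ S, (if u ≠ v then (1:ℝ) else 0)) = (S.card : ℝ) * ((S.card : ℝ) - 1) := by
  have h : ∀ u ∈ S, ∑ v ∈ S, (if u ≠ v then (1:ℝ) else 0) = (S.card : ℝ) - 1 := by
    intro u hu
    have : ∀ v, (if u ≠ v then (1:ℝ) else 0) = 1 - (if u = v then 1 else 0) := by
      intro v
      by_cases h : u = v <;> simp [h]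
    simp only [this, Finset.sum_sub_distrib]
    rw [Finset.sum_ite_eq]
    simp [hu]
  rw [Finset.sum_congr rfl h, Finset.sum_const, nsmul_eq_mul]

lemma corr_avg (G : SimpleGraph V) (S : Finset V) (hS : 3 ≤ S.card)
    (F : V → V → V → ℝ) (hF : ∀ w ∈ S, Corr G (S.erase w) (F w))
    (hth : ∀ w ∈ S, (S.card : ℝ) - 2 ≤ th G (F w)) :
    ∃ W, Corr G S W ∧ (S.card : ℝ) - 1 ≤ th G W := by
  classical
  set m : ℝ := (S.card : ℝ) - 1 with hm
  have hS3 : (3:ℝ) ≤ (S.card : ℝ) := by exact_mod_cast hS
  have hm2 : 2 ≤ m := by linarith
  have hm0 : 0 < m := by linarith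
  set W : V → V → ℝ := fun u v => (∑ w ∈ S, F w u v) / m with hW
  refine ⟨W, ?_, ?_⟩
  · constructor
    · intro u v
      simp only [hW]
      congr 1
      exact Finset.sum_congr rfl (fun w hw => (hF w hw).symm u v)
    · intro x
      have : qf W x = (∑ w ∈ S, qf (F w) x) / m := by
        have hsw : ∑ w ∈ S, qf (F w) x = ∑ u, ∑ v, ∑ w ∈ S, x u * F w u v * x v := by
          unfold qf
          rw [Finset.sum_comm]
          apply Finset.sum_congr rfl; intro u _
          rw [Finset.sum_comm]
        rw [hsw]
        unfold qf
        rw [Finset.sum_div]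
        apply Finset.sum_congr rfl; intro u _
        rw [Finset.sum_div]
        apply Finset.sum_congr rfl; intro v _
        rw [← Finset.sum_mul, ← Finset.mul_sum]
        simp only [hW]
        ring
      rw [this]
      exact div_nonneg (Finset.sum_nonneg (fun w hw => (hF w hw).psd x)) hm0.le
    · intro u v hu
      simp only [hW]
      rw [Finset.sum_eq_zero, zero_div]
      intro w hw
      exact (hF w hw).supp u v (fun h => hu (Finset.mem_of_mem_erase h))
    · intro u hu
      simp only [hW]
      have : ∀ w ∈ S, F w u u = 1 - (if w = u then 1 else 0) := by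
        intro w hw
        by_cases h : w = u
        · rw [if_pos h, (hF w hw).supp u u (by simp [h])]; ring
        · rw [if_neg h, (hF w hw).diag u (Finset.mem_erase.2 ⟨fun h' => h h'.symm, hu⟩)]; ring
      rw [Finset.sum_congr rfl this, Finset.sum_sub_distrib, Finset.sum_ite_eq', if_pos hu,
        Finset.sum_const, nsmul_eq_mul, mul_one, ← hm]
      exact div_self hm0.ne'
    · intro u hu v hv huv
      simp only [hW]
      apply div_neg_of_neg_of_pos _ hm0
      have hle : ∀ w ∈ S, F w u v ≤ 0 := by
        intro w hw
        by_cases h : u ∈ S.erase w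
        · by_cases h' : v ∈ S.erase w
          · exact ((hF w hw).neg u h v h' huv).le
          · rw [(hF w hw).supp' u v h']
        · rw [(hF w hw).supp u v h]
      have hex : ∃ w ∈ S, w ≠ u ∧ w ≠ v := by
        have hc : ({u, v} : Finset V).card < S.card := by
          have := Finset.card_le_two (a := u) (b := v)
          omega
        obtain ⟨w, hw, hw2⟩ := Finset.exists_mem_notMem_of_card_lt_card hc
        refine ⟨w, hw, ?_, ?_⟩
        · intro h; exact hw2 (by simp [h])
        · intro h; exact hw2 (by simp [h])
      obtain ⟨w, hw, hwu, hwv⟩ := hex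
      apply Finset.sum_neg' hle
      exact ⟨w, hw, (hF w hw).neg u (Finset.mem_erase.2 ⟨fun h => hwu h.symm, hu⟩) v
        (Finset.mem_erase.2 ⟨fun h => hwv h.symm, hv⟩) huv⟩
  · -- the weight
    set c : ℝ := (m - 1) ^ 2 * (m + 1) ^ 2 with hc
    have hc0 : 0 < c := by
      have : 0 < m - 1 := by linarith
      positivity
    have hpair : ∀ u v, (if u ∈ S ∧ v ∈ S ∧ G.Adj u v then
        (m ^ 3 * (∑ w ∈ S, ph (-(F w u v))) - (m - 1)) / c else 0)
        ≤ (if G.Adj u v then ph (-(W u v)) else 0) := by
      intro u v
      by_cases huv : G.Adj u v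
      · rw [if_pos huv]
        by_cases hu : u ∈ S
        · by_cases hv : v ∈ S
          · rw [if_pos ⟨hu, hv, huv⟩]
            set T : Finset V := (S.erase u).erase v with hT
            have hvT : v ∈ S.erase u := Finset.mem_erase.2 ⟨huv.ne.symm, hv⟩
            have hTcard : (T.card : ℝ) = m - 1 := by
              have h1 : T.card + 1 = (S.erase u).card := Finset.card_erase_add_one hvT
              have h2 : (S.erase u).card + 1 = S.card := Finset.card_erase_add_one hu
              have h3 : T.card + 2 = S.card := by omega
              rw [hm, ← h3]; push_cast; ring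
            have hz : ∀ w ∈ S, w ∉ T → F w u v = 0 := by
              intro w hw hwT
              have : w = u ∨ w = v := by
                by_contra hcon
                push Not at hcon
                exact hwT (Finset.mem_erase.2 ⟨hcon.2, Finset.mem_erase.2 ⟨hcon.1, hw⟩⟩)
              rcases this with h | h
              · rw [h]; exact (hF u hu).supp u v (by simp)
              · rw [h]; exact (hF v hv).supp' u v (by simp)
            have hsub : T ⊆ S := (Finset.erase_subset _ _).trans (Finset.erase_subset _ _)
            have hs1 : ∑ w ∈ S, ph (-(F w u v)) = ∑ w ∈ T, ph (-(F w u v)) := by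
              symm
              apply Finset.sum_subset hsub
              intro w hw hwT
              rw [hz w hw hwT]; simp [ph]
            have hs2 : ∑ w ∈ S, F w u v = ∑ w ∈ T, F w u v := by
              symm
              apply Finset.sum_subset hsub
              intro w hw hwT
              exact hz w hw hwT
            have hnn : ∀ w ∈ T, 0 ≤ -(F w u v) := by
              intro w hw
              have hwv : w ≠ v := (Finset.mem_erase.1 hw).1
              have hw' := (Finset.mem_erase.1 hw).2
              have hwu : w ≠ u := (Finset.mem_erase.1 hw').1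
              have hwS : w ∈ S := (Finset.mem_erase.1 hw').2
              have := (hF w hwS).neg u (Finset.mem_erase.2 ⟨hwu.symm, hu⟩) v
                (Finset.mem_erase.2 ⟨hwv.symm, hv⟩) huv
              linarith
            have h := ph_avg T (fun w => -(F w u v)) m hm2 hTcard hnn
            rw [hs1]
            refine h.trans (le_of_eq ?_)
            simp only [hW]
            rw [hs2, Finset.sum_neg_distrib, neg_div]
          · rw [if_neg (fun h => hv h.2.1)]
            have : W u v = 0 := by
              simp only [hW]
              rw [Finset.sum_eq_zero, zero_div]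
              intro w hw
              exact (hF w hw).supp' u v (fun h => hv (Finset.mem_of_mem_erase h))
            rw [this]; simp [ph]
        · rw [if_neg (fun h => hu h.1)]
          have : W u v = 0 := by
            simp only [hW]
            rw [Finset.sum_eq_zero, zero_div]
            intro w hw
            exact (hF w hw).supp u v (fun h => hu (Finset.mem_of_mem_erase h))
          rw [this]; simp [ph]
      · rw [if_neg huv, if_neg (fun h => huv h.2.2)]
    have hlow : (∑ u, ∑ v, (if u ∈ S ∧ v ∈ S ∧ G.Adj u v then
        (m ^ 3 * (∑ w ∈ S, ph (-(F w u v))) - (m - 1)) / c else 0)) ≤ th G W := by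
      unfold th
      exact Finset.sum_le_sum (fun u _ => Finset.sum_le_sum (fun v _ => hpair u v))
    refine le_trans ?_ hlow
    -- split the sum
    have hsplit : ∀ u v, (if u ∈ S ∧ v ∈ S ∧ G.Adj u v then
        (m ^ 3 * (∑ w ∈ S, ph (-(F w u v))) - (m - 1)) / c else 0)
        = (m ^ 3 / c) * (∑ w ∈ S, if G.Adj u v then ph (-(F w u v)) else 0)
          - ((m - 1) / c) * (if u ∈ S ∧ v ∈ S ∧ G.Adj u v then 1 else 0) := by
      intro u v
      by_cases huv : G.Adj u v
      · by_cases hu : u ∈ S
        · by_cases hv : v ∈ S
          · rw [if_pos ⟨hu, hv, huv⟩, if_pos ⟨hu, hv, huv⟩]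
            simp only [if_pos huv]
            field_simp
          · rw [if_neg (fun h => hv h.2.1), if_neg (fun h => hv h.2.1)]
            simp only [if_pos huv]
            rw [Finset.sum_eq_zero]
            · ring
            · intro w hw
              rw [(hF w hw).supp' u v (fun h => hv (Finset.mem_of_mem_erase h))]; simp [ph]
        · rw [if_neg (fun h => hu h.1), if_neg (fun h => hu h.1)]
          simp only [if_pos huv]
          rw [Finset.sum_eq_zero]
          · ring
          · intro w hw
            rw [(hF w hw).supp u v (fun h => hu (Finset.mem_of_mem_erase h))]; simp [ph]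
      · rw [if_neg (fun h => huv h.2.2), if_neg (fun h => huv h.2.2)]
        simp [huv]
    have hsum : (∑ u, ∑ v, (if u ∈ S ∧ v ∈ S ∧ G.Adj u v then
        (m ^ 3 * (∑ w ∈ S, ph (-(F w u v))) - (m - 1)) / c else 0))
        = (m ^ 3 / c) * (∑ w ∈ S, th G (F w))
          - ((m - 1) / c) * (∑ u, ∑ v, (if u ∈ S ∧ v ∈ S ∧ G.Adj u v then (1:ℝ) else 0)) := by
      simp only [hsplit, Finset.sum_sub_distrib, ← Finset.mul_sum]
      congr 2
      unfold th
      rw [Finset.sum_congr rfl (fun u _ => Finset.sum_comm), Finset.sum_comm]
    rw [hsum]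
    have hcount : (∑ u, ∑ v, (if u ∈ S ∧ v ∈ S ∧ G.Adj u v then (1:ℝ) else 0))
        ≤ (S.card : ℝ) * ((S.card : ℝ) - 1) := by
      rw [← pair_count S]
      have h1 : ∑ u ∈ S, ∑ v ∈ S, (if u ≠ v then (1:ℝ) else 0)
          = ∑ u, ∑ v, (if u ∈ S ∧ v ∈ S ∧ u ≠ v then (1:ℝ) else 0) := by
        rw [← Finset.sum_filter_add_sum_filter_not Finset.univ (fun u => u ∈ S)]
        rw [Finset.sum_eq_zero (s := Finset.univ.filter (fun u => ¬ u ∈ S))]
        · rw [add_zero]
          have : Finset.univ.filter (fun u => u ∈ S) = S := by ext; simp
          rw [this]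
          apply Finset.sum_congr rfl; intro u hu
          rw [← Finset.sum_filter_add_sum_filter_not Finset.univ (fun v => v ∈ S)]
          rw [Finset.sum_eq_zero (s := Finset.univ.filter (fun v => ¬ v ∈ S)), add_zero, this]
          · apply Finset.sum_congr rfl; intro v hv
            simp [hu, hv]
          · intro v hv
            rw [if_neg]
            intro h
            exact (Finset.mem_filter.1 hv).2 h.2.1
        · intro u hu
          apply Finset.sum_eq_zero; intro v _
          rw [if_neg]
          intro h
          exact (Finset.mem_filter.1 hu).2 h.1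
      rw [h1]
      apply Finset.sum_le_sum; intro u _
      apply Finset.sum_le_sum; intro v _
      by_cases h : u ∈ S ∧ v ∈ S ∧ G.Adj u v
      · rw [if_pos h, if_pos ⟨h.1, h.2.1, h.2.2.ne⟩]
      · rw [if_neg h]
        split_ifs <;> norm_num
    have hthsum : (S.card : ℝ) * (m - 1) ≤ ∑ w ∈ S, th G (F w) := by
      have : ∑ w ∈ S, (m - 1) ≤ ∑ w ∈ S, th G (F w) := by
        apply Finset.sum_le_sum
        intro w hw
        have := hth w hw
        rw [hm]; linarith
      rw [Finset.sum_const, nsmul_eq_mul] at this
      exact this
    have hcard : (S.card : ℝ) = m + 1 := by rw [hm]; ring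
    rw [hcard] at hcount hthsum
    have hm1 : 0 < m - 1 := by linarith
    have k1 : (m ^ 3 / c) * ((m + 1) * (m - 1)) ≤ (m ^ 3 / c) * (∑ w ∈ S, th G (F w)) :=
      mul_le_mul_of_nonneg_left hthsum (by positivity)
    have k2 : ((m - 1) / c) * (∑ u, ∑ v, (if u ∈ S ∧ v ∈ S ∧ G.Adj u v then (1:ℝ) else 0))
        ≤ ((m - 1) / c) * ((m + 1) * ((m + 1) - 1)) :=
      mul_le_mul_of_nonneg_left hcount (div_nonneg hm1.le hc0.le)
    have k3 : (m ^ 3 / c) * ((m + 1) * (m - 1)) - ((m - 1) / c) * ((m + 1) * ((m + 1) - 1)) = m := by
      rw [hc]
      field_simp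
      ring
    linarith

/-! ### The induction -/

lemma cn_side (G : SimpleGraph V) {w : V} {A B : Finset V} (hwA : w ∉ A)
    (hno : ∀ u ∈ A, ∀ v ∈ B, ¬ G.Adj u v) (h : Cn G (insert w (A ∪ B))) :
    Cn G (insert w A) := by
  refine ⟨⟨w, Finset.mem_insert_self _ _⟩, ?_⟩
  intro X hX hXne hXS
  by_cases hw : w ∈ X
  · -- complement is inside A
    set Y : Finset V := (insert w A) \ X with hY
    have hYA : ∀ y ∈ Y, y ∈ A := by
      intro y hy
      have h1 := Finset.mem_sdiff.1 hy
      rcases Finset.mem_insert.1 h1.1 with h2 | h2
      · exact absurd (h2 ▸ hw) h1.2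
      · exact h2
    have hYne : Y.Nonempty := by
      by_contra hcon
      rw [Finset.not_nonempty_iff_eq_empty, hY, Finset.sdiff_eq_empty_iff_subset] at hcon
      exact hXS (Finset.Subset.antisymm hX hcon)
    have hYS : Y ⊆ insert w (A ∪ B) := by
      intro y hy
      exact Finset.mem_insert_of_mem (Finset.mem_union_left _ (hYA y hy))
    have hYneS : Y ≠ insert w (A ∪ B) := by
      intro hcon
      have : w ∈ Y := by rw [hcon]; exact Finset.mem_insert_self _ _
      exact hwA (hYA w this)
    obtain ⟨u, hu, v, hv, hvY, huv⟩ := h.2 Y hYS hYne hYneS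
    have hvB : v ∉ B := fun hvB => hno u (hYA u hu) v hvB huv
    have hvS : v ∈ insert w A := by
      rcases Finset.mem_insert.1 hv with h1 | h1
      · exact Finset.mem_insert.2 (Or.inl h1)
      · rcases Finset.mem_union.1 h1 with h2 | h2
        · exact Finset.mem_insert_of_mem h2
        · exact absurd h2 hvB
    have hvX : v ∈ X := by
      by_contra hcon
      exact hvY (Finset.mem_sdiff.2 ⟨hvS, hcon⟩)
    have huX := Finset.mem_sdiff.1 hu
    exact ⟨v, hvX, u, huX.1, huX.2, huv.symm⟩
  · have hXA : ∀ x ∈ X, x ∈ A := by
      intro x hx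
      rcases Finset.mem_insert.1 (hX hx) with h1 | h1
      · exact absurd (h1 ▸ hx) hw
      · exact h1
    have hXS' : X ⊆ insert w (A ∪ B) := by
      intro x hx
      exact Finset.mem_insert_of_mem (Finset.mem_union_left _ (hXA x hx))
    have hXne' : X ≠ insert w (A ∪ B) := by
      intro hcon
      exact hw (by rw [hcon]; exact Finset.mem_insert_self _ _)
    obtain ⟨u, hu, v, hv, hvX, huv⟩ := h.2 X hXS' hXne hXne'
    have hvB : v ∉ B := fun hvB => hno u (hXA u hu) v hvB huv
    have hvS : v ∈ insert w A := by
      rcases Finset.mem_insert.1 hv with h1 | h1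
      · exact Finset.mem_insert.2 (Or.inl h1)
      · rcases Finset.mem_union.1 h1 with h2 | h2
        · exact Finset.mem_insert_of_mem h2
        · exact absurd h2 hvB
    exact ⟨u, hu, v, hvS, hvX, huv⟩

theorem exists_corr (G : SimpleGraph V) : ∀ n : ℕ, ∀ S : Finset V, S.card = n → Cn G S →
    ∃ W, Corr G S W ∧ (S.card : ℝ) - 1 ≤ th G W := by
  classical
  intro n
  induction n using Nat.strong_induction_on with
  | _ n ih =>
    intro S hn hS
    have hpos : 0 < S.card := Finset.card_pos.2 hS.1
    by_cases h1 : S.card = 1
    · obtain ⟨a, ha⟩ := Finset.card_eq_one.1 h1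
      rw [h1, ha]
      simpa using corr_one G a
    by_cases h2 : S.card = 2
    · obtain ⟨a, b, hab, hSab⟩ := Finset.card_eq_two.1 h2
      have hadj : G.Adj a b := by
        obtain ⟨u, hu, v, hv, hvu, huv⟩ := hS.2 {a} (by rw [hSab]; simp) (by simp)
          (by rw [hSab]; intro h; have : b ∈ ({a} : Finset V) := by rw [h]; simp
              exact hab (Finset.mem_singleton.1 this).symm)
        rw [Finset.mem_singleton] at hu hvu
        rw [hSab] at hv
        simp only [Finset.mem_insert, Finset.mem_singleton] at hv
        rcases hv with h | h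
        · exact absurd h hvu
        · rw [hu, h] at huv; exact huv
      rw [h2, hSab]
      simpa using corr_two G hadj
    have h3 : 3 ≤ S.card := by omega
    by_cases hcut : ∃ w ∈ S, ¬ Cn G (S.erase w)
    · obtain ⟨w, hw, hwc⟩ := hcut
      have hne : (S.erase w).Nonempty := by
        rw [← Finset.card_pos, Finset.card_erase_of_mem hw]; omega
      have hsep : ∃ A ⊆ S.erase w, A.Nonempty ∧ A ≠ S.erase w ∧
          ∀ u ∈ A, ∀ v ∈ S.erase w, v ∉ A → ¬ G.Adj u v := by
        by_contra hcon
        apply hwc
        refine ⟨hne, ?_⟩
        intro A hA hAne hAS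
        by_contra hcon2
        apply hcon
        refine ⟨A, hA, hAne, hAS, ?_⟩
        intro u hu v hv hvA huv
        exact hcon2 ⟨u, hu, v, hv, hvA, huv⟩
      obtain ⟨A, hA, hAne, hAS, hno⟩ := hsep
      set B : Finset V := (S.erase w) \ A with hB
      have hBne : B.Nonempty := by
        by_contra hcon
        rw [Finset.not_nonempty_iff_eq_empty, hB, Finset.sdiff_eq_empty_iff_subset] at hcon
        exact hAS (Finset.Subset.antisymm hA hcon)
      have hwA : w ∉ A := fun h => Finset.notMem_erase w S (hA h)
      have hwB : w ∉ B := fun h => Finset.notMem_erase w S (Finset.mem_sdiff.1 h).1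
      have hdis : Disjoint A B := Finset.disjoint_sdiff
      have hun : A ∪ B = S.erase w := by
        rw [hB]; exact Finset.union_sdiff_of_subset hA
      have hins : insert w (A ∪ B) = S := by rw [hun]; exact Finset.insert_erase hw
      have hno' : ∀ u ∈ A, ∀ v ∈ B, ¬ G.Adj u v := by
        intro u hu v hv
        exact hno u hu v (Finset.mem_sdiff.1 hv).1 (Finset.mem_sdiff.1 hv).2
      have hcA : Cn G (insert w A) := cn_side G hwA hno' (by rw [hins]; exact hS)
      have hcB : Cn G (insert w B) := by
        apply cn_side G hwB (B := A)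
        · intro u hu v hv huv
          exact hno' v hv u hu huv.symm
        · rw [Finset.union_comm, hins]; exact hS
      have hcardA : (insert w A).card = A.card + 1 := Finset.card_insert_of_notMem hwA
      have hcardB : (insert w B).card = B.card + 1 := Finset.card_insert_of_notMem hwB
      have hcardS : S.card = A.card + B.card + 1 := by
        rw [← hins, Finset.card_insert_of_notMem (by simp [hwA, hwB]),
          Finset.card_union_of_disjoint hdis]
      have hAp : 0 < A.card := Finset.card_pos.2 hAne
      have hBp : 0 < B.card := Finset.card_pos.2 hBne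
      obtain ⟨W1, hW1, hth1⟩ := ih (insert w A).card (by omega) (insert w A) rfl hcA
      obtain ⟨W2, hW2, hth2⟩ := ih (insert w B).card (by omega) (insert w B) rfl hcB
      obtain ⟨W, hW, hth⟩ := corr_glue G hwA hwB hdis hno' hW1 hW2
      rw [hins] at hW
      refine ⟨W, hW, ?_⟩
      rw [hth, hcardS]
      rw [hcardA] at hth1
      rw [hcardB] at hth2
      push_cast at hth1 hth2 ⊢
      linarith
    · push Not at hcut
      have hex : ∀ w : V, ∃ F : V → V → ℝ, w ∈ S → Corr G (S.erase w) F ∧
          (S.card : ℝ) - 2 ≤ th G F := by
        intro w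
        by_cases hw : w ∈ S
        · have hc : (S.erase w).card = S.card - 1 := Finset.card_erase_of_mem hw
          obtain ⟨F, hF, hth⟩ := ih (S.erase w).card (by omega) (S.erase w) rfl (hcut w hw)
          refine ⟨F, fun _ => ⟨hF, ?_⟩⟩
          rw [hc] at hth
          have : ((S.card - 1 : ℕ) : ℝ) = (S.card : ℝ) - 1 := by
            rw [Nat.cast_sub (by omega)]; simp
          rw [this] at hth
          linarith
        · exact ⟨fun _ _ => 0, fun h => absurd h hw⟩
      choose F hF using hex
      exact corr_avg G S h3 F (fun w hw => (hF w hw).1) (fun w hw => (hF w hw).2)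

end H78NE
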