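import Pool.Agent.Helper78.NE.Hub

set_option linter.unusedSectionVars false

namespace H78NE

open Matrix Finset

variable {V : Type*} [Fintype V] [DecidableEq V] {ι : Type*} [Fintype ι] [DecidableEq ι]

open Classical in
/-- Embedding of the span of the lowest eigenvectors of the path components. -/
noncomputable def Phi {G : SimpleGraph V} {w : V} (h : Hub G w ι) :
    ({i // h.P i} → ℝ) →ₗ[ℝ] EuclideanSpace ℝ V where
  toFun f := WithLp.toLp 2 (fun u => if hu : u ≠ w ∧ h.P (h.c u) then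
    f ⟨h.c u, hu.2⟩ * (if u = h.q (h.c u) then -√2 else 1) else 0)
  map_add' f g := by
    ext u
    simp only [PiLp.add_apply]
    split_ifs
    · simp only [Pi.add_apply]; ring
    · simp only [Pi.add_apply]; ring
    · simp
  map_smul' a f := by
    ext u
    simp only [PiLp.smul_apply, RingHom.id_apply, smul_eq_mul]
    split_ifs
    · simp only [Pi.smul_apply, smul_eq_mul]; ring
    · simp only [Pi.smul_apply, smul_eq_mul]; ring
    · simp

open Classical in
lemma Phi_apply {G : SimpleGraph V} {w : V} (h : Hub G w ι) (f : {i // h.P i} → ℝ) (u : V) :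
    Phi h f u = if hu : u ≠ w ∧ h.P (h.c u) then
    f ⟨h.c u, hu.2⟩ * (if u = h.q (h.c u) then -√2 else 1) else 0 := rfl

lemma Phi_of {G : SimpleGraph V} {w : V} (h : Hub G w ι) (f : {i // h.P i} → ℝ) (u : V)
    (i : ι) (hi : h.P i) (hu : u ≠ w) (hc : h.c u = i) :
    Phi h f u = f ⟨i, hi⟩ * (if u = h.q i then -√2 else 1) := by
  classical
  subst hc
  rw [Phi_apply, dif_pos ⟨hu, hi⟩]

lemma Phi_p {G : SimpleGraph V} {w : V} (h : Hub G w ι) (f : {i // h.P i} → ℝ)
    (i : ι) (hi : h.P i) : Phi h f (h.p i) = f ⟨i, hi⟩ := by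
  classical
  rw [Phi_of h f (h.p i) i hi (h.hpw i hi) (h.cp i hi), if_neg (h.hpq i hi), mul_one]

lemma Phi_s {G : SimpleGraph V} {w : V} (h : Hub G w ι) (f : {i // h.P i} → ℝ)
    (i : ι) (hi : h.P i) : Phi h f (h.s i) = f ⟨i, hi⟩ := by
  classical
  rw [Phi_of h f (h.s i) i hi (h.hsw i hi) (h.cs i hi),
    if_neg (fun h' => h.hqs i hi h'.symm), mul_one]

lemma Phi_q {G : SimpleGraph V} {w : V} (h : Hub G w ι) (f : {i // h.P i} → ℝ)
    (i : ι) (hi : h.P i) : Phi h f (h.q i) = -√2 * f ⟨i, hi⟩ := by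
  classical
  rw [Phi_of h f (h.q i) i hi (h.hqw i hi) (h.cq i hi), if_pos rfl, mul_comm]

lemma Phi_off {G : SimpleGraph V} {w : V} (h : Hub G w ι) (f : {i // h.P i} → ℝ)
    (u : V) (hu : ¬ h.P (h.c u)) : Phi h f u = 0 := by
  classical
  rw [Phi_apply, dif_neg (fun h' => hu h'.2)]

lemma Phi_InU {G : SimpleGraph V} {w : V} (h : Hub G w ι) (f : {i // h.P i} → ℝ) :
    InU h (Phi h f) where
  hw := by
    classical
    rw [Phi_apply, dif_neg (fun h' => h'.1 rfl)]
  hK := by
    classical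
    intro i hi
    apply Finset.sum_eq_zero
    intro u _
    split_ifs with hu
    · exact Phi_off h f u (by rw [hu.2]; exact hi)
    · rfl
  hP1 := fun i hi => by rw [Phi_p h f i hi, Phi_s h f i hi]
  hP2 := fun i hi => by rw [Phi_p h f i hi, Phi_q h f i hi]

lemma Phi_inj {G : SimpleGraph V} {w : V} (h : Hub G w ι) : Function.Injective (Phi h) := by
  rw [← LinearMap.ker_eq_bot, LinearMap.ker_eq_bot']
  intro f hf
  funext i
  have := Phi_p h f i.1 i.2
  rw [hf] at this
  simpa using this.symm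

/-- Dimension of the image under Phi of the kernel of one functional. -/
lemma W_dim {G : SimpleGraph V} {w : V} (h : Hub G w ι) [Fintype {i // h.P i}]
    (ψ : EuclideanSpace ℝ V →ₗ[ℝ] ℝ) :
    (Fintype.card {i // h.P i} : ℝ) ≤
      (Module.finrank ℝ (Submodule.map (Phi h) (LinearMap.ker (ψ ∘ₗ Phi h))) : ℝ) + 1 := by
  classical
  have h1 := LinearMap.finrank_range_add_finrank_ker (ψ ∘ₗ Phi h)
  have h2 : Module.finrank ℝ (LinearMap.range (ψ ∘ₗ Phi h)) ≤ 1 := by
    have := Submodule.finrank_le (LinearMap.range (ψ ∘ₗ Phi h))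
    simpa using this
  have h3 : Module.finrank ℝ (Submodule.map (Phi h) (LinearMap.ker (ψ ∘ₗ Phi h)))
      = Module.finrank ℝ (LinearMap.ker (ψ ∘ₗ Phi h)) :=
    (Submodule.equivMapOfInjective (Phi h) (Phi_inj h) _).finrank_eq.symm
  rw [Module.finrank_fintype_fun_eq_card] at h1
  rw [h3]
  have h4 : Fintype.card {i // h.P i} ≤ Module.finrank ℝ (LinearMap.ker (ψ ∘ₗ Phi h)) + 1 := by
    omega
  exact_mod_cast h4

open Classical in
/-- The functionals defining the test space. -/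
noncomputable def FF {G : SimpleGraph V} {w : V} (h : Hub G w ι) :
    (Unit ⊕ ({i // ¬ h.P i} ⊕ ({i // h.P i} ⊕ {i // h.P i}))) → (EuclideanSpace ℝ V →ₗ[ℝ] ℝ) :=
  Sum.elim (fun _ => ev w) (Sum.elim
    (fun i => ∑ u ∈ Finset.univ.filter (fun u => u ≠ w ∧ h.c u = i.1), ev u)
    (Sum.elim (fun i => ev (h.p i.1) - ev (h.s i.1)) (fun i => ev (h.q i.1) + √2 • ev (h.p i.1))))

lemma FF_InU {G : SimpleGraph V} {w : V} (h : Hub G w ι) (v : EuclideanSpace ℝ V)
    (hv : ∀ k, FF h k v = 0) : InU h v where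
  hw := hv (Sum.inl ())
  hK := by
    classical
    intro i hi
    have := hv (Sum.inr (Sum.inl ⟨i, hi⟩))
    simp only [FF, Sum.elim_inr, Sum.elim_inl, LinearMap.sum_apply, ev_apply] at this
    rw [Finset.sum_filter] at this
    refine Eq.trans ?_ this
    apply Finset.sum_congr rfl
    intro u _
    congr 1
  hP1 := by
    intro i hi
    have := hv (Sum.inr (Sum.inr (Sum.inl ⟨i, hi⟩)))
    simp only [FF, Sum.elim_inr, Sum.elim_inl, LinearMap.sub_apply, ev_apply] at this
    linarith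
  hP2 := by
    intro i hi
    have := hv (Sum.inr (Sum.inr (Sum.inr ⟨i, hi⟩)))
    simp only [FF, Sum.elim_inr, LinearMap.add_apply, LinearMap.smul_apply, smul_eq_mul,
      ev_apply] at this
    linarith

lemma InU_FF {G : SimpleGraph V} {w : V} (h : Hub G w ι) (v : EuclideanSpace ℝ V)
    (hv : InU h v) : ∀ k, FF h k v = 0 := by
  classical
  rintro (k | k | k | k)
  · exact hv.hw
  · simp only [FF, Sum.elim_inr, Sum.elim_inl, LinearMap.sum_apply, ev_apply]
    rw [Finset.sum_filter]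
    refine Eq.trans ?_ (hv.hK k.1 k.2)
    apply Finset.sum_congr rfl
    intro u _
    congr 1
  · simp only [FF, Sum.elim_inr, Sum.elim_inl, LinearMap.sub_apply, ev_apply]
    rw [hv.hP1 k.1 k.2, sub_self]
  · simp only [FF, Sum.elim_inr, LinearMap.add_apply, LinearMap.smul_apply, smul_eq_mul,
      ev_apply]
    rw [hv.hP2 k.1 k.2]; ring

/-- Energy bound from a test vector. -/
theorem hub_energy {φ : ℝ → ℝ} (hφ : Good φ) {G : SimpleGraph V} {w : V} (h : Hub G w ι)
    [Fintype {i // h.P i}] [Fintype {i // ¬ h.P i}]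
    (y : EuclideanSpace ℝ V) (hy0 : y ≠ 0) {x : ℝ} (hy : Q (adj G) y ≤ -x * ‖y‖ ^ 2)
    : φ (-x) + (Fintype.card {i // h.P i} - 1) * (φ (-√2) - 1)
      + (Fintype.card V - 2 - Fintype.card {i // ¬ h.P i} - 2 * Fintype.card {i // h.P i})
      ≤ gE φ G := by
  classical
  set ψ : EuclideanSpace ℝ V →ₗ[ℝ] ℝ := (innerₗ (EuclideanSpace ℝ V)) y with hψ
  set F : (Unit ⊕ (Unit ⊕ ({i // ¬ h.P i} ⊕ ({i // h.P i} ⊕ {i // h.P i})))) →
    (EuclideanSpace ℝ V →ₗ[ℝ] ℝ) := Sum.elim (fun _ => ψ) (FF h) with hF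
  set U := LinearMap.ker (LinearMap.pi F) with hU
  set W := Submodule.map (Phi h) (LinearMap.ker (ψ ∘ₗ Phi h)) with hW
  have memU : ∀ v ∈ U, InU h v ∧ inner ℝ y v = 0 := by
    intro v hv
    rw [hU, LinearMap.mem_ker] at hv
    have hv' : ∀ k, F k v = 0 := fun k => congrFun hv k
    refine ⟨FF_InU h v (fun k => hv' (Sum.inr k)), hv' (Sum.inl ())⟩
  have memU' : ∀ v, InU h v → inner ℝ y v = 0 → v ∈ U := by
    intro v hv hv2
    rw [hU, LinearMap.mem_ker]
    funext k
    rcases k with k | k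
    · exact hv2
    · exact InU_FF h v hv k
  have hWU : W ≤ U := by
    intro v hv
    rw [hW, Submodule.mem_map] at hv
    obtain ⟨f, hf, rfl⟩ := hv
    exact memU' _ (Phi_InU h f) hf
  have hfl := flag hφ (adj_herm G) (c := √2) (x := x) U W hWU y hy0 hy
    (fun u hu => (memU u hu).2) (fun u hu => Q_InU_le h (memU u hu).1)
    (by
      intro v hv
      refine Q_InW_le h (memU v (hWU hv)).1 ?_
      intro u hu
      rw [hW, Submodule.mem_map] at hv
      obtain ⟨f, hf, rfl⟩ := hv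
      exact Phi_off h f u hu)
  have hdW := W_dim h ψ
  have hdU := finrank_ker F
  rw [← hW] at hdW
  rw [← hU] at hdU
  have hcard : (Fintype.card (Unit ⊕ (Unit ⊕ ({i // ¬ h.P i} ⊕ ({i // h.P i} ⊕ {i // h.P i})))) : ℝ)
      = 2 + Fintype.card {i // ¬ h.P i} + 2 * Fintype.card {i // h.P i} := by
    simp only [Fintype.card_sum, Fintype.card_unit]
    push_cast
    ring
  rw [hcard] at hdU
  have h1 : 1 ≤ φ (-√2) := by
    rw [← hφ.one]
    exact hφ.anti _ _ (by linarith [one_le_sqrt2])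
  rw [gE_eq]
  have h2 : ((Fintype.card {i // h.P i} : ℝ) - 1) * (φ (-√2) - 1)
      ≤ (Module.finrank ℝ W : ℝ) * (φ (-√2) - 1) := by
    apply mul_le_mul_of_nonneg_right _ (by linarith)
    linarith
  linarith

/-- Energy bound from a test vector, no path components. -/
theorem hub_energy0 {φ : ℝ → ℝ} (hφ : Good φ) {G : SimpleGraph V} {w : V} (h : Hub G w ι)
    (y : EuclideanSpace ℝ V) (hy0 : y ≠ 0) {x : ℝ} (hy : Q (adj G) y ≤ -x * ‖y‖ ^ 2)
    (hP : ∀ i, ¬ h.P i) :
    φ (-x) + (Fintype.card V - 2 - Fintype.card ι) ≤ gE φ G := by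
  classical
  set ψ : EuclideanSpace ℝ V →ₗ[ℝ] ℝ := (innerₗ (EuclideanSpace ℝ V)) y with hψ
  set F : (Unit ⊕ (Unit ⊕ ({i // ¬ h.P i} ⊕ ({i // h.P i} ⊕ {i // h.P i})))) →
    (EuclideanSpace ℝ V →ₗ[ℝ] ℝ) := Sum.elim (fun _ => ψ) (FF h) with hF
  set U := LinearMap.ker (LinearMap.pi F) with hU
  have memU : ∀ v ∈ U, InU h v ∧ inner ℝ y v = 0 := by
    intro v hv
    rw [hU, LinearMap.mem_ker] at hv
    have hv' : ∀ k, F k v = 0 := fun k => congrFun hv k
    refine ⟨FF_InU h v (fun k => hv' (Sum.inr k)), hv' (Sum.inl ())⟩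
  have hfl := flag hφ (adj_herm G) (c := √2) (x := x) U ⊥ bot_le y hy0 hy
    (fun u hu => (memU u hu).2) (fun u hu => Q_InU_le h (memU u hu).1)
    (by
      intro v hv
      rw [Submodule.mem_bot] at hv
      subst hv
      simp [Q])
  have hdU := finrank_ker F
  rw [← hU] at hdU
  have e1 : Fintype.card {i // h.P i} = 0 := by
    rw [Fintype.card_eq_zero_iff]
    exact ⟨fun i => hP i.1 i.2⟩
  have e2 : Fintype.card {i // ¬ h.P i} = Fintype.card ι := by
    apply Fintype.card_of_bijective (f := fun i => i.1)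
    constructor
    · exact Subtype.val_injective
    · intro i; exact ⟨⟨i, hP i⟩, rfl⟩
  have hcard : (Fintype.card (Unit ⊕ (Unit ⊕ ({i // ¬ h.P i} ⊕ ({i // h.P i} ⊕ {i // h.P i})))) : ℝ)
      = 2 + Fintype.card ι := by
    simp only [Fintype.card_sum, Fintype.card_unit, e1, e2]
    push_cast
    ring
  rw [hcard] at hdU
  rw [gE_eq]
  simp only [finrank_bot, Nat.cast_zero, zero_mul, sub_zero, add_zero] at hfl
  linarith

/-- Energy bound from a test vector orthogonal to the whole test space, no path components. -/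
theorem hub_energy0' {φ : ℝ → ℝ} (hφ : Good φ) {G : SimpleGraph V} {w : V} (h : Hub G w ι)
    (y : EuclideanSpace ℝ V) (hy0 : y ≠ 0) {x : ℝ} (hy : Q (adj G) y ≤ -x * ‖y‖ ^ 2)
    (hP : ∀ i, ¬ h.P i) (hperp : ∀ v, InU h v → inner ℝ y v = 0) :
    φ (-x) + (Fintype.card V - 1 - Fintype.card ι) ≤ gE φ G := by
  classical
  set U := LinearMap.ker (LinearMap.pi (FF h)) with hU
  have memU : ∀ v ∈ U, InU h v ∧ inner ℝ y v = 0 := by
    intro v hv
    rw [hU, LinearMap.mem_ker] at hv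
    have hv' : ∀ k, FF h k v = 0 := fun k => congrFun hv k
    have := FF_InU h v hv'
    exact ⟨this, hperp v this⟩
  have hfl := flag hφ (adj_herm G) (c := √2) (x := x) U ⊥ bot_le y hy0 hy
    (fun u hu => (memU u hu).2) (fun u hu => Q_InU_le h (memU u hu).1)
    (by
      intro v hv
      rw [Submodule.mem_bot] at hv
      subst hv
      simp [Q])
  have hdU := finrank_ker (FF h)
  rw [← hU] at hdU
  have e1 : Fintype.card {i // h.P i} = 0 := by
    rw [Fintype.card_eq_zero_iff]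
    exact ⟨fun i => hP i.1 i.2⟩
  have e2 : Fintype.card {i // ¬ h.P i} = Fintype.card ι := by
    apply Fintype.card_of_bijective (f := fun i => i.1)
    constructor
    · exact Subtype.val_injective
    · intro i; exact ⟨⟨i, hP i⟩, rfl⟩
  have hcard : (Fintype.card (Unit ⊕ ({i // ¬ h.P i} ⊕ ({i // h.P i} ⊕ {i // h.P i}))) : ℝ)
      = 1 + Fintype.card ι := by
    simp only [Fintype.card_sum, Fintype.card_unit, e1, e2]
    push_cast
    ring
  rw [hcard] at hdU
  rw [gE_eq]
  simp only [finrank_bot, Nat.cast_zero, zero_mul, sub_zero, add_zero] at hfl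
  linarith

end H78NE
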