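import Pool.Agent.Helper78.NW.Root

/-!
# Root step, decision version and pushdown version with a general factor `f` and a general last term `E`

`f`: the number of the letters of the last row is at most `f` times the number of those which some computation
does not read.
-/

namespace Pool.Agent.Helper78.NE

open Finset Pool.Agent.Helper74.NW Pool.Agent.Helper19.NF Pool.Agent.Helper78.NW

section general

variable {U D B : Type} [Fintype U] [Fintype D] [AddCommGroup B] {S : ℕ}

/-- double counting -/
theorem dbl {V : Type} [Fintype V] {α : Type} (X : Finset α) (M : α → V → Prop) [∀ I v, Decidable (M I v)] (N f : ℕ)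
    (hM : ∀ I ∈ X, N ≤ f * (univ.filter (fun v => M I v)).card) :
    N * X.card ≤ f * ∑ v : V, (X.filter (fun I => M I v)).card := by
  have : ∑ v : V, (X.filter (fun I => M I v)).card
      = ∑ I ∈ X, (univ.filter (fun v => M I v)).card := by
    simp_rw [Finset.card_filter]
    rw [Finset.sum_comm]
  rw [this, Finset.mul_sum, mul_comm, ← smul_eq_mul]
  exact Finset.card_nsmul_le_sum X _ N hM

/-- root step, general -/
theorem root_gen [Fintype B] (P : NProg B (D → B) B S) (g : D → Equiv.Perm U) (x0 : U → B)
    {R p f : ℕ} (c : D) (hU : 1 ≤ Fintype.card U) (φ : B → B) (hφ : ∀ y, Nat.card {x // φ x = y} ≤ p)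
    (X : Finset (B → D → B)) (hX : ∀ I ∈ X, CF g x0 R I ∧ (∀ l z, P.Ends I l z → z = φ (res g x0 R c I)))
    [∀ I v, Decidable (miss P g x0 R I v)]
    (hM : ∀ I ∈ X, Fintype.card U ≤ f * (univ.filter (fun v => miss P g x0 R I v)).card) :
    X.card * Fintype.card B ≤ f * p * Nat.card (B → D → B) := by
  classical
  rw [Nat.card_eq_fintype_card]
  have h1 : ∀ v : U, (X.filter (fun I => miss P g x0 R I v)).card * Fintype.card B ≤
      p * Fintype.card (B → D → B) := by
    intro v
    have h2 := fib (g := g) (x0 := x0) (R := R) c v
      ((X.filter (fun I => miss P g x0 R I v)) ×ˢ (univ : Finset B))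
      (by
        intro x hx
        exact (hX _ (Finset.mem_filter.mp (Finset.mem_product.mp hx).1).1).1)
      univ (fun _ _ => Finset.mem_univ _) p
      (by
        intro J
        by_cases hJ : ∃ x ∈ (X.filter (fun I => miss P g x0 R I v)) ×ˢ (univ : Finset B),
            sh g x0 R c v x = J
        · obtain ⟨x, hx, hxJ⟩ := hJ
          have hx1 := Finset.mem_filter.mp (Finset.mem_product.mp hx).1
          obtain ⟨l, b, ⟨t, hr, ht⟩, hl⟩ := hx1.2
          have hxX := hX _ hx1.1
          refine ⟨univ.filter (fun c' => φ c' = φ (res g x0 R c x.1)), ?_, ?_⟩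
          · have := hφ (φ (res g x0 R c x.1))
            rw [nc] at this
            exact this
          · intro y hy hyJ
            have hy1 := Finset.mem_filter.mp (Finset.mem_product.mp hy).1
            have hyX := hX _ hy1.1
            rw [Finset.mem_filter]
            refine ⟨Finset.mem_univ _, ?_⟩
            have e4 : val g x0 x.1 R v = val g x0 y.1 R v := by
              rw [← sh_val c v x hxX.1 v, ← sh_val c v y hyX.1 v, hxJ, hyJ]
            have hrun : P.Ends y.1 l b := by
              refine ⟨t, run_congr hr ?_, ht⟩
              intro b' hb'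
              have hne : b' ≠ val g x0 x.1 R v := by
                intro e
                rw [e] at hb'
                exact hl hb'
              have f1 := sh_off c v x b' hne
              have f2 := sh_off c v y b' (by rw [← e4]; exact hne)
              rw [hxJ] at f1
              rw [hyJ] at f2
              exact f1.symm.trans f2
            rw [← hyX.2 l b hrun, ← hxX.2 l b ⟨t, hr, ht⟩]
        · refine ⟨∅, by simp, ?_⟩
          intro x hx hxJ
          exact absurd ⟨x, hx, hxJ⟩ hJ)
    rw [Finset.card_product, Finset.card_univ, Finset.card_univ] at h2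
    exact h2
  have h3 := dbl X (fun I v => miss P g x0 R I v) (Fintype.card U) f hM
  have h4 : (∑ v : U, (X.filter (fun I => miss P g x0 R I v)).card) * Fintype.card B ≤
      Fintype.card U * (p * Fintype.card (B → D → B)) := by
    rw [Finset.sum_mul]
    refine (Finset.sum_le_sum (fun v _ => h1 v)).trans ?_
    simp
  have h5 : Fintype.card U * (X.card * Fintype.card B) ≤
      Fintype.card U * (f * p * Fintype.card (B → D → B)) := by
    calc Fintype.card U * (X.card * Fintype.card B) = Fintype.card U * X.card * Fintype.card B := by ring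
      _ ≤ f * (∑ v : U, (X.filter (fun I => miss P g x0 R I v)).card) * Fintype.card B :=
        Nat.mul_le_mul_right _ h3
      _ = f * ((∑ v : U, (X.filter (fun I => miss P g x0 R I v)).card) * Fintype.card B) := by
        ring
      _ ≤ f * (Fintype.card U * (p * Fintype.card (B → D → B))) := Nat.mul_le_mul_left _ h4
      _ = Fintype.card U * (f * p * Fintype.card (B → D → B)) := by ring
  exact Nat.le_of_mul_le_mul_left h5 hU

/-- root step of the decision version, general -/
theorem root_gen' [Fintype B] (P : NProg B (D → B) B S) (g : D → Equiv.Perm U) (x0 : U → B)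
    {R f : ℕ} (c : D) (hU : 1 ≤ Fintype.card U) (Y : Finset B)
    (X : Finset (B → D → B)) (hX : ∀ I ∈ X, CF g x0 R I ∧ res g x0 R c I ∈ Y)
    [∀ I v, Decidable (miss P g x0 R I v)]
    (hM : ∀ I ∈ X, Fintype.card U ≤ f * (univ.filter (fun v => miss P g x0 R I v)).card)
    (W : Finset (B → D → B)) (hWm : ∀ I, res g x0 R c I ∉ Y → (∃ l z, P.Ends I l z) → I ∈ W) :
    X.card * (Fintype.card B - Y.card) ≤ f * Y.card * W.card := by
  classical
  have h1 : ∀ v : U, (X.filter (fun I => miss P g x0 R I v)).card * (Fintype.card B - Y.card) ≤
      Y.card * W.card := by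
    intro v
    set G : Finset ((B → D → B) × B) :=
      ((X.filter (fun I => miss P g x0 R I v)) ×ˢ (univ : Finset B)).filter
        (fun x => res g x0 R c x.1 + x.2 ∉ Y) with hG
    have hGm : ∀ x ∈ G, x.1 ∈ X ∧ miss P g x0 R x.1 v ∧ res g x0 R c x.1 + x.2 ∉ Y := by
      intro x hx
      have hx1 := Finset.mem_filter.mp hx
      have hx2 := Finset.mem_filter.mp (Finset.mem_product.mp hx1.1).1
      exact ⟨hx2.1, hx2.2, hx1.2⟩
    have h2 := fib (g := g) (x0 := x0) (R := R) c v G
      (fun x hx => (hX _ (hGm x hx).1).1) W
      (by
        intro x hx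
        obtain ⟨hxX, ⟨l, b, ⟨t, hr, ht⟩, hl⟩, hxY⟩ := hGm x hx
        have hCF := (hX _ hxX).1
        apply hWm
        · rw [sh_res c v x hCF]; exact hxY
        · refine ⟨l, b, t, ?_, ht⟩
          apply run_congr hr
          intro b' hb'
          rw [sh_off]
          intro e
          rw [e] at hb'
          exact hl hb') Y.card
      (by
        intro J
        exact ⟨Y, le_rfl, fun x hx _ => (hX _ (hGm x hx).1).2⟩)
    refine le_trans ?_ h2
    have h3 : G.card = ∑ I ∈ X.filter (fun I => miss P g x0 R I v),
        (univ.filter (fun y => res g x0 R c I + y ∉ Y)).card := by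
      rw [hG, Finset.card_filter, Finset.sum_product]
      refine Finset.sum_congr rfl fun I _ => ?_
      rw [Finset.card_filter]
    rw [h3, ← smul_eq_mul]
    apply Finset.card_nsmul_le_sum
    intro I _
    have h4 : (univ.filter (fun y => res g x0 R c I + y ∉ Y)).card = (univ.filter (fun y => y ∉ Y)).card := by
      apply Finset.card_bij (fun y _ => res g x0 R c I + y)
      · intro y hy
        rw [Finset.mem_filter] at hy ⊢
        exact ⟨Finset.mem_univ _, hy.2⟩
      · intro y _ y' _ e
        exact add_left_cancel e
      · intro z hz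
        refine ⟨z - res g x0 R c I, ?_, by abel⟩
        rw [Finset.mem_filter] at hz ⊢
        refine ⟨Finset.mem_univ _, ?_⟩
        rw [add_sub_cancel]
        exact hz.2
    rw [h4]
    have h5 : univ.filter (fun y => y ∉ Y) = Yᶜ := by
      ext y; simp
    rw [h5, Finset.card_compl]
  have h3 := dbl X (fun I v => miss P g x0 R I v) (Fintype.card U) f hM
  have h4 : (∑ v : U, (X.filter (fun I => miss P g x0 R I v)).card) * (Fintype.card B - Y.card) ≤
      Fintype.card U * (Y.card * W.card) := by
    rw [Finset.sum_mul]
    refine (Finset.sum_le_sum (fun v _ => h1 v)).trans ?_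
    simp
  have h5 : Fintype.card U * (X.card * (Fintype.card B - Y.card)) ≤ Fintype.card U * (f * Y.card * W.card) := by
    calc Fintype.card U * (X.card * (Fintype.card B - Y.card))
        = Fintype.card U * X.card * (Fintype.card B - Y.card) := by ring
      _ ≤ f * (∑ v : U, (X.filter (fun I => miss P g x0 R I v)).card) * (Fintype.card B - Y.card) :=
        Nat.mul_le_mul_right _ h3
      _ = f * ((∑ v : U, (X.filter (fun I => miss P g x0 R I v)).card) * (Fintype.card B - Y.card)) := by
        ring
      _ ≤ f * (Fintype.card U * (Y.card * W.card)) := Nat.mul_le_mul_left _ h4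
      _ = Fintype.card U * (f * Y.card * W.card) := by ring
  exact Nat.le_of_mul_le_mul_left h5 hU

end general

end Pool.Agent.Helper78.NE
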