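import Pool.Agent.Helper78.NE.Spectral

set_option linter.unusedSectionVars false

namespace H78NE

open Matrix Finset

section basic

variable {V : Type*} [Fintype V]

open Classical in
/-- Adjacency matrix (classical decidability). -/
noncomputable def adj (G : SimpleGraph V) : Matrix V V ℝ := G.adjMatrix ℝ

open Classical in
lemma adj_apply (G : SimpleGraph V) (a b : V) : adj G a b = if G.Adj a b then 1 else 0 := by
  unfold adj
  rw [SimpleGraph.adjMatrix_apply]

lemma adj_one {G : SimpleGraph V} {a b : V} (h : G.Adj a b) : adj G a b = 1 := by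
  rw [adj_apply, if_pos h]

lemma adj_zero {G : SimpleGraph V} {a b : V} (h : ¬ G.Adj a b) : adj G a b = 0 := by
  rw [adj_apply, if_neg h]

lemma adj_herm (G : SimpleGraph V) : (adj G).IsHermitian := by
  classical
  unfold adj
  exact G.isHermitian_adjMatrix ℝ

open Classical in
/-- Sum of the values of a function at the eigenvalues of a graph. -/
noncomputable def gE (φ : ℝ → ℝ) (G : SimpleGraph V) : ℝ := phiE φ (adj_herm G)

lemma gE_eq [inst : DecidableEq V] (φ : ℝ → ℝ) (G : SimpleGraph V) :
    gE φ G = phiE φ (adj_herm G) := by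
  unfold gE
  rw [Subsingleton.elim (fun a b => Classical.propDecidable (a = b)) inst]

lemma adj_trace (G : SimpleGraph V) : (adj G).trace = 0 := by
  unfold Matrix.trace
  apply Finset.sum_eq_zero
  intro a _
  rw [Matrix.diag_apply, adj_zero (G.loopless.irrefl a)]

end basic

section top

variable {V : Type*} [Fintype V] [DecidableEq V]

lemma sum_eig (G : SimpleGraph V) : ∑ i, (adj_herm G).eigenvalues i = 0 := by
  have h := (adj_herm G).trace_eq_sum_eigenvalues
  rw [adj_trace] at h
  simpa using h.symm

lemma eig_apply (G : SimpleGraph V) (i a : V) :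
    ∑ b, adj G a b * (adj_herm G).eigenvectorBasis i b
      = (adj_herm G).eigenvalues i * (adj_herm G).eigenvectorBasis i a := by
  have h := (adj_herm G).mulVec_eigenvectorBasis i
  have h2 := congrFun h a
  simp only [Matrix.mulVec, dotProduct, Pi.smul_apply, smul_eq_mul] at h2
  exact h2

lemma top_eig (i : V) : (adj_herm (⊤ : SimpleGraph V)).eigenvalues i = -1 ∨
    (adj_herm (⊤ : SimpleGraph V)).eigenvalues i = (Fintype.card V : ℝ) - 1 := by
  set l := (adj_herm (⊤ : SimpleGraph V)).eigenvalues i with hl
  set u := (adj_herm (⊤ : SimpleGraph V)).eigenvectorBasis i with hu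
  set s := ∑ b, u b with hs
  have h1 : ∀ a, l * u a + u a = s := by
    intro a
    rw [hl, hu, ← eig_apply, ← hu, hs]
    have : ∀ b, adj (⊤ : SimpleGraph V) a b * u b = u b - if a = b then u b else 0 := by
      intro b
      by_cases hab : a = b
      · subst hab
        rw [adj_zero (by simp)]
        simp
      · rw [adj_one (by simpa using hab), if_neg hab]
        ring
    simp only [this]
    rw [Finset.sum_sub_distrib, Finset.sum_ite_eq]
    simp
  by_cases hs0 : s = 0
  · left
    have hne : ∃ a, u a ≠ 0 := by
      by_contra hcon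
      push Not at hcon
      have hn : ‖u‖ ^ 2 = 0 := by
        rw [norm_sq_sum]
        apply Finset.sum_eq_zero
        intro a _
        rw [hcon a]; ring
      rw [hu, ((adj_herm (⊤ : SimpleGraph V)).eigenvectorBasis).orthonormal.1 i] at hn
      norm_num at hn
    obtain ⟨a, ha⟩ := hne
    have h := h1 a
    rw [hs0] at h
    have h2 : (l + 1) * u a = 0 := by linarith
    rcases mul_eq_zero.1 h2 with h3 | h3
    · linarith
    · exact absurd h3 ha
  · right
    have h2 : ∑ a, (l * u a + u a) = ∑ a : V, s := Finset.sum_congr rfl (fun a _ => h1 a)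
    rw [Finset.sum_add_distrib, ← Finset.mul_sum, ← hs, Finset.sum_const, Finset.card_univ,
      nsmul_eq_mul] at h2
    have h3 : (l + 1 - (Fintype.card V : ℝ)) * s = 0 := by linarith
    rcases mul_eq_zero.1 h3 with h4 | h4
    · linarith
    · exact absurd h4 hs0

lemma top_sum [Nonempty V] (φ : ℝ → ℝ) (h1 : φ (-1) = 1) (h2 : φ ((Fintype.card V : ℝ) - 1) = 0) :
    ∑ i, φ ((adj_herm (⊤ : SimpleGraph V)).eigenvalues i) = (Fintype.card V : ℝ) - 1 := by
  set n : ℝ := (Fintype.card V : ℝ) with hn
  have hnpos : 0 < n := by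
    rw [hn]; exact_mod_cast Fintype.card_pos
  have key : ∀ i, n * φ ((adj_herm (⊤ : SimpleGraph V)).eigenvalues i)
      = (n - 1) - (adj_herm (⊤ : SimpleGraph V)).eigenvalues i := by
    intro i
    rcases top_eig i with h | h
    · rw [h, h1]; ring
    · rw [h, ← hn, h2]; ring
  have hsum : n * ∑ i, φ ((adj_herm (⊤ : SimpleGraph V)).eigenvalues i) = n * (n - 1) := by
    rw [Finset.mul_sum]
    simp only [key]
    rw [Finset.sum_sub_distrib, sum_eig, Finset.sum_const, Finset.card_univ, nsmul_eq_mul,
      sub_zero]
  exact mul_left_cancel₀ hnpos.ne' hsum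

lemma gE_top [Nonempty V] {φ : ℝ → ℝ} (hφ : Good φ) : gE φ (⊤ : SimpleGraph V) = (Fintype.card V : ℝ) - 1 := by
  classical
  rw [gE_eq]
  unfold phiE
  apply top_sum
  · exact hφ.one
  · have : (1:ℝ) ≤ (Fintype.card V : ℝ) := by exact_mod_cast Fintype.card_pos
    exact hφ.zero _ (by linarith)

lemma card_neg_le [Nonempty V] (G : SimpleGraph V) :
    ((Finset.univ.filter (fun i => (adj_herm G).eigenvalues i < 0)).card : ℝ)
      ≤ (Fintype.card V : ℝ) - 1 := by
  have hlt : (Finset.univ.filter (fun i => (adj_herm G).eigenvalues i < 0)).card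
      < Fintype.card V := by
    rw [← Finset.card_univ]
    apply Finset.card_lt_card
    rw [Finset.ssubset_iff_subset_ne]
    refine ⟨Finset.filter_subset _ _, ?_⟩
    intro h
    have hall : ∀ i, (adj_herm G).eigenvalues i < 0 := by
      intro i
      have : i ∈ (Finset.univ.filter (fun i => (adj_herm G).eigenvalues i < 0)) := by
        rw [h]; exact Finset.mem_univ i
      simpa using this
    have hs := sum_eig G
    have : ∑ i, (adj_herm G).eigenvalues i < 0 :=
      Finset.sum_neg (fun i _ => hall i) Finset.univ_nonempty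
    linarith
  have : (Finset.univ.filter (fun i => (adj_herm G).eigenvalues i < 0)).card + 1
      ≤ Fintype.card V := hlt
  have h2 : (((Finset.univ.filter (fun i => (adj_herm G).eigenvalues i < 0)).card + 1 : ℕ) : ℝ)
      ≤ (Fintype.card V : ℝ) := by exact_mod_cast this
  push_cast at h2
  linarith

end top

section penergy

variable {V : Type*} [Fintype V]

open Classical in
/-- The negative p-energy of a finite simple graph: the sum of the p-th powers of the absolute
values of the negative eigenvalues of its adjacency matrix, counted with multiplicity. -/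
noncomputable def negEnergy (p : ℝ) (G : SimpleGraph V) : ℝ :=
  ∑ i, if (G.isHermitian_adjMatrix ℝ).eigenvalues i < 0
    then |(G.isHermitian_adjMatrix ℝ).eigenvalues i| ^ p else 0

lemma negEnergy_eq [inst : DecidableEq V] (p : ℝ) (G : SimpleGraph V) :
    negEnergy p G = ∑ i, if (adj_herm G).eigenvalues i < 0
      then |(adj_herm G).eigenvalues i| ^ p else 0 := by
  unfold negEnergy adj
  rw [Subsingleton.elim (fun a b => Classical.propDecidable (a = b)) inst]

lemma negEnergy_top [Nonempty V] (p : ℝ) :
    negEnergy p (⊤ : SimpleGraph V) = (Fintype.card V : ℝ) - 1 := by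
  classical
  rw [negEnergy_eq]
  apply top_sum (fun t => if t < 0 then |t| ^ p else 0)
  · norm_num
  · have : (1:ℝ) ≤ (Fintype.card V : ℝ) := by exact_mod_cast Fintype.card_pos
    rw [if_neg (by linarith)]

lemma gE_le_negEnergy [Nonempty V] (G : SimpleGraph V) {p : ℝ} (hp : 3 ≤ p)
    (h : (Fintype.card V : ℝ) - 1 ≤ gE cub G) : gE cub G ≤ negEnergy p G := by
  classical
  have hr := card_neg_le G
  set r : ℝ := ((Finset.univ.filter (fun i => (adj_herm G).eigenvalues i < 0)).card : ℝ) with hrdef
  have key : ∀ i, (if (adj_herm G).eigenvalues i < 0 then (1:ℝ) else 0)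
      + (p / 3) * (cub ((adj_herm G).eigenvalues i)
        - (if (adj_herm G).eigenvalues i < 0 then (1:ℝ) else 0))
      ≤ if (adj_herm G).eigenvalues i < 0 then |(adj_herm G).eigenvalues i| ^ p else 0 := by
    intro i
    by_cases hi : (adj_herm G).eigenvalues i < 0
    · rw [if_pos hi, if_pos hi]
      set t := |(adj_herm G).eigenvalues i| with ht
      have ht0 : 0 ≤ t := abs_nonneg _
      have hcub : cub ((adj_herm G).eigenvalues i) = t ^ 3 := by
        rw [ht, abs_of_neg hi]
        unfold cub
        rw [max_eq_left (by linarith)]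
      rw [hcub]
      have hb := one_add_mul_self_le_rpow_one_add (s := t ^ 3 - 1)
        (by have : 0 ≤ t ^ 3 := by positivity
            linarith) (p := p / 3) (by linarith)
      have he : (1 + (t ^ 3 - 1)) ^ (p / 3) = t ^ p := by
        rw [show (1 + (t ^ 3 - 1)) = t ^ (3:ℝ) by
          rw [show (3:ℝ) = ((3:ℕ):ℝ) by norm_num, Real.rpow_natCast]; ring]
        rw [← Real.rpow_mul ht0]
        congr 1
        ring
      rw [he] at hb
      exact hb
    · rw [if_neg hi, if_neg hi]
      have hcub : cub ((adj_herm G).eigenvalues i) = 0 := by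
        unfold cub
        rw [max_eq_right (by linarith)]
        norm_num
      rw [hcub]
      norm_num
  have hsum := Finset.sum_le_sum (fun i (_ : i ∈ (Finset.univ : Finset V)) => key i)
  rw [Finset.sum_add_distrib, ← Finset.mul_sum, Finset.sum_sub_distrib] at hsum
  rw [negEnergy_eq]
  have hcard : ∑ i, (if (adj_herm G).eigenvalues i < 0 then (1:ℝ) else 0) = r := by
    rw [Finset.sum_boole, hrdef]
  rw [hcard] at hsum
  have hg : ∑ i, cub ((adj_herm G).eigenvalues i) = gE cub G := by
    rw [gE_eq]; rfl
  rw [hg] at hsum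
  have h3 : gE cub G - r ≤ (p / 3) * (gE cub G - r) := by
    have : 0 ≤ gE cub G - r := by linarith
    nlinarith
  linarith

end penergy

end H78NE
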