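import Pool.Agent.Helper78.NE.Graph

set_option linter.unusedSectionVars false

namespace H78NE

open Matrix Finset

variable {V : Type*} [Fintype V] [DecidableEq V] {ι : Type*} [Fintype ι] [DecidableEq ι]

/-- A vertex all of whose remaining components are complete graphs or paths on three vertices. -/
structure Hub (G : SimpleGraph V) (w : V) (ι : Type*) where
  c : V → ι
  P : ι → Prop
  p : ι → V
  q : ι → V
  s : ι → V
  hc : ∀ u v, u ≠ w → v ≠ w → G.Adj u v → c u = c v
  hn : ∀ i, ∃ u, u ≠ w ∧ c u = i ∧ G.Adj w u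
  hK : ∀ i, ¬ P i → ∀ u v, u ≠ w → v ≠ w → u ≠ v → c u = i → c v = i → G.Adj u v
  hpw : ∀ i, P i → p i ≠ w
  hqw : ∀ i, P i → q i ≠ w
  hsw : ∀ i, P i → s i ≠ w
  hpq : ∀ i, P i → p i ≠ q i
  hqs : ∀ i, P i → q i ≠ s i
  hps : ∀ i, P i → p i ≠ s i
  cp : ∀ i, P i → c (p i) = i
  cq : ∀ i, P i → c (q i) = i
  cs : ∀ i, P i → c (s i) = i
  apq : ∀ i, P i → G.Adj (p i) (q i)
  aqs : ∀ i, P i → G.Adj (q i) (s i)
  aps : ∀ i, P i → ¬ G.Adj (p i) (s i)
  hall : ∀ i, P i → ∀ u, u ≠ w → c u = i → u = p i ∨ u = q i ∨ u = s i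

/-- Conditions defining the space of test vectors. -/
structure InU {G : SimpleGraph V} {w : V} (h : Hub G w ι) (v : EuclideanSpace ℝ V) : Prop where
  hw : v w = 0
  hK : ∀ i, ¬ h.P i → ∑ u, (if u ≠ w ∧ h.c u = i then v u else 0) = 0
  hP1 : ∀ i, h.P i → v (h.p i) = v (h.s i)
  hP2 : ∀ i, h.P i → v (h.q i) = -√2 * v (h.p i)

open Classical in
/-- The local weight. -/
noncomputable def kap {G : SimpleGraph V} {w : V} (h : Hub G w ι) (u : V) : ℝ :=
  if h.P (h.c u) then √2 else 1

lemma nbr_sum {G : SimpleGraph V} {w : V} (h : Hub G w ι) {v : EuclideanSpace ℝ V}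
    (hv : InU h v) (u : V) (hu : u ≠ w) :
    ∑ b, adj G u b * v b = -(kap h u) * v u := by
  classical
  by_cases hP : h.P (h.c u)
  · set i := h.c u with hi
    have hkap : kap h u = √2 := by unfold kap; rw [if_pos (hi ▸ hP)]
    have h2 : √2 * √2 = 2 := Real.mul_self_sqrt (by norm_num)
    rw [hkap]
    have hout : ∀ b, b ≠ h.p i → b ≠ h.q i → b ≠ h.s i → adj G u b * v b = 0 := by
      intro b hbp hbq hbs
      by_cases hbw : b = w
      · rw [hbw, hv.hw, mul_zero]
      · rw [adj_zero, zero_mul]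
        intro hadj
        have hcb : h.c b = i := (h.hc u b hu hbw hadj).symm
        rcases h.hall i hP b hbw hcb with hb | hb | hb
        · exact hbp hb
        · exact hbq hb
        · exact hbs hb
    have hall := h.hall i hP u hu hi.symm
    have hsum : ∑ b, adj G u b * v b = adj G u (h.p i) * v (h.p i)
        + adj G u (h.q i) * v (h.q i) + adj G u (h.s i) * v (h.s i) := by
      rw [← Finset.sum_subset (Finset.subset_univ {h.p i, h.q i, h.s i})]
      · rw [Finset.sum_insert, Finset.sum_insert, Finset.sum_singleton]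
        · ring
        · simp only [Finset.mem_singleton]; exact h.hqs i hP
        · simp only [Finset.mem_insert, Finset.mem_singleton, not_or]
          exact ⟨h.hpq i hP, h.hps i hP⟩
      · intro b _ hb
        simp only [Finset.mem_insert, Finset.mem_singleton, not_or] at hb
        exact hout b hb.1 hb.2.1 hb.2.2
    rw [hsum]
    have h1 := hv.hP1 i hP
    have h3 := hv.hP2 i hP
    rcases hall with hb | hb | hb
    · rw [hb, adj_zero (G.loopless.irrefl _), adj_one (h.apq i hP), adj_zero (h.aps i hP), h3]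
      ring
    · rw [hb, adj_one (h.apq i hP).symm, adj_zero (G.loopless.irrefl _), adj_one (h.aqs i hP), ← h1,
        h3]
      linear_combination (-v.ofLp (h.p i)) * h2
    · rw [hb, adj_zero (fun h' => h.aps i hP h'.symm), adj_one (h.aqs i hP).symm,
        adj_zero (G.loopless.irrefl _), h3, h1]
      ring
  · set i := h.c u with hi
    have hkap : kap h u = 1 := by unfold kap; rw [if_neg (hi ▸ hP)]
    rw [hkap]
    have hterm : ∀ b, adj G u b * v b
        = (if b ≠ w ∧ h.c b = i then v b else 0) - (if b = u then v b else 0) := by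
      intro b
      by_cases hbw : b = w
      · subst hbw
        rw [hv.hw, mul_zero, if_neg (by tauto), if_neg (fun h' => hu h'.symm), sub_zero]
      · by_cases hbu : b = u
        · subst hbu
          rw [adj_zero (G.loopless.irrefl _), if_pos ⟨hbw, hi.symm⟩, if_pos rfl]
          ring
        · rw [if_neg hbu, sub_zero]
          by_cases hcb : h.c b = i
          · rw [if_pos ⟨hbw, hcb⟩, adj_one (h.hK i hP u b hu hbw (fun h' => hbu h'.symm) hi.symm hcb),
              one_mul]
          · rw [if_neg (by tauto), adj_zero, zero_mul]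
            intro hadj
            exact hcb (h.hc u b hu hbw hadj).symm
    simp only [hterm]
    rw [Finset.sum_sub_distrib, hv.hK i hP, Finset.sum_ite_eq']
    simp

lemma Q_InU {G : SimpleGraph V} {w : V} (h : Hub G w ι) {v : EuclideanSpace ℝ V}
    (hv : InU h v) : Q (adj G) v = -∑ u, kap h u * v u ^ 2 := by
  unfold Q
  rw [← Finset.sum_neg_distrib]
  apply Finset.sum_congr rfl
  intro u _
  have h1 : ∑ b, adj G u b * v u * v b = v u * ∑ b, adj G u b * v b := by
    rw [Finset.mul_sum]
    apply Finset.sum_congr rfl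
    intro b _
    ring
  rw [h1]
  by_cases hu : u = w
  · subst hu
    rw [hv.hw]; ring
  · rw [nbr_sum h hv u hu]; ring

lemma one_le_sqrt2 : (1:ℝ) ≤ √2 := by
  rw [show (1:ℝ) = √1 by simp]
  exact Real.sqrt_le_sqrt (by norm_num)

lemma kap_ge {G : SimpleGraph V} {w : V} (h : Hub G w ι) (u : V) : 1 ≤ kap h u := by
  unfold kap
  split_ifs
  · exact one_le_sqrt2
  · exact le_rfl

lemma Q_InU_le {G : SimpleGraph V} {w : V} (h : Hub G w ι) {v : EuclideanSpace ℝ V}
    (hv : InU h v) : Q (adj G) v ≤ -‖v‖ ^ 2 := by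
  rw [Q_InU h hv, norm_sq_sum]
  apply neg_le_neg
  apply Finset.sum_le_sum
  intro u _
  nlinarith [kap_ge h u, sq_nonneg (v u)]

lemma Q_InW_le {G : SimpleGraph V} {w : V} (h : Hub G w ι) {v : EuclideanSpace ℝ V}
    (hv : InU h v) (hv2 : ∀ u, ¬ h.P (h.c u) → v u = 0) : Q (adj G) v ≤ -√2 * ‖v‖ ^ 2 := by
  rw [Q_InU h hv, norm_sq_sum, neg_mul, Finset.mul_sum]
  apply neg_le_neg
  apply Finset.sum_le_sum
  intro u _
  by_cases hP : h.P (h.c u)
  · unfold kap; rw [if_pos hP]
  · rw [hv2 u hP]; simp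

/-- Evaluation functional. -/
noncomputable def ev (x : V) : EuclideanSpace ℝ V →ₗ[ℝ] ℝ where
  toFun v := v x
  map_add' _ _ := rfl
  map_smul' _ _ := rfl

@[simp] lemma ev_apply (x : V) (v : EuclideanSpace ℝ V) : ev x v = v x := rfl

lemma finrank_ker {κ : Type*} [Fintype κ] (F : κ → (EuclideanSpace ℝ V →ₗ[ℝ] ℝ)) :
    (Fintype.card V : ℝ) ≤ (Module.finrank ℝ (LinearMap.ker (LinearMap.pi F)) : ℝ)
      + Fintype.card κ := by
  have h1 := LinearMap.finrank_range_add_finrank_ker (LinearMap.pi F)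
  have h2 : Module.finrank ℝ (LinearMap.range (LinearMap.pi F)) ≤ Fintype.card κ := by
    have := Submodule.finrank_le (LinearMap.range (LinearMap.pi F))
    rwa [Module.finrank_fintype_fun_eq_card] at this
  rw [finrank_euclideanSpace] at h1
  have h3 : Fintype.card V ≤ Module.finrank ℝ (LinearMap.ker (LinearMap.pi F))
      + Fintype.card κ := by omega
  exact_mod_cast h3

end H78NE
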