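import Pool.Agent.Helper92.NE.Defs

/-!
# The two party lemma by iteration of one step
-/

namespace Pool.Agent.Helper78.NE

open Finset Pool.Agent.Helper92.NE

variable {ι B : Type} [Fintype ι] [DecidableEq ι] [Fintype B] [DecidableEq B]

theorem ms_le_sz (G : Finset ((ι → B) × (ι → B))) (Λ : Finset ι) (A A' : Finset (ι → B)) :
    ms G Λ A A' ≤ sz Λ A A' := by
  unfold ms sz
  apply div_le_div_of_nonneg_right _ (by positivity)
  have h : (G.filter (fun p => p.1 ∈ A ∧ p.2 ∈ A')).card ≤ (A ×ˢ A').card := by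
    apply Finset.card_le_card
    intro p hp
    rw [Finset.mem_filter] at hp
    exact Finset.mem_product.mpr hp.2
  rw [Finset.card_product] at h
  exact_mod_cast h

theorem sz_nonneg (Λ : Finset ι) (A A' : Finset (ι → B)) : 0 ≤ sz Λ A A' := by
  unfold sz
  positivity

/-- the potential does not decrease -/
theorem pot_step {C : ℕ} (hC : 1 ≤ C) {c δ s g s1 m1 : ℝ} (hc : 0 ≤ c) (hδ : 0 < δ) (hs : 0 < s) (hg : 0 < g)
    (hs1 : 0 < s1) (hCc : 1 ≤ (1 + c) ^ (C - 1) * δ)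
    (h : (1 + c) * g * s1 + δ * (g * s) ≤ m1) :
    (1 + c) * g ≤ m1 / s1 ∧ s * g ^ C ≤ s1 * (m1 / s1) ^ C := by
  have h1 : (1 + c) * g + δ * g * (s / s1) ≤ m1 / s1 := by
    rw [le_div_iff₀ hs1]
    have : ((1 + c) * g + δ * g * (s / s1)) * s1 = (1 + c) * g * s1 + δ * (g * s) := by
      field_simp
    rw [this]
    exact h
  have h2 : 0 < δ * g * (s / s1) := by positivity
  refine ⟨by linarith, ?_⟩
  obtain ⟨D, rfl⟩ : ∃ D, C = D + 1 := ⟨C - 1, by omega⟩
  rw [Nat.add_sub_cancel] at hCc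
  have h3 : ((1 + c) * g) ^ D * (δ * g * (s / s1)) ≤ (m1 / s1) ^ (D + 1) := by
    rw [pow_succ]
    have e1 : ((1 + c) * g) ^ D ≤ (m1 / s1) ^ D := by
      apply pow_le_pow_left₀ (by positivity)
      linarith
    have e2 : δ * g * (s / s1) ≤ m1 / s1 := by
      have : 0 < (1 + c) * g := by positivity
      linarith
    exact mul_le_mul e1 e2 h2.le (by
      have : 0 < m1 / s1 := by linarith
      positivity)
  calc s * g ^ (D + 1) = 1 * (s * g ^ (D + 1)) := by ring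
    _ ≤ ((1 + c) ^ D * δ) * (s * g ^ (D + 1)) := mul_le_mul_of_nonneg_right hCc (by positivity)
    _ = s1 * (((1 + c) * g) ^ D * (δ * g * (s / s1))) := by
      rw [mul_pow, pow_succ]
      field_simp
    _ ≤ s1 * (m1 / s1) ^ (D + 1) := mul_le_mul_of_nonneg_left h3 hs1.le

/-- the iteration -/
theorem iter (G : Finset ((ι → B) × (ι → B))) (ε : ℝ) (hε : 0 < ε)
    (hstep : ∀ (Λ : Finset ι) (A A' : Finset (ι → B)), Fixed Λ A → Fixed Λ A' →
      0 < ms G Λ A A' → Real.exp (-(Λ.card / 212)) ≤ ε / 4 * sz Λ A A' →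
      ∃ (Λ1 : Finset ι) (A1 A1' : Finset (ι → B)), Fixed Λ1 A1 ∧ Fixed Λ1 A1' ∧ Λ.card ≤ Λ1.card + 1 ∧
      (1 + 3 * ε / 256) * (ms G Λ A A' / sz Λ A A') * sz Λ1 A1 A1' + 3 * ε / 1024 * ms G Λ A A' ≤
        ms G Λ1 A1 A1')
    (hB : 0 < Fintype.card B) (C : ℕ) (hC : 1 ≤ C) (hCc : 1 ≤ (1 + 3 * ε / 256) ^ (C - 1) * (3 * ε / 1024))
    (g0 : ℝ) (hg0 : 0 < g0) (hG : g0 ≤ (G.card : ℝ) / (Fintype.card B : ℝ) ^ (2 * Fintype.card ι))
    (J : ℕ) (hJ : ∀ m : ℕ, Fintype.card ι ≤ m + J → Real.exp (-((m : ℝ) / 212)) ≤ ε / 4 * g0 ^ C) :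
    ∀ j ≤ J, ∃ (Λ : Finset ι) (A A' : Finset (ι → B)), Fixed Λ A ∧ Fixed Λ A' ∧ 0 < sz Λ A A' ∧
      Fintype.card ι ≤ Λ.card + j ∧ g0 * (1 + 3 * ε / 256) ^ j ≤ ms G Λ A A' / sz Λ A A' ∧
      g0 ^ C ≤ sz Λ A A' * (ms G Λ A A' / sz Λ A A') ^ C := by
  intro j
  induction j with
  | zero =>
    intro _
    have hBr : (0 : ℝ) < Fintype.card B := by exact_mod_cast hB
    have hsz : sz (univ : Finset ι) (univ : Finset (ι → B)) univ = 1 := by
      unfold sz
      rw [Finset.card_univ, Finset.card_univ, Fintype.card_fun, two_mul, pow_add]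
      push_cast
      exact div_self (by positivity)
    have hms : ms G (univ : Finset ι) (univ : Finset (ι → B)) univ =
        (G.card : ℝ) / (Fintype.card B : ℝ) ^ (2 * Fintype.card ι) := by
      unfold ms
      rw [Finset.card_univ]
      congr 2
      rw [Finset.filter_true_of_mem]
      intro p _
      exact ⟨Finset.mem_univ _, Finset.mem_univ _⟩
    refine ⟨univ, univ, univ, ?_, ?_, ?_, ?_, ?_, ?_⟩
    · rcases isEmpty_or_nonempty (ι → B) with h | ⟨⟨a⟩⟩
      · exfalso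
        have : Nonempty B := Fintype.card_pos_iff.mp hB
        exact h.false (fun _ => Classical.arbitrary B)
      · exact ⟨a, fun γ _ t ht => absurd (Finset.mem_univ t) ht⟩
    · rcases isEmpty_or_nonempty (ι → B) with h | ⟨⟨a⟩⟩
      · exfalso
        have : Nonempty B := Fintype.card_pos_iff.mp hB
        exact h.false (fun _ => Classical.arbitrary B)
      · exact ⟨a, fun γ _ t ht => absurd (Finset.mem_univ t) ht⟩
    · rw [hsz]; norm_num
    · rw [Finset.card_univ]; omega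
    · rw [hsz, hms, pow_zero, mul_one, div_one]
      exact hG
    · rw [hsz, hms, one_mul, div_one]
      exact pow_le_pow_left₀ hg0.le hG C
  | succ j ih =>
    intro hj
    obtain ⟨Λ, A, A', hA, hA', hs, hcard, hg, hpot⟩ := ih (by omega)
    have hc : (0 : ℝ) ≤ 3 * ε / 256 := by positivity
    have hgpos : 0 < ms G Λ A A' / sz Λ A A' := by
      refine lt_of_lt_of_le ?_ hg
      positivity
    have hmpos : 0 < ms G Λ A A' := by
      have := mul_pos hgpos hs
      rwa [div_mul_cancel₀ _ hs.ne'] at this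
    have hg1 : ms G Λ A A' / sz Λ A A' ≤ 1 := (div_le_one hs).mpr (ms_le_sz G Λ A A')
    have hs0 : g0 ^ C ≤ sz Λ A A' := by
      refine hpot.trans ?_
      have : (ms G Λ A A' / sz Λ A A') ^ C ≤ 1 := pow_le_one₀ hgpos.le hg1
      calc sz Λ A A' * (ms G Λ A A' / sz Λ A A') ^ C ≤ sz Λ A A' * 1 :=
            mul_le_mul_of_nonneg_left this hs.le
        _ = sz Λ A A' := mul_one _
    have hexp : Real.exp (-((Λ.card : ℝ) / 212)) ≤ ε / 4 * sz Λ A A' :=
      (hJ Λ.card (by omega)).trans (mul_le_mul_of_nonneg_left hs0 (by positivity))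
    obtain ⟨Λ1, A1, A1', h1, h2, h3, h4⟩ := hstep Λ A A' hA hA' hmpos hexp
    have hm1 : 0 < ms G Λ1 A1 A1' := by
      refine lt_of_lt_of_le ?_ h4
      have e1 : 0 ≤ (1 + 3 * ε / 256) * (ms G Λ A A' / sz Λ A A') * sz Λ1 A1 A1' := by
        have := sz_nonneg Λ1 A1 A1'
        positivity
      have e2 : 0 < 3 * ε / 1024 * ms G Λ A A' := by positivity
      linarith
    have hs1 : 0 < sz Λ1 A1 A1' := lt_of_lt_of_le hm1 (ms_le_sz G Λ1 A1 A1')
    have hms : ms G Λ A A' = ms G Λ A A' / sz Λ A A' * sz Λ A A' := (div_mul_cancel₀ _ hs.ne').symm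
    obtain ⟨p1, p2⟩ := pot_step (C := C) hC (c := 3 * ε / 256) (δ := 3 * ε / 1024) (s := sz Λ A A')
      (g := ms G Λ A A' / sz Λ A A') (s1 := sz Λ1 A1 A1') (m1 := ms G Λ1 A1 A1') hc (by positivity) hs hgpos hs1
      hCc (by rw [← hms]; exact h4)
    refine ⟨Λ1, A1, A1', h1, h2, hs1, by omega, ?_, hpot.trans p2⟩
    calc g0 * (1 + 3 * ε / 256) ^ (j + 1) = (1 + 3 * ε / 256) * (g0 * (1 + 3 * ε / 256) ^ j) := by ring
      _ ≤ (1 + 3 * ε / 256) * (ms G Λ A A' / sz Λ A A') := mul_le_mul_of_nonneg_left hg (by positivity)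
      _ ≤ ms G Λ1 A1 A1' / sz Λ1 A1 A1' := p1

/-- `log (1 + c) ≥ 0.9 c` -/
theorem log_c {c : ℝ} (hc : 0 ≤ c) (hc1 : c ≤ 3 / 256) (J : ℕ) :
    Real.exp (9 / 10 * c * J) ≤ (1 + c) ^ J := by
  have h1 : 2 * c / (c + 2) ≤ Real.log (1 + c) := Real.le_log_one_add_of_nonneg hc
  have h2 : 9 / 10 * c ≤ 2 * c / (c + 2) := by
    rw [le_div_iff₀ (by linarith)]
    nlinarith
  have h3 : Real.exp (9 / 10 * c) ≤ 1 + c := by
    calc Real.exp (9 / 10 * c) ≤ Real.exp (Real.log (1 + c)) := Real.exp_le_exp.mpr (h2.trans h1)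
      _ = 1 + c := Real.exp_log (by linarith)
  calc Real.exp (9 / 10 * c * J) = Real.exp (9 / 10 * c) ^ J := by
        rw [← Real.exp_nat_mul]
        congr 1
        ring
    _ ≤ (1 + c) ^ J := pow_le_pow_left₀ (Real.exp_pos _).le h3 J

/-- E3, from one step -/
theorem two_party_of (G : Finset ((ι → B) × (ι → B))) (ε : ℝ) (hε : 0 < ε) (hε1 : ε ≤ 1)
    (hB : 0 < Fintype.card B)
    (hstep : ∀ (Λ : Finset ι) (A A' : Finset (ι → B)), Fixed Λ A → Fixed Λ A' →
      0 < ms G Λ A A' → Real.exp (-(Λ.card / 212)) ≤ ε / 4 * sz Λ A A' →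
      ∃ (Λ1 : Finset ι) (A1 A1' : Finset (ι → B)), Fixed Λ1 A1 ∧ Fixed Λ1 A1' ∧ Λ.card ≤ Λ1.card + 1 ∧
      (1 + 3 * ε / 256) * (ms G Λ A A' / sz Λ A A') * sz Λ1 A1 A1' + 3 * ε / 1024 * ms G Λ A A' ≤
        ms G Λ1 A1 A1') :
    (G.card : ℝ) ≤ 2 * Real.exp (-(ε / (10 ^ 6 * Real.log (2 / ε)) * Fintype.card ι)) *
      (Fintype.card B : ℝ) ^ (2 * Fintype.card ι) := by
  obtain ⟨n, hn⟩ : ∃ n, n = Fintype.card ι := ⟨_, rfl⟩
  obtain ⟨l, hl⟩ : ∃ l, l = Real.log (2 / ε) := ⟨_, rfl⟩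
  rw [← hn, ← hl]
  have hBr : (0 : ℝ) < Fintype.card B := by exact_mod_cast hB
  have hK : (0 : ℝ) < (Fintype.card B : ℝ) ^ (2 * n) := by positivity
  have h2e : (2 : ℝ) ≤ 2 / ε := by
    rw [le_div_iff₀ hε]
    linarith
  have hl1 : (69 : ℝ) / 100 ≤ l := by
    rw [hl]
    have := Real.log_le_log (by norm_num : (0 : ℝ) < 2) h2e
    have h3 := Real.log_two_gt_d9
    linarith
  have hl0 : 0 < l := by linarith
  have hexpl : Real.exp l = 2 / ε := by
    rw [hl]
    exact Real.exp_log (by positivity)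
  -- the trivial bound
  have hcard : (G.card : ℝ) ≤ (Fintype.card B : ℝ) ^ (2 * n) := by
    have h1 : G.card ≤ Fintype.card ((ι → B) × (ι → B)) := Finset.card_le_univ G
    rw [Fintype.card_prod, Fintype.card_fun, ← hn, ← pow_add, ← two_mul] at h1
    exact_mod_cast h1
  set eta : ℝ := ε / (10 ^ 6 * l) with heta
  have heta0 : 0 < eta := by rw [heta]; positivity
  rcases le_or_gt (n : ℝ) (5 * 10 ^ 5 * l) with hsmall | hlarge
  · have h1 : eta * n ≤ 1 / 2 := by
      calc eta * n ≤ eta * (5 * 10 ^ 5 * l) := mul_le_mul_of_nonneg_left hsmall heta0.le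
        _ = ε / 2 := by rw [heta]; field_simp; norm_num
        _ ≤ 1 / 2 := by linarith
    have h2 : (1 : ℝ) ≤ 2 * Real.exp (-(eta * n)) := by
      have h3 := Real.add_one_le_exp (-(eta * n))
      linarith
    calc (G.card : ℝ) ≤ 1 * (Fintype.card B : ℝ) ^ (2 * n) := by rw [one_mul]; exact hcard
      _ ≤ _ := mul_le_mul_of_nonneg_right h2 hK.le
  · by_contra hcon
    push Not at hcon
    obtain ⟨g0, hg0⟩ : ∃ g0 : ℝ, g0 = 2 * Real.exp (-(eta * n)) := ⟨_, rfl⟩
    rw [← hg0] at hcon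
    have hg0pos : 0 < g0 := by rw [hg0]; positivity
    have hG : g0 ≤ (G.card : ℝ) / (Fintype.card B : ℝ) ^ (2 * Fintype.card ι) := by
      rw [← hn, le_div_iff₀ hK]
      exact hcon.le
    have hc0 : (0 : ℝ) ≤ 3 * ε / 256 := by positivity
    have hc1 : 3 * ε / 256 ≤ 3 / 256 := by linarith
    -- the exponent
    obtain ⟨C, hC⟩ : ∃ C : ℕ, C = ⌈1000 * l / ε⌉₊ + 1 := ⟨_, rfl⟩
    have hC1 : 1000 * l / ε ≤ ((C - 1 : ℕ) : ℝ) := by
      rw [hC, Nat.add_sub_cancel]
      exact Nat.le_ceil _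
    have hC2 : (C : ℝ) ≤ 1003 * l / ε := by
      have h1 : (⌈1000 * l / ε⌉₊ : ℝ) < 1000 * l / ε + 1 := Nat.ceil_lt_add_one (by positivity)
      have h2 : (2 : ℝ) ≤ 3 * l / ε := by
        rw [le_div_iff₀ hε]
        nlinarith
      have h3 : 1003 * l / ε = 1000 * l / ε + 3 * l / ε := by ring
      rw [hC]
      push_cast
      linarith
    have hCc : 1 ≤ (1 + 3 * ε / 256) ^ (C - 1) * (3 * ε / 1024) := by
      have h1 := log_c hc0 hc1 (C - 1)
      have h2 : 9 * l ≤ 9 / 10 * (3 * ε / 256) * ((C - 1 : ℕ) : ℝ) := by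
        have h3 : 9 / 10 * (3 * ε / 256) * (1000 * l / ε) ≤ 9 / 10 * (3 * ε / 256) * ((C - 1 : ℕ) : ℝ) :=
          mul_le_mul_of_nonneg_left hC1 (by positivity)
        have h4 : 9 / 10 * (3 * ε / 256) * (1000 * l / ε) = 2700 / 256 * l := by
          field_simp
          ring
        rw [h4] at h3
        nlinarith
      have h5 : Real.exp (9 * l) = (2 / ε) ^ 9 := by
        rw [← hexpl, ← Real.exp_nat_mul]
        norm_num
      have h6 : (2 / ε) ^ 9 ≤ (1 + 3 * ε / 256) ^ (C - 1) := by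
        rw [← h5]
        exact (Real.exp_le_exp.mpr h2).trans h1
      have h7 : (1 : ℝ) ≤ (2 / ε) ^ 9 * (3 * ε / 1024) := by
        have e1 : (2 : ℝ) ^ 8 ≤ (2 / ε) ^ 8 := pow_le_pow_left₀ (by norm_num) h2e 8
        have e2 : (2 / ε) ^ 9 * (3 * ε / 1024) = (2 / ε) ^ 8 * (6 / 1024) := by
          rw [pow_succ]
          field_simp
          norm_num
        rw [e2]
        nlinarith
      exact h7.trans (mul_le_mul_of_nonneg_right h6 (by positivity))
    -- the number of steps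
    have hn1 : (1000 : ℝ) ≤ n := by nlinarith
    obtain ⟨J, hJ⟩ : ∃ J : ℕ, J = n / 2 := ⟨_, rfl⟩
    have hJ1 : (J : ℝ) ≤ n / 2 := by
      rw [hJ]
      exact_mod_cast (Nat.cast_div_le (α := ℝ) (m := n) (n := 2))
    have hJ2 : (n : ℝ) / 2 - 1 ≤ J := by
      have : n ≤ 2 * J + 1 := by omega
      have h2 : (n : ℝ) ≤ 2 * J + 1 := by exact_mod_cast this
      linarith
    have hgC : Real.exp (-(11 / 10000 * n)) ≤ g0 ^ C := by
      have h1 : Real.exp (-(eta * n)) ≤ g0 := by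
        rw [hg0]
        have := Real.exp_pos (-(eta * n))
        linarith
      have h2 : Real.exp (-(eta * n)) ^ C ≤ g0 ^ C := pow_le_pow_left₀ (Real.exp_pos _).le h1 C
      refine le_trans ?_ h2
      rw [← Real.exp_nat_mul, Real.exp_le_exp]
      have h3 : (C : ℝ) * (eta * n) ≤ 1003 * l / ε * (eta * n) :=
        mul_le_mul_of_nonneg_right hC2 (by positivity)
      have h4 : 1003 * l / ε * (eta * n) = 1003 / 10 ^ 6 * n := by
        rw [heta]
        field_simp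
      rw [h4] at h3
      nlinarith
    have hcond : ∀ m : ℕ, Fintype.card ι ≤ m + J → Real.exp (-((m : ℝ) / 212)) ≤ ε / 4 * g0 ^ C := by
      intro m hm
      rw [← hn] at hm
      have hm' : (n : ℝ) ≤ m + J := by exact_mod_cast hm
      have hm2 : (n : ℝ) / 2 ≤ m := by linarith
      have h1 : Real.exp (-(2 * l)) ≤ ε / 4 := by
        have h2 : Real.exp (-(2 * l)) = (2 / ε)⁻¹ ^ 2 := by
          rw [← hexpl, ← Real.exp_neg, ← Real.exp_nat_mul]
          congr 1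
          push_cast
          ring
        rw [h2, inv_div]
        nlinarith
      calc Real.exp (-((m : ℝ) / 212)) ≤ Real.exp (-(2 * l) + -(11 / 10000 * n)) := by
            rw [Real.exp_le_exp]
            nlinarith
        _ = Real.exp (-(2 * l)) * Real.exp (-(11 / 10000 * n)) := Real.exp_add _ _
        _ ≤ ε / 4 * g0 ^ C := mul_le_mul h1 hgC (Real.exp_pos _).le (by positivity)
    obtain ⟨Λ, A, A', _, _, hs, _, hg, _⟩ := iter G ε hε hstep hB C (by omega) hCc g0 hg0pos hG J hcond J le_rfl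
    have hg1 : ms G Λ A A' / sz Λ A A' ≤ 1 := (div_le_one hs).mpr (ms_le_sz G Λ A A')
    have h1 := log_c hc0 hc1 J
    have h2 : eta * n ≤ 9 / 10 * (3 * ε / 256) * J := by
      have e1 : eta ≤ ε / (69 / 100 * 10 ^ 6) := by
        rw [heta]
        apply div_le_div_of_nonneg_left hε.le (by norm_num)
        nlinarith
      have e2 : eta * n ≤ ε / (69 / 100 * 10 ^ 6) * n := mul_le_mul_of_nonneg_right e1 (by positivity)
      have e3 : 9 / 10 * (3 * ε / 256) * ((n : ℝ) / 2 - 1) ≤ 9 / 10 * (3 * ε / 256) * J :=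
        mul_le_mul_of_nonneg_left hJ2 (by positivity)
      have e4 : ε / (69 / 100 * 10 ^ 6) * n ≤ 9 / 10 * (3 * ε / 256) * ((n : ℝ) / 2 - 1) := by
        have : (0 : ℝ) ≤ ε * (n - 1000) := mul_nonneg hε.le (by linarith)
        nlinarith
      linarith
    have h3 : Real.exp (eta * n) ≤ (1 + 3 * ε / 256) ^ J := (Real.exp_le_exp.mpr h2).trans h1
    have h4 : g0 * Real.exp (eta * n) ≤ 1 :=
      ((mul_le_mul_of_nonneg_left h3 hg0pos.le).trans hg).trans hg1
    have h5 : g0 * Real.exp (eta * n) = 2 := by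
      rw [hg0, mul_assoc, ← Real.exp_add, neg_add_cancel, Real.exp_zero, mul_one]
    linarith

end Pool.Agent.Helper78.NE
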