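import Pool.Agent.Helper78.NE.Gen
import Pool.Agent.Helper78.NW.Push

/-!
# Main inequality, decision version and pushdown version with a general factor `f` and a general last term `E`
-/

namespace Pool.Agent.Helper78.NE

open Finset Pool.Agent.Helper74.NW Pool.Agent.Helper19.NF Pool.Agent.Helper78.NW

/-- the real inequality -/
theorem dec_real (f y E P W Er Gd Rt M0 Co V2 : ℝ) (hf : 1 ≤ f) (hy0 : 0 ≤ y) (hy1 : y ≤ 1) (hM : 0 ≤ M0)
    (h1 : P + W ≤ Er + Gd + Rt) (h2 : Rt * (1 - y) ≤ f * y * W) (h3 : W ≤ Er) (h4 : Gd ≤ E * M0)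
    (hE : 0 ≤ E) (hV : 0 ≤ V2) (h5 : Co * y ≤ P) (h6 : M0 - V2 * M0 ≤ Co) (hW : 0 ≤ W) :
    (min y ((1 - y) / f) - V2 - E) * M0 ≤ Er := by
  have hf0 : 0 < f := by linarith
  have hEr : 0 ≤ Er := hW.trans h3
  have hP : y * M0 - V2 * M0 ≤ P := by
    have e1 : y * (M0 - V2 * M0) ≤ y * Co := mul_le_mul_of_nonneg_left h6 hy0
    have e2 : y * (V2 * M0) ≤ 1 * (V2 * M0) := mul_le_mul_of_nonneg_right hy1 (mul_nonneg hV hM)
    nlinarith
  rcases le_or_gt (f * y) (1 - y) with hc | hc
  · rcases eq_or_lt_of_le (show (0 : ℝ) ≤ 1 - y by linarith) with hy | hpos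
    · -- `y = 1` and `f y ≤ 0` is impossible
      exfalso
      have : y = 1 := by linarith
      rw [this] at hc
      linarith
    · have hRW : Rt ≤ W := by
        have e1 : Rt * (1 - y) ≤ W * (1 - y) := by
          refine h2.trans ?_
          rw [mul_comm W]
          exact mul_le_mul_of_nonneg_right hc hW
        exact le_of_mul_le_mul_right e1 hpos
      have e2 : min y ((1 - y) / f) * M0 ≤ y * M0 := mul_le_mul_of_nonneg_right (min_le_left _ _) hM
      nlinarith
  · rcases eq_or_lt_of_le hy1 with hy | hy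
    · have e1 : min y ((1 - y) / f) * M0 ≤ 0 := by
        have : min y ((1 - y) / f) ≤ 0 := (min_le_right _ _).trans (by rw [hy]; simp)
        exact mul_nonpos_of_nonpos_of_nonneg this hM
      have e2 : 0 ≤ V2 * M0 := mul_nonneg hV hM
      have e3 : 0 ≤ E * M0 := mul_nonneg hE hM
      nlinarith
    · have hpos : 0 < 1 - y := by linarith
      have hfy : 0 < f * y := hpos.trans hc
      have hy0' : 0 < y := by
        by_contra hneg
        have : y = 0 := le_antisymm (not_lt.mp hneg) hy0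
        rw [this, mul_zero] at hfy
        exact lt_irrefl _ hfy
      obtain ⟨lam, hlam⟩ : ∃ lam : ℝ, lam = (1 - y) / (f * y) := ⟨_, rfl⟩
      have hl0 : 0 < lam := by rw [hlam]; positivity
      have hl1 : lam ≤ 1 := by
        rw [hlam, div_le_one hfy]
        exact hc.le
      have hly : lam * y = (1 - y) / f := by
        rw [hlam]
        field_simp
      have hlR : lam * Rt ≤ W := by
        rw [hlam, div_mul_eq_mul_div, div_le_iff₀ hfy]
        nlinarith
      have e1 : lam * (P + W) ≤ lam * (Er + Gd + Rt) := mul_le_mul_of_nonneg_left h1 hl0.le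
      have e2 : (1 - lam) * W ≤ (1 - lam) * Er := mul_le_mul_of_nonneg_left h3 (by linarith)
      have e3 : lam * P ≤ Er + lam * Gd := by nlinarith
      have e4 : lam * (y * M0 - V2 * M0) ≤ lam * P := mul_le_mul_of_nonneg_left hP hl0.le
      have e5 : lam * Gd ≤ lam * (E * M0) := mul_le_mul_of_nonneg_left h4 hl0.le
      have e6 : lam * (E * M0) ≤ 1 * (E * M0) := mul_le_mul_of_nonneg_right hl1 (mul_nonneg hE hM)
      have e7 : lam * (V2 * M0) ≤ 1 * (V2 * M0) := mul_le_mul_of_nonneg_right hl1 (mul_nonneg hV hM)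
      have e8 : min y ((1 - y) / f) * M0 ≤ (1 - y) / f * M0 :=
        mul_le_mul_of_nonneg_right (min_le_right _ _) hM
      have e9 : lam * (y * M0) = (1 - y) / f * M0 := by rw [← mul_assoc, hly]
      nlinarith

section general

variable {U D B : Type} [Fintype U] [Fintype D] [AddCommGroup B] {S : ℕ}

/-- the function version -/
theorem main_gen [Fintype B] (P : NProg B (D → B) B S) (g : D → Equiv.Perm U) (x0 : U → B)
    {R T p f : ℕ} (c : D) (hU : 1 ≤ Fintype.card U) (φ : B → B) (hφ : ∀ y, Nat.card {x // φ x = y} ≤ p)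
    (Good : (B → D → B) → Prop)
    [∀ I v, Decidable (miss P g x0 R I v)]
    (hcov : ∀ I, CF g x0 R I → (∃ l z, P.Ends I l z) →
      (∀ l z, P.Shortest I l z → Nat.card {b // b ∈ l} ≤ T ∧ min S l.length ≤ 2 ^ R) →
      Good I ∨ Fintype.card U ≤ f * (univ.filter (fun v => miss P g x0 R I v)).card)
    (hC : Nat.card {I : B → D → B // ¬ CF g x0 R I} * Fintype.card B ≤
      ((R + 1) * Fintype.card U) ^ 2 * Nat.card (B → D → B))
    (E : ℝ) (hG : (Nat.card {I : B → D → B // Good I} : ℝ) ≤ E * Nat.card (B → D → B)) :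
    (Nat.card {I : B → D → B // (∃ l z, P.Ends I l z) ∧ (∀ l z, P.Ends I l z → z = φ (res g x0 R c I)) ∧
        ∀ l z, P.Shortest I l z → Nat.card {b // b ∈ l} ≤ T ∧ min S l.length ≤ 2 ^ R} : ℝ) ≤
      ((f * p + ((R + 1) * Fintype.card U : ℝ) ^ 2) / Fintype.card B + E) * Nat.card (B → D → B) := by
  classical
  have hk : 0 < Fintype.card B := Fintype.card_pos_iff.mpr ⟨0⟩
  have hkR : (0 : ℝ) < (Fintype.card B : ℝ) := by exact_mod_cast hk
  set X : Finset (B → D → B) := univ.filter (fun I => CF g x0 R I ∧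
    (∀ l z, P.Ends I l z → z = φ (res g x0 R c I)) ∧
    Fintype.card U ≤ f * (univ.filter (fun v => miss P g x0 R I v)).card) with hX
  have hXc : X.card * Fintype.card B ≤ f * p * Nat.card (B → D → B) := by
    refine root_gen P g x0 (R := R) c hU φ hφ X ?_ ?_
    · intro I hI
      obtain ⟨_, h1, h2, _⟩ := Finset.mem_filter.mp hI
      exact ⟨h1, h2⟩
    · intro I hI
      obtain ⟨_, _, _, h3⟩ := Finset.mem_filter.mp hI
      exact h3
  have hnat : Nat.card {I : B → D → B // (∃ l z, P.Ends I l z) ∧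
      (∀ l z, P.Ends I l z → z = φ (res g x0 R c I)) ∧
        ∀ l z, P.Shortest I l z → Nat.card {b // b ∈ l} ≤ T ∧ min S l.length ≤ 2 ^ R} ≤
      Nat.card {I : B → D → B // ¬ CF g x0 R I} + X.card + Nat.card {I : B → D → B // Good I} := by
    rw [nc, nc, nc]
    refine (Finset.card_le_card (t := (univ.filter (fun I => ¬ CF g x0 R I) ∪ X) ∪ univ.filter Good)
      fun I hI => ?_).trans ((Finset.card_union_le _ _).trans
        (Nat.add_le_add_right (Finset.card_union_le _ _) _))
    obtain ⟨_, h1, h2, h3⟩ := Finset.mem_filter.mp hI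
    rw [Finset.mem_union, Finset.mem_union]
    by_cases hCF : CF g x0 R I
    · rcases hcov I hCF h1 h3 with h4 | h4
      · exact Or.inr (Finset.mem_filter.mpr ⟨Finset.mem_univ _, h4⟩)
      · exact Or.inl (Or.inr (Finset.mem_filter.mpr ⟨Finset.mem_univ _, hCF, h2, h4⟩))
    · exact Or.inl (Or.inl (Finset.mem_filter.mpr ⟨Finset.mem_univ _, hCF⟩))
  have h1 : ((Nat.card {I : B → D → B // ¬ CF g x0 R I} : ℕ) : ℝ) ≤
      (((R + 1) * Fintype.card U : ℝ) ^ 2 / Fintype.card B) * Nat.card (B → D → B) := by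
    rw [div_mul_eq_mul_div, le_div_iff₀ hkR]
    exact_mod_cast hC
  have h2 : (X.card : ℝ) ≤ ((f * p : ℝ) / Fintype.card B) * Nat.card (B → D → B) := by
    rw [div_mul_eq_mul_div, le_div_iff₀ hkR]
    exact_mod_cast hXc
  have h3 : ((Nat.card {I : B → D → B // (∃ l z, P.Ends I l z) ∧
      (∀ l z, P.Ends I l z → z = φ (res g x0 R c I)) ∧
        ∀ l z, P.Shortest I l z → Nat.card {b // b ∈ l} ≤ T ∧ min S l.length ≤ 2 ^ R} : ℕ) : ℝ) ≤
      Nat.card {I : B → D → B // ¬ CF g x0 R I} + X.card + Nat.card {I : B → D → B // Good I} := by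
    exact_mod_cast hnat
  refine h3.trans ?_
  have h4 : ((f * p + ((R + 1) * Fintype.card U : ℝ) ^ 2) / Fintype.card B + E) * Nat.card (B → D → B) =
      (((R + 1) * Fintype.card U : ℝ) ^ 2 / Fintype.card B) * Nat.card (B → D → B) +
      ((f * p : ℝ) / Fintype.card B) * Nat.card (B → D → B) + E * Nat.card (B → D → B) := by
    ring
  rw [h4]
  linarith

/-- the decision version -/
theorem decision_gen [Fintype B] (P : NProg B (D → B) B S) (g : D → Equiv.Perm U) (x0 : U → B)
    {R T f : ℕ} (hf : 1 ≤ f) (c : D) (v0 : U) (Y : Finset B) (y : ℝ) (hy : y = Y.card / Fintype.card B)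
    (Good : (B → D → B) → Prop)
    [∀ I v, Decidable (miss P g x0 R I v)]
    (hcov : ∀ I, CF g x0 R I → (∃ l z, P.Ends I l z) →
      (∀ l z, P.Shortest I l z → Nat.card {b // b ∈ l} ≤ T ∧ min S l.length ≤ 2 ^ R) →
      Good I ∨ Fintype.card U ≤ f * (univ.filter (fun v => miss P g x0 R I v)).card)
    (hC : Nat.card {I : B → D → B // ¬ CF g x0 R I} * Fintype.card B ≤
      ((R + 1) * Fintype.card U) ^ 2 * Nat.card (B → D → B))
    (E : ℝ) (hE : 0 ≤ E) (hG : (Nat.card {I : B → D → B // Good I} : ℝ) ≤ E * Nat.card (B → D → B)) :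
    (min y ((1 - y) / f) - ((R + 1) * Fintype.card U : ℝ) ^ 2 / Fintype.card B - E) * Nat.card (B → D → B) ≤
      Nat.card {I : B → D → B // ¬ (((∃ l z, P.Ends I l z) ↔ res g x0 R c I ∈ Y) ∧
        ∀ l z, P.Shortest I l z → Nat.card {b // b ∈ l} ≤ T ∧ min S l.length ≤ 2 ^ R)} := by
  classical
  have hk : 0 < Fintype.card B := Fintype.card_pos_iff.mpr ⟨0⟩
  have hkR : (0 : ℝ) < (Fintype.card B : ℝ) := by exact_mod_cast hk
  have hYk : Y.card ≤ Fintype.card B := Finset.card_le_univ Y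
  have hU : 1 ≤ Fintype.card U := Fintype.card_pos_iff.mpr ⟨v0⟩
  set X : Finset (B → D → B) := univ.filter (fun I => CF g x0 R I ∧ res g x0 R c I ∈ Y ∧
    Fintype.card U ≤ f * (univ.filter (fun v => miss P g x0 R I v)).card) with hX
  set W : Finset (B → D → B) := univ.filter (fun I => res g x0 R c I ∉ Y ∧ ∃ l z, P.Ends I l z) with hW
  set PP : Finset (B → D → B) := univ.filter (fun I => CF g x0 R I ∧ res g x0 R c I ∈ Y) with hPP
  set Er : Finset (B → D → B) := univ.filter (fun I => ¬ (((∃ l z, P.Ends I l z) ↔ res g x0 R c I ∈ Y) ∧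
        ∀ l z, P.Shortest I l z → Nat.card {b // b ∈ l} ≤ T ∧ min S l.length ≤ 2 ^ R)) with hEr
  have hXc : X.card * (Fintype.card B - Y.card) ≤ f * Y.card * W.card := by
    refine root_gen' P g x0 (R := R) c hU Y X ?_ ?_ W ?_
    · intro I hI
      obtain ⟨_, h1, h2, _⟩ := Finset.mem_filter.mp hI
      exact ⟨h1, h2⟩
    · intro I hI
      obtain ⟨_, _, _, h3⟩ := Finset.mem_filter.mp hI
      exact h3
    · intro I h1 h2
      exact Finset.mem_filter.mpr ⟨Finset.mem_univ _, h1, h2⟩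
  have hWE : W ⊆ Er := by
    intro I hI
    obtain ⟨_, h1, h2⟩ := Finset.mem_filter.mp hI
    exact Finset.mem_filter.mpr ⟨Finset.mem_univ _, fun h => h1 (h.1.mp h2)⟩
  have hsub : PP ∪ W ⊆ (Er ∪ univ.filter Good) ∪ X := by
    intro I hI
    rw [Finset.mem_union] at hI
    by_cases hE' : I ∈ Er
    · exact Finset.mem_union_left _ (Finset.mem_union_left _ hE')
    rcases hI with hI | hI
    · have hgood : ((∃ l z, P.Ends I l z) ↔ res g x0 R c I ∈ Y) ∧
          ∀ l z, P.Shortest I l z → Nat.card {b // b ∈ l} ≤ T ∧ min S l.length ≤ 2 ^ R := by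
        by_contra h
        exact hE' (Finset.mem_filter.mpr ⟨Finset.mem_univ _, h⟩)
      obtain ⟨_, hCF, hout⟩ := Finset.mem_filter.mp hI
      rcases hcov I hCF (hgood.1.mpr hout) hgood.2 with h4 | h4
      · exact Finset.mem_union_left _ (Finset.mem_union_right _
          (Finset.mem_filter.mpr ⟨Finset.mem_univ _, h4⟩))
      · exact Finset.mem_union_right _ (Finset.mem_filter.mpr ⟨Finset.mem_univ _, hCF, hout, h4⟩)
    · exact absurd (hWE hI) hE'
  have hdis : Disjoint PP W := by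
    rw [Finset.disjoint_left]
    intro I hI hI'
    exact (Finset.mem_filter.mp hI').2.1 (Finset.mem_filter.mp hI).2.2
  have hnat : PP.card + W.card ≤ Er.card + (univ.filter Good).card + X.card := by
    calc PP.card + W.card = (PP ∪ W).card := (Finset.card_union_of_disjoint hdis).symm
      _ ≤ ((Er ∪ univ.filter Good) ∪ X).card := Finset.card_le_card hsub
      _ ≤ (Er ∪ univ.filter Good).card + X.card := Finset.card_union_le _ _
      _ ≤ Er.card + (univ.filter Good).card + X.card := Nat.add_le_add_right (Finset.card_union_le _ _) _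
  have hequi := equi g x0 R c v0 Y
  rw [nc, nc] at hequi
  rw [nc] at hC hG
  rw [nc]
  have hsplit : (univ.filter (fun I => CF g x0 R I)).card + (univ.filter (fun I => ¬ CF g x0 R I)).card =
      Nat.card (B → D → B) := by
    rw [Nat.card_eq_fintype_card, ← Finset.card_univ, Finset.card_filter_add_card_filter_not]
  refine dec_real f y E PP.card W.card Er.card (univ.filter Good).card X.card (Nat.card (B → D → B))
    (univ.filter (fun I => CF g x0 R I)).card (((R + 1) * Fintype.card U : ℝ) ^ 2 / Fintype.card B)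
    (by exact_mod_cast hf) ?_ ?_ (by positivity) (by exact_mod_cast hnat) ?_
    (by exact_mod_cast Finset.card_le_card hWE) hG hE (by positivity) ?_ ?_ (by positivity)
  · rw [hy]; positivity
  · rw [hy, div_le_one hkR]; exact_mod_cast hYk
  · have h1 : (1 : ℝ) - y = ((Fintype.card B - Y.card : ℕ) : ℝ) / Fintype.card B := by
      rw [hy, Nat.cast_sub hYk]
      field_simp
    rw [h1, hy, mul_div_assoc', mul_div_assoc', div_mul_eq_mul_div]
    exact div_le_div_of_nonneg_right (by exact_mod_cast hXc) hkR.le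
  · rw [hy, mul_div_assoc', div_le_iff₀ hkR, mul_comm ((PP.card : ℕ) : ℝ) (Fintype.card B : ℝ)]
    exact_mod_cast hequi
  · have h1 : (((univ.filter (fun I => ¬ CF g x0 R I)).card : ℕ) : ℝ) ≤
        (((R + 1) * Fintype.card U : ℝ) ^ 2 / Fintype.card B) * Nat.card (B → D → B) := by
      rw [div_mul_eq_mul_div, le_div_iff₀ hkR]
      exact_mod_cast hC
    have h2 : (((univ.filter (fun I => CF g x0 R I)).card : ℕ) : ℝ) +
        (((univ.filter (fun I => ¬ CF g x0 R I)).card : ℕ) : ℝ) = (Nat.card (B → D → B) : ℕ) := by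
      exact_mod_cast hsplit
    linarith

end general

section push

variable {C W Z Q Γ : Type}

/-- the function version for pushdown programs -/
theorem push_main_gen [Fintype C] [Finite W] (P : NPProg C W Z Q Γ) {R T m Smax : ℕ} (rr : (C → W) → Z)
    (c0 : C) (hsim : ∃ S ≤ Smax, ∃ P' : NProg C W Z S, Simulates P c0 (2 ^ m) P') (hm : m < R) (X : ℝ)
    (hmain : ∀ S ≤ Smax, ∀ P' : NProg C W Z S, (Nat.card {I : C → W // (∃ l z, P'.Ends I l z) ∧
        (∀ l z, P'.Ends I l z → z = rr I) ∧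
        ∀ l z, P'.Shortest I l z → Nat.card {b // b ∈ l} ≤ T + 1 ∧ min S l.length ≤ 2 ^ R} : ℝ) ≤ X) :
    (Nat.card {I : C → W // (∃ l k z, P.Ends I l k z ∧ k ≤ 2 ^ m) ∧
      ∀ l k z, P.Ends I l k z → z = rr I ∧ Nat.card {b // b ∈ l} ≤ T} : ℝ) ≤ X := by
  obtain ⟨S, hS, P', hP'⟩ := hsim
  exact push_main_of P rr c0 P' hP' (two_pow_lt hm) X (hmain S hS P')

/-- the decision version for pushdown programs -/
theorem push_dec_gen [Fintype C] [Finite W] (P : NPProg C W Z Q Γ) {R T m Smax : ℕ} (yes : (C → W) → Prop)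
    (c0 : C) (hsim : ∃ S ≤ Smax, ∃ P' : NProg C W Z S, Simulates P c0 (2 ^ m) P') (hm : m < R) (X : ℝ)
    (hmain : ∀ S ≤ Smax, ∀ P' : NProg C W Z S, X ≤ Nat.card {I : C → W // ¬ (((∃ l z, P'.Ends I l z) ↔ yes I) ∧
        ∀ l z, P'.Shortest I l z → Nat.card {b // b ∈ l} ≤ T + 1 ∧ min S l.length ≤ 2 ^ R)}) :
    X ≤ Nat.card {I : C → W // ¬ ((yes I → ∃ l k z, P.Ends I l k z ∧ k ≤ 2 ^ m) ∧
      ∀ l k z, P.Ends I l k z → yes I ∧ Nat.card {b // b ∈ l} ≤ T)} := by
  obtain ⟨S, hS, P', hP'⟩ := hsim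
  exact push_dec_of P yes c0 P' hP' (two_pow_lt hm) X (hmain S hS P')

end push

end Pool.Agent.Helper78.NE
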