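import Pool.Agent.Helper78.NE.Test

set_option linter.unusedSectionVars false

namespace H78NE

open Matrix Finset

variable {V : Type*} [Fintype V] [DecidableEq V] {ι : Type*} [Fintype ι] [DecidableEq ι]

/-- Energy bound from a test vector orthogonal to the whole test space. -/
theorem hub_energy' {φ : ℝ → ℝ} (hφ : Good φ) {G : SimpleGraph V} {w : V} (h : Hub G w ι)
    [Fintype {i // h.P i}] [Fintype {i // ¬ h.P i}]
    (y : EuclideanSpace ℝ V) (hy0 : y ≠ 0) {x : ℝ} (hy : Q (adj G) y ≤ -x * ‖y‖ ^ 2)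
    (hperp : ∀ v, InU h v → inner ℝ y v = 0) :
    φ (-x) + Fintype.card {i // h.P i} * (φ (-√2) - 1)
      + (Fintype.card V - 1 - Fintype.card {i // ¬ h.P i} - 2 * Fintype.card {i // h.P i})
      ≤ gE φ G := by
  classical
  set U := LinearMap.ker (LinearMap.pi (FF h)) with hU
  set W := Submodule.map (Phi h) ⊤ with hW
  have memU : ∀ v ∈ U, InU h v ∧ inner ℝ y v = 0 := by
    intro v hv
    rw [hU, LinearMap.mem_ker] at hv
    have hv' : ∀ k, FF h k v = 0 := fun k => congrFun hv k
    have := FF_InU h v hv'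
    exact ⟨this, hperp v this⟩
  have hWU : W ≤ U := by
    intro v hv
    rw [hW, Submodule.mem_map] at hv
    obtain ⟨f, -, rfl⟩ := hv
    rw [hU, LinearMap.mem_ker]
    funext k
    exact InU_FF h _ (Phi_InU h f) k
  have hfl := flag hφ (adj_herm G) (c := √2) (x := x) U W hWU y hy0 hy
    (fun u hu => (memU u hu).2) (fun u hu => Q_InU_le h (memU u hu).1)
    (by
      intro v hv
      refine Q_InW_le h (memU v (hWU hv)).1 ?_
      intro u hu
      rw [hW, Submodule.mem_map] at hv
      obtain ⟨f, hf, rfl⟩ := hv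
      exact Phi_off h f u hu)
  have hdW : (Module.finrank ℝ W : ℝ) = Fintype.card {i // h.P i} := by
    have h3 : Module.finrank ℝ W = Module.finrank ℝ (⊤ : Submodule ℝ ({i // h.P i} → ℝ)) :=
      (Submodule.equivMapOfInjective (Phi h) (Phi_inj h) _).finrank_eq.symm
    rw [h3, finrank_top, Module.finrank_fintype_fun_eq_card]
  have hdU := finrank_ker (FF h)
  rw [← hU] at hdU
  have hcard : (Fintype.card (Unit ⊕ ({i // ¬ h.P i} ⊕ ({i // h.P i} ⊕ {i // h.P i}))) : ℝ)
      = 1 + Fintype.card {i // ¬ h.P i} + 2 * Fintype.card {i // h.P i} := by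
    simp only [Fintype.card_sum, Fintype.card_unit]
    push_cast
    ring
  rw [hcard] at hdU
  rw [gE_eq]
  rw [hdW] at hfl
  linarith

/-- Indicator vector of a component. -/
noncomputable def one {G : SimpleGraph V} {w : V} (h : Hub G w ι) (j : ι) :
    EuclideanSpace ℝ V :=
  WithLp.toLp 2 (fun u => if u ≠ w ∧ h.c u = j then 1 else 0)

lemma one_apply {G : SimpleGraph V} {w : V} (h : Hub G w ι) (j : ι) (u : V) :
    one h j u = if u ≠ w ∧ h.c u = j then 1 else 0 := rfl

/-- Number of vertices of a component. -/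
noncomputable def sz {G : SimpleGraph V} {w : V} (h : Hub G w ι) (j : ι) : ℝ :=
  ∑ u, if u ≠ w ∧ h.c u = j then (1:ℝ) else 0

lemma sz_ge_one {G : SimpleGraph V} {w : V} (h : Hub G w ι) (j : ι) : 1 ≤ sz h j := by
  obtain ⟨u, hu, hc, -⟩ := h.hn j
  unfold sz
  have := Finset.single_le_sum (f := fun u => if u ≠ w ∧ h.c u = j then (1:ℝ) else 0)
    (fun i _ => by positivity) (Finset.mem_univ u)
  simp only [if_pos (And.intro hu hc)] at this
  exact this

lemma sz_ge_two {G : SimpleGraph V} {w : V} (h : Hub G w ι) (j : ι) {u v : V} (huv : u ≠ v)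
    (hu : u ≠ w) (hv : v ≠ w) (cu : h.c u = j) (cv : h.c v = j) : 2 ≤ sz h j := by
  unfold sz
  have hsub := Finset.sum_le_univ_sum_of_nonneg
    (f := fun u => if u ≠ w ∧ h.c u = j then (1:ℝ) else 0)
    (s := {u, v}) (fun i => by positivity)
  rw [Finset.sum_insert (by simpa using huv), Finset.sum_singleton,
    if_pos ⟨hu, cu⟩, if_pos ⟨hv, cv⟩] at hsub
  linarith

lemma sum_one {G : SimpleGraph V} {w : V} (h : Hub G w ι) (j : ι) (g : V → ℝ) :
    ∑ b, g b * one h j b = ∑ b, if b ≠ w ∧ h.c b = j then g b else 0 := by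
  apply Finset.sum_congr rfl
  intro b _
  rw [one_apply]
  split_ifs <;> simp

/-- Action of the adjacency matrix on the indicator of a fully joined clique. -/
lemma adj_one_sum {G : SimpleGraph V} {w : V} (h : Hub G w ι) (j : ι) (hj : ¬ h.P j)
    (hfull : ∀ u, u ≠ w → h.c u = j → G.Adj w u) (x : V) :
    ∑ b, adj G x b * one h j b
      = if x = w then sz h j else if h.c x = j then sz h j - 1 else 0 := by
  rw [sum_one]
  by_cases hx : x = w
  · subst hx
    rw [if_pos rfl]
    unfold sz
    apply Finset.sum_congr rfl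
    intro b _
    by_cases hb : b ≠ x ∧ h.c b = j
    · rw [if_pos hb, if_pos hb, adj_one (hfull b hb.1 hb.2)]
    · rw [if_neg hb, if_neg hb]
  · rw [if_neg hx]
    by_cases hc : h.c x = j
    · rw [if_pos hc]
      have hterm : ∀ b, (if b ≠ w ∧ h.c b = j then adj G x b else 0)
          = (if b ≠ w ∧ h.c b = j then (1:ℝ) else 0) - (if b = x then 1 else 0) := by
        intro b
        by_cases hbx : b = x
        · subst hbx
          rw [if_pos ⟨hx, hc⟩, adj_self, if_pos ⟨hx, hc⟩, if_pos rfl]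
          ring
        · rw [if_neg hbx, sub_zero]
          by_cases hb : b ≠ w ∧ h.c b = j
          · rw [if_pos hb, if_pos hb,
              adj_one (h.hK j hj x b hx hb.1 (fun h' => hbx h'.symm) hc hb.2)]
          · rw [if_neg hb, if_neg hb]
      simp only [hterm]
      rw [Finset.sum_sub_distrib, Finset.sum_ite_eq']
      simp [sz]
    · rw [if_neg hc]
      apply Finset.sum_eq_zero
      intro b _
      by_cases hb : b ≠ w ∧ h.c b = j
      · rw [if_pos hb, adj_zero]
        intro hadj
        exact hc ((h.hc x b hx hb.1 hadj).trans hb.2)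
      · rw [if_neg hb]

/-- The bilinear form. -/
lemma Q_add_smul (G : SimpleGraph V) (v u : EuclideanSpace ℝ V) (t : ℝ) :
    Q (adj G) (v + t • u) = Q (adj G) v + 2 * t * ∑ a, v a * ∑ b, adj G a b * u b
      + t ^ 2 * ∑ a, u a * ∑ b, adj G a b * u b := by
  have hsw : ∑ a, v a * ∑ b, adj G a b * u b = ∑ a, ∑ b, adj G a b * u a * v b := by
    simp only [Finset.mul_sum]
    rw [Finset.sum_comm]
    apply Finset.sum_congr rfl
    intro a _
    apply Finset.sum_congr rfl
    intro b _
    rw [adj_symm G b a]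
    ring
  have hsw2 : ∑ a, v a * ∑ b, adj G a b * u b = ∑ a, ∑ b, adj G a b * v a * u b := by
    simp only [Finset.mul_sum]
    apply Finset.sum_congr rfl
    intro a _
    apply Finset.sum_congr rfl
    intro b _
    ring
  have e3 : ∑ a, u a * ∑ b, adj G a b * u b = ∑ a, ∑ b, adj G a b * u a * u b := by
    simp only [Finset.mul_sum]
    apply Finset.sum_congr rfl
    intro a _
    apply Finset.sum_congr rfl
    intro b _
    ring
  have expand : Q (adj G) (v + t • u) = Q (adj G) v + t * ∑ a, ∑ b, adj G a b * v a * u b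
      + t * ∑ a, ∑ b, adj G a b * u a * v b + t ^ 2 * ∑ a, ∑ b, adj G a b * u a * u b := by
    unfold Q
    simp only [Finset.mul_sum, ← Finset.sum_add_distrib]
    apply Finset.sum_congr rfl
    intro a _
    apply Finset.sum_congr rfl
    intro b _
    simp only [PiLp.add_apply, PiLp.smul_apply, smul_eq_mul]
    ring
  rw [expand, ← hsw, ← hsw2, e3]
  ring

/-- Adding a fully joined clique to a test vector. -/
lemma add_clique {G : SimpleGraph V} {w : V} (h : Hub G w ι) (j : ι) (hj : ¬ h.P j)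
    (hfull : ∀ u, u ≠ w → h.c u = j → G.Adj w u) (v : EuclideanSpace ℝ V)
    (hv : ∀ u, u ≠ w → h.c u = j → v u = 0) (hvw : v w = 1) (ζ x : ℝ) :
    Q (adj G) (v + (-(ζ / sz h j)) • one h j) + x * ‖v + (-(ζ / sz h j)) • one h j‖ ^ 2
      = Q (adj G) v + x * ‖v‖ ^ 2 - 2 * ζ + ζ ^ 2 * (1 + (x - 1) / sz h j) := by
  have ha := sz_ge_one h j
  have ha0 : sz h j ≠ 0 := by linarith
  rw [Q_add_smul]
  have e1 : ∑ a, v a * ∑ b, adj G a b * one h j b = sz h j := by
    simp only [adj_one_sum h j hj hfull]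
    rw [Finset.sum_eq_single w]
    · rw [if_pos rfl, hvw, one_mul]
    · intro a _ haw
      rw [if_neg haw]
      by_cases hc : h.c a = j
      · rw [hv a haw hc, zero_mul]
      · rw [if_neg hc, mul_zero]
    · simp
  have e2 : ∑ a, one h j a * ∑ b, adj G a b * one h j b = sz h j * (sz h j - 1) := by
    simp only [adj_one_sum h j hj hfull]
    have : ∀ a, one h j a * (if a = w then sz h j else if h.c a = j then sz h j - 1 else 0)
        = (if a ≠ w ∧ h.c a = j then (1:ℝ) else 0) * (sz h j - 1) := by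
      intro a
      rw [one_apply]
      by_cases hb : a ≠ w ∧ h.c a = j
      · rw [if_pos hb, if_neg hb.1, if_pos hb.2]
      · rw [if_neg hb]; ring
    simp only [this]
    rw [← Finset.sum_mul]
    rfl
  have e3 : ‖v + (-(ζ / sz h j)) • one h j‖ ^ 2 = ‖v‖ ^ 2 + (ζ / sz h j) ^ 2 * sz h j := by
    rw [norm_sq_sum, norm_sq_sum]
    have : ∀ u, (v + (-(ζ / sz h j)) • one h j) u ^ 2
        = v u ^ 2 + (ζ / sz h j) ^ 2 * (if u ≠ w ∧ h.c u = j then (1:ℝ) else 0) := by
      intro u
      simp only [PiLp.add_apply, PiLp.smul_apply, smul_eq_mul, one_apply]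
      by_cases hb : u ≠ w ∧ h.c u = j
      · rw [if_pos hb, hv u hb.1 hb.2]; ring
      · rw [if_neg hb]; ring
    simp only [this]
    rw [Finset.sum_add_distrib, ← Finset.mul_sum]
    rfl
  rw [e1, e2, e3]
  field_simp
  ring

lemma inner_one {G : SimpleGraph V} {w : V} (h : Hub G w ι) (j : ι) (hj : ¬ h.P j)
    {v : EuclideanSpace ℝ V} (hv : InU h v) (v0 : EuclideanSpace ℝ V) (t : ℝ) :
    inner ℝ (v0 + t • one h j) v = inner ℝ v0 v := by
  rw [inner_add_left, inner_smul_left]
  have : inner ℝ (one h j) v = 0 := by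
    rw [inner_sum]
    refine Eq.trans ?_ (hv.hK j hj)
    apply Finset.sum_congr rfl
    intro u _
    rw [one_apply]
    split_ifs <;> simp
  rw [this, mul_zero, add_zero]

end H78NE
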