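import Mathlib

set_option linter.unusedSectionVars false

namespace H78NE

open Matrix Finset

variable {V : Type*} [Fintype V] [DecidableEq V]

/-- The cube of the negative part. -/
noncomputable def cub (t : ℝ) : ℝ := (max (-t) 0) ^ 3

lemma cub_nonneg (t : ℝ) : 0 ≤ cub t := by
  unfold cub; positivity

lemma cub_anti {s t : ℝ} (h : s ≤ t) : cub t ≤ cub s := by
  unfold cub
  apply pow_le_pow_left₀ (le_max_right _ _)
  exact max_le_max (by linarith) le_rfl

lemma cub_neg {x : ℝ} (hx : 0 ≤ x) : cub (-x) = x ^ 3 := by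
  unfold cub
  rw [neg_neg, max_eq_left hx]

lemma cub_ge {t x : ℝ} (hx : 0 ≤ x) (h : t ≤ -x) : x ^ 3 ≤ cub t := by
  rw [← cub_neg hx]; exact cub_anti h

/-- The properties of the functions used. -/
structure Good (φ : ℝ → ℝ) : Prop where
  conv : ConvexOn ℝ Set.univ φ
  nn : ∀ t, 0 ≤ φ t
  anti : ∀ s t : ℝ, s ≤ t → φ t ≤ φ s
  one : φ (-1) = 1
  zero : ∀ t : ℝ, 0 ≤ t → φ t = 0

lemma cub_convex : ConvexOn ℝ Set.univ cub := by
  have h1 : ConvexOn ℝ Set.univ (fun t : ℝ => -t) :=
    (LinearMap.convexOn (-(LinearMap.id : ℝ →ₗ[ℝ] ℝ)) convex_univ)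
  have h2 : ConvexOn ℝ Set.univ (fun _ : ℝ => (0:ℝ)) := convexOn_const 0 convex_univ
  have h3 : ConvexOn ℝ Set.univ (fun t : ℝ => max (-t) 0) := h1.sup h2
  have h4 := h3.pow (fun x _ => le_max_right _ _) 3
  exact h4

lemma cub_good : Good cub where
  conv := cub_convex
  nn := cub_nonneg
  anti := fun _ _ h => cub_anti h
  one := by unfold cub; norm_num
  zero := by
    intro t ht
    unfold cub
    rw [max_eq_right (by linarith)]
    norm_num

/-- The sum of the values of a function at the eigenvalues. -/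
noncomputable def phiE (φ : ℝ → ℝ) {A : Matrix V V ℝ} (hA : A.IsHermitian) : ℝ :=
  ∑ i, φ (hA.eigenvalues i)

/-- The quadratic form of a matrix. -/
noncomputable def Q (A : Matrix V V ℝ) (v : EuclideanSpace ℝ V) : ℝ :=
  ∑ a, ∑ b, A a b * v a * v b

lemma Q_eq_inner (A : Matrix V V ℝ) (v : EuclideanSpace ℝ V) :
    Q A v = inner ℝ v (Matrix.toEuclideanLin A v) := by
  unfold Q
  rw [PiLp.inner_apply]
  apply Finset.sum_congr rfl
  intro a _
  simp only [Matrix.toLpLin_apply, Matrix.mulVec, dotProduct]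
  simp only [RCLike.inner_apply, conj_trivial, Finset.sum_mul]
  apply Finset.sum_congr rfl
  intro b _
  ring

lemma Q_smul (A : Matrix V V ℝ) (c : ℝ) (v : EuclideanSpace ℝ V) :
    Q A (c • v) = c ^ 2 * Q A v := by
  rw [Q_eq_inner, Q_eq_inner, map_smul, inner_smul_left, inner_smul_right]
  simp; ring

lemma Q_spectral {A : Matrix V V ℝ} (hA : A.IsHermitian) (v : EuclideanSpace ℝ V) :
    Q A v = ∑ i, hA.eigenvalues i * (inner ℝ (hA.eigenvectorBasis i) v) ^ 2 := by
  rw [Q_eq_inner]
  have hsym : (Matrix.toEuclideanLin A).IsSymmetric :=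
    Matrix.isSymmetric_toEuclideanLin_iff.2 hA
  rw [← OrthonormalBasis.sum_inner_mul_inner (hA.eigenvectorBasis) v _]
  apply Finset.sum_congr rfl
  intro i _
  have h1 : Matrix.toEuclideanLin A (hA.eigenvectorBasis i)
      = hA.eigenvalues i • hA.eigenvectorBasis i := by
    have := hA.mulVec_eigenvectorBasis i
    rw [Matrix.toLpLin_apply, this]
    rfl
  rw [← hsym, h1, inner_smul_left, real_inner_comm]
  simp
  ring

/-- Peierls-type inequality. -/
lemma peierls {φ : ℝ → ℝ} (hφ : Good φ) {A : Matrix V V ℝ} (hA : A.IsHermitian) {ι : Type*} [Fintype ι]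
    (v : ι → EuclideanSpace ℝ V) (hv : Orthonormal ℝ v) :
    ∑ j, φ (Q A (v j)) ≤ phiE φ hA := by
  classical
  have key : ∀ j, φ (Q A (v j)) ≤
      ∑ i, (inner ℝ (hA.eigenvectorBasis i) (v j)) ^ 2 * φ (hA.eigenvalues i) := by
    intro j
    rw [Q_spectral hA]
    have hsum : ∑ i, (inner ℝ (hA.eigenvectorBasis i) (v j)) ^ 2 = 1 := by
      have h := OrthonormalBasis.sum_sq_norm_inner_right (hA.eigenvectorBasis) (v j)
      rw [hv.1 j] at h
      simp only [Real.norm_eq_abs, sq_abs, one_pow] at h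
      exact h
    have h := hφ.conv.map_sum_le (t := Finset.univ)
      (w := fun i => (inner ℝ (hA.eigenvectorBasis i) (v j)) ^ 2)
      (p := fun i => hA.eigenvalues i) (fun i _ => sq_nonneg _) hsum (fun i _ => Set.mem_univ _)
    simp only [smul_eq_mul] at h
    refine le_trans (le_of_eq ?_) h
    congr 1
    apply Finset.sum_congr rfl
    intro i _
    ring
  calc ∑ j, φ (Q A (v j))
      ≤ ∑ j, ∑ i, (inner ℝ (hA.eigenvectorBasis i) (v j)) ^ 2 * φ (hA.eigenvalues i) :=
        Finset.sum_le_sum (fun j _ => key j)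
    _ = ∑ i, (∑ j, (inner ℝ (hA.eigenvectorBasis i) (v j)) ^ 2) * φ (hA.eigenvalues i) := by
        rw [Finset.sum_comm]
        apply Finset.sum_congr rfl
        intro i _
        rw [Finset.sum_mul]
    _ ≤ ∑ i, 1 * φ (hA.eigenvalues i) := by
        apply Finset.sum_le_sum
        intro i _
        apply mul_le_mul_of_nonneg_right _ (hφ.nn _)
        have h := hv.sum_inner_products_le (x := hA.eigenvectorBasis i) (s := Finset.univ)
        rw [(hA.eigenvectorBasis).orthonormal.1 i] at h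
        simp only [Real.norm_eq_abs, sq_abs, one_pow] at h
        refine le_trans (le_of_eq ?_) h
        apply Finset.sum_congr rfl
        intro j _
        rw [real_inner_comm]
    _ = phiE φ hA := by simp [phiE]

lemma orthonormal_sum {E : Type*} [NormedAddCommGroup E] [InnerProductSpace ℝ E]
    {ι κ : Type*} {u : ι → E} {v : κ → E} (hu : Orthonormal ℝ u) (hv : Orthonormal ℝ v)
    (huv : ∀ i j, inner ℝ (u i) (v j) = 0) : Orthonormal ℝ (Sum.elim u v) := by
  constructor
  · rintro (i | i)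
    · exact hu.1 i
    · exact hv.1 i
  · rintro (i | i) (j | j) hij
    · exact hu.2 (fun h => hij (by rw [h]))
    · exact huv i j
    · simp only [Sum.elim_inl, Sum.elim_inr]
      rw [real_inner_comm]; exact huv j i
    · exact hv.2 (fun h => hij (by rw [h]))

/-- Two-level flag inequality. -/
lemma flag {φ : ℝ → ℝ} (hφ : Good φ) {A : Matrix V V ℝ} (hA : A.IsHermitian) {c x : ℝ}
    (U W : Submodule ℝ (EuclideanSpace ℝ V)) (hWU : W ≤ U)
    (y : EuclideanSpace ℝ V) (hy0 : y ≠ 0) (hy : Q A y ≤ -x * ‖y‖ ^ 2)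
    (hyU : ∀ u ∈ U, inner ℝ y u = 0)
    (hU : ∀ u ∈ U, Q A u ≤ -‖u‖ ^ 2) (hW : ∀ u ∈ W, Q A u ≤ -c * ‖u‖ ^ 2) :
    φ (-x) + (Module.finrank ℝ W : ℝ) * φ (-c)
      + ((Module.finrank ℝ U : ℝ) - (Module.finrank ℝ W : ℝ)) ≤ phiE φ hA := by
  classical
  set S : Submodule ℝ (EuclideanSpace ℝ V) := Wᗮ ⊓ U with hS
  have hdim : Module.finrank ℝ W + Module.finrank ℝ S = Module.finrank ℝ U :=
    Submodule.finrank_add_inf_finrank_orthogonal hWU
  let b1 := stdOrthonormalBasis ℝ W
  let b2 := stdOrthonormalBasis ℝ S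
  let u1 : Fin (Module.finrank ℝ W) → EuclideanSpace ℝ V := fun i => (b1 i : EuclideanSpace ℝ V)
  let u2 : Fin (Module.finrank ℝ S) → EuclideanSpace ℝ V := fun i => (b2 i : EuclideanSpace ℝ V)
  have hu1 : Orthonormal ℝ u1 := by
    have := b1.orthonormal.comp_linearIsometry W.subtypeₗᵢ
    exact this
  have hu2 : Orthonormal ℝ u2 := by
    have := b2.orthonormal.comp_linearIsometry S.subtypeₗᵢ
    exact this
  have h12 : ∀ i j, inner ℝ (u1 i) (u2 j) = 0 := by
    intro i j
    have h2 : (b2 j : EuclideanSpace ℝ V) ∈ Wᗮ := ((b2 j).2).1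
    exact (Submodule.mem_orthogonal W _).1 h2 _ (b1 i).2
  let y0 : Unit → EuclideanSpace ℝ V := fun _ => (‖y‖⁻¹ : ℝ) • y
  have hyn : ‖y‖ ≠ 0 := norm_ne_zero_iff.2 hy0
  have hy0' : Orthonormal ℝ y0 := by
    constructor
    · intro i
      simp only [y0]
      rw [norm_smul, norm_inv, norm_norm, inv_mul_cancel₀ hyn]
    · intro i j hij
      exact absurd (Subsingleton.elim i j) hij
  have hfam := orthonormal_sum hy0' (orthonormal_sum hu1 hu2 h12) (by
    intro i j
    have hmem : (Sum.elim u1 u2 j) ∈ U := by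
      rcases j with j | j
      · exact hWU (b1 j).2
      · exact ((b2 j).2).2
    simp only [y0]
    rw [inner_smul_left, hyU _ hmem, mul_zero])
  have h := peierls hφ hA _ hfam
  rw [Fintype.sum_sum_type, Fintype.sum_sum_type] at h
  have e0 : φ (-x) ≤ ∑ i : Unit, φ (Q A (Sum.elim y0 (Sum.elim u1 u2) (Sum.inl i))) := by
    simp only [Sum.elim_inl, Finset.univ_unique, Finset.sum_singleton]
    apply hφ.anti
    simp only [y0]
    rw [Q_smul]
    have hpos : 0 < ‖y‖ ^ 2 := by positivity
    have : (‖y‖⁻¹) ^ 2 * Q A y ≤ (‖y‖⁻¹) ^ 2 * (-x * ‖y‖ ^ 2) :=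
      mul_le_mul_of_nonneg_left hy (by positivity)
    refine this.trans (le_of_eq ?_)
    field_simp
  have e1 : (Module.finrank ℝ W : ℝ) * φ (-c) ≤
      ∑ i : Fin (Module.finrank ℝ W),
        φ (Q A (Sum.elim y0 (Sum.elim u1 u2) (Sum.inr (Sum.inl i)))) := by
    have : ∀ i : Fin (Module.finrank ℝ W), φ (-c) ≤
        φ (Q A (Sum.elim y0 (Sum.elim u1 u2) (Sum.inr (Sum.inl i)))) := by
      intro i
      simp only [Sum.elim_inl, Sum.elim_inr]
      apply hφ.anti
      have := hW _ (b1 i).2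
      have hn : ‖((b1 i : W) : EuclideanSpace ℝ V)‖ = 1 := hu1.1 i
      rw [hn] at this
      simpa using this
    calc (Module.finrank ℝ W : ℝ) * φ (-c) = ∑ i : Fin (Module.finrank ℝ W), φ (-c) := by
          simp
      _ ≤ _ := Finset.sum_le_sum (fun i _ => this i)
  have e2 : (Module.finrank ℝ S : ℝ) ≤
      ∑ i : Fin (Module.finrank ℝ S),
        φ (Q A (Sum.elim y0 (Sum.elim u1 u2) (Sum.inr (Sum.inr i)))) := by
    have : ∀ i : Fin (Module.finrank ℝ S), φ (-1) ≤
        φ (Q A (Sum.elim y0 (Sum.elim u1 u2) (Sum.inr (Sum.inr i)))) := by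
      intro i
      simp only [Sum.elim_inr]
      apply hφ.anti
      have := hU _ ((b2 i).2).2
      have hn : ‖((b2 i : S) : EuclideanSpace ℝ V)‖ = 1 := hu2.1 i
      rw [hn] at this
      simpa using this
    calc (Module.finrank ℝ S : ℝ) = ∑ i : Fin (Module.finrank ℝ S), φ (-1) := by
          simp [hφ.one]
      _ ≤ _ := Finset.sum_le_sum (fun i _ => this i)
  have hd : (Module.finrank ℝ U : ℝ) - (Module.finrank ℝ W : ℝ) = (Module.finrank ℝ S : ℝ) := by
    rw [← hdim]; push_cast; ring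
  rw [hd]
  linarith

/-- Extension of a vector along a map. -/
noncomputable def ext {W : Type*} [Fintype W] (f : W → V) (v : EuclideanSpace ℝ W) :
    EuclideanSpace ℝ V :=
  WithLp.toLp 2 (fun x => ∑ w, if f w = x then v w else 0)

lemma ext_apply {W : Type*} [Fintype W] (f : W → V) (v : EuclideanSpace ℝ W) (x : V) :
    ext f v x = ∑ w, if f w = x then v w else 0 := rfl

lemma sum_ext {W : Type*} [Fintype W] (f : W → V) (v : EuclideanSpace ℝ W) (g : V → ℝ) :
    ∑ x, g x * ext f v x = ∑ w, g (f w) * v w := by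
  simp only [ext_apply, Finset.mul_sum]
  rw [Finset.sum_comm]
  apply Finset.sum_congr rfl
  intro w _
  simp only [mul_ite, mul_zero]
  rw [Finset.sum_ite_eq]
  simp

lemma ext_apply_f {W : Type*} [Fintype W] {f : W → V} (hf : Function.Injective f)
    (v : EuclideanSpace ℝ W) (w : W) : ext f v (f w) = v w := by
  classical
  rw [ext_apply]
  have : ∀ w', (if f w' = f w then v w' else 0) = if w' = w then v w' else 0 := by
    intro w'
    by_cases h : w' = w
    · simp [h]
    · rw [if_neg h, if_neg (fun h' => h (hf h'))]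
  simp only [this]
  rw [Finset.sum_ite_eq']
  simp

lemma ext_apply_off {W : Type*} [Fintype W] {f : W → V}
    (v : EuclideanSpace ℝ W) {x : V} (hx : ∀ w, f w ≠ x) : ext f v x = 0 := by
  rw [ext_apply]
  apply Finset.sum_eq_zero
  intro w _
  rw [if_neg (hx w)]

lemma inner_sum (u v : EuclideanSpace ℝ V) : inner ℝ u v = ∑ x, u x * v x := by
  rw [PiLp.inner_apply]
  apply Finset.sum_congr rfl
  intro x _
  simp [mul_comm]

lemma norm_sq_sum (u : EuclideanSpace ℝ V) : ‖u‖ ^ 2 = ∑ x, u x ^ 2 := by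
  rw [← real_inner_self_eq_norm_sq, inner_sum]
  apply Finset.sum_congr rfl
  intro x _
  ring

lemma ext_inner {W : Type*} [Fintype W] [DecidableEq W] {f : W → V} (hf : Function.Injective f)
    (u v : EuclideanSpace ℝ W) : inner ℝ (ext f u) (ext f v) = inner ℝ u v := by
  rw [inner_sum, inner_sum, sum_ext]
  apply Finset.sum_congr rfl
  intro w _
  rw [ext_apply_f hf]

lemma ext_norm {W : Type*} [Fintype W] [DecidableEq W] {f : W → V} (hf : Function.Injective f)
    (u : EuclideanSpace ℝ W) : ‖ext f u‖ ^ 2 = ‖u‖ ^ 2 := by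
  rw [← real_inner_self_eq_norm_sq, ext_inner hf, real_inner_self_eq_norm_sq]

lemma Q_ext {W : Type*} [Fintype W] [DecidableEq W] (A : Matrix V V ℝ) (f : W → V)
    (v : EuclideanSpace ℝ W) : Q A (ext f v) = Q (A.submatrix f f) v := by
  unfold Q
  have h1 : ∀ a, ∑ b, A a b * ext f v a * ext f v b
      = (∑ w, A a (f w) * v w) * ext f v a := by
    intro a
    rw [sum_ext f v (fun b => A a b * ext f v a), Finset.sum_mul]
    apply Finset.sum_congr rfl
    intro w _
    ring
  simp only [h1]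
  rw [sum_ext f v (fun a => ∑ w, A a (f w) * v w)]
  apply Finset.sum_congr rfl
  intro w _
  rw [Finset.sum_mul]
  apply Finset.sum_congr rfl
  intro w' _
  simp only [Matrix.submatrix_apply]
  ring

lemma Q_eigenvector {A : Matrix V V ℝ} (hA : A.IsHermitian) (i : V) :
    Q A (hA.eigenvectorBasis i) = hA.eigenvalues i := by
  rw [Q_spectral hA]
  rw [Finset.sum_eq_single i]
  · rw [real_inner_self_eq_norm_sq, (hA.eigenvectorBasis).orthonormal.1 i]
    simp
  · intro j _ hj
    rw [(hA.eigenvectorBasis).orthonormal.2 hj]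
    simp
  · simp

/-- Superadditivity over two disjoint principal submatrices. -/
lemma superadd {φ : ℝ → ℝ} (hφ : Good φ) {A : Matrix V V ℝ} (hA : A.IsHermitian)
    {W₁ W₂ : Type*} [Fintype W₁] [Fintype W₂] [DecidableEq W₁] [DecidableEq W₂]
    {f : W₁ → V} {g : W₂ → V} (hf : Function.Injective f) (hg : Function.Injective g)
    (hfg : ∀ i j, f i ≠ g j)
    (h1 : (A.submatrix f f).IsHermitian) (h2 : (A.submatrix g g).IsHermitian) :
    phiE φ h1 + phiE φ h2 ≤ phiE φ hA := by
  have o1 : Orthonormal ℝ (fun i => ext f (h1.eigenvectorBasis i)) := by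
    constructor
    · intro i
      have := ext_norm hf (h1.eigenvectorBasis i)
      rw [(h1.eigenvectorBasis).orthonormal.1 i] at this
      have h0 : 0 ≤ ‖ext f (h1.eigenvectorBasis i)‖ := norm_nonneg _
      nlinarith
    · intro i j hij
      simp only
      rw [ext_inner hf]
      exact (h1.eigenvectorBasis).orthonormal.2 hij
  have o2 : Orthonormal ℝ (fun i => ext g (h2.eigenvectorBasis i)) := by
    constructor
    · intro i
      have := ext_norm hg (h2.eigenvectorBasis i)
      rw [(h2.eigenvectorBasis).orthonormal.1 i] at this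
      have h0 : 0 ≤ ‖ext g (h2.eigenvectorBasis i)‖ := norm_nonneg _
      nlinarith
    · intro i j hij
      simp only
      rw [ext_inner hg]
      exact (h2.eigenvectorBasis).orthonormal.2 hij
  have o := orthonormal_sum o1 o2 (by
    intro i j
    rw [inner_sum, sum_ext]
    apply Finset.sum_eq_zero
    intro w _
    rw [ext_apply_off _ (fun w' => hfg w' w), zero_mul])
  have h := peierls hφ hA _ o
  rw [Fintype.sum_sum_type] at h
  simp only [Sum.elim_inl, Sum.elim_inr, Q_ext] at h
  simp only [Q_eigenvector] at h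
  exact h

end H78NE
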