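import Pool.Agent.Helper78.NE.CasesP

set_option linter.unusedSectionVars false

namespace H78NE

open SimpleGraph

universe u

variable {V : Type u}

/-- A connected set meeting both sides of a cut contains a crossing edge. -/
lemma exists_cross {G : SimpleGraph V} {S : Set V} (hS : (G.induce S).Connected) (T : Set V)
    {a b : V} (ha : a ∈ S) (haT : a ∈ T) (hb : b ∈ S) (hbT : b ∉ T) :
    ∃ x y, x ∈ S ∧ x ∈ T ∧ y ∈ S ∧ y ∉ T ∧ G.Adj x y := by
  obtain ⟨p⟩ := hS.preconnected ⟨a, ha⟩ ⟨b, hb⟩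
  obtain ⟨d, -, h1, h2⟩ := p.exists_boundary_dart {z | z.1 ∈ T} haT hbT
  exact ⟨d.fst.1, d.snd.1, d.fst.2, h1, d.snd.2, h2, d.adj⟩

/-- Small connected noncomplete sets are paths on three vertices. -/
lemma small_path {G : SimpleGraph V} {D : Finset V} (hD : (G.induce (D : Set V)).Connected)
    (hc : D.card ≤ 3) {p s : V} (hp : p ∈ D) (hs : s ∈ D) (hps : p ≠ s) (nps : ¬ G.Adj p s) :
    ∃ q ∈ D, p ≠ q ∧ q ≠ s ∧ G.Adj p q ∧ G.Adj q s ∧ ∀ u ∈ D, u = p ∨ u = q ∨ u = s := by
  classical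
  obtain ⟨x, q, -, hx, hq, hqp, hadj⟩ := exists_cross hD {p} hp rfl hs (fun h => hps h.symm)
  have hxp : x = p := hx
  subst hxp
  have hqs : q ≠ s := by
    rintro rfl; exact nps hadj
  have hqx : x ≠ q := fun h => hqp h.symm
  have hsub : ({x, q, s} : Finset V) ⊆ D := by
    intro u hu
    simp only [Finset.mem_insert, Finset.mem_singleton] at hu
    rcases hu with h | h | h
    · rw [h]; exact hp
    · rw [h]; exact hq
    · rw [h]; exact hs
  have hcard : ({x, q, s} : Finset V).card = 3 := by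
    rw [Finset.card_eq_three]
    exact ⟨x, q, s, hqx, hps, hqs, rfl⟩
  have heq : ({x, q, s} : Finset V) = D := Finset.eq_of_subset_of_card_le hsub (by omega)
  have hall : ∀ u ∈ D, u = x ∨ u = q ∨ u = s := by
    intro u hu
    rw [← heq] at hu
    simpa using hu
  obtain ⟨z, r, -, hz, hr, hrs, hadj2⟩ := exists_cross hD {s} hs rfl hp (fun h => hps h)
  have hzs : z = s := hz
  subst hzs
  refine ⟨q, hq, hqx, hqs, hadj, ?_, hall⟩
  rcases hall r hr with h | h | h
  · rw [h] at hadj2; exact absurd hadj2.symm nps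
  · rw [h] at hadj2; exact hadj2.symm
  · exact absurd h hrs

/-- The vertex set of a component of the graph induced on a set. -/
def DD (G : SimpleGraph V) (S : Set V) (C : (G.induce S).ConnectedComponent) : Set V :=
  {v | ∃ h : v ∈ S, (G.induce S).connectedComponentMk ⟨v, h⟩ = C}

lemma DD_conn (G : SimpleGraph V) (S : Set V) (C : (G.induce S).ConnectedComponent) :
    (G.induce (DD G S C)).Connected := by
  let f : C.toSimpleGraph →g G.induce (DD G S C) :=
    { toFun := fun x => ⟨x.1.1, ⟨x.1.2, x.2⟩⟩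
      map_rel' := fun {a b} h => h }
  apply Connected.map f
  · rintro ⟨v, hv, hC⟩
    exact ⟨⟨⟨v, hv⟩, hC⟩, rfl⟩
  · exact C.connected_toSimpleGraph

lemma DD_adj {G : SimpleGraph V} {S : Set V} {C : (G.induce S).ConnectedComponent} {x y : V}
    (hx : x ∈ DD G S C) (hy : y ∈ S) (hxy : G.Adj x y) : y ∈ DD G S C := by
  obtain ⟨hxS, hxC⟩ := hx
  refine ⟨hy, ?_⟩
  rw [← hxC]
  apply ConnectedComponent.connectedComponentMk_eq_of_adj
  exact hxy.symm

/-- The sets that can be split off. -/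
def Rem (G : SimpleGraph V) (B : Finset V) : Prop :=
  4 ≤ B.card ∧ (G.induce (B : Set V)).Connected ∧ (∃ a ∈ B, ∃ b ∈ B, a ≠ b ∧ ¬ G.Adj a b) ∧
    ((∀ v, v ∈ B) ∨ (G.induce ((B : Set V)ᶜ)).Connected)

theorem exists_hub [Fintype V] {G : SimpleGraph V} (hG : G.Connected) (hne : G ≠ ⊤)
    (hcard : 4 ≤ Fintype.card V) :
    ∃ B : Finset V, 4 ≤ B.card ∧ (∃ a ∈ B, ∃ b ∈ B, a ≠ b ∧ ¬ G.Adj a b) ∧
      ((∀ v, v ∈ B) ∨ (G.induce ((B : Set V)ᶜ)).Connected) ∧
      ∃ (w : ↥(B : Set V)) (ι : Type u) (_ : Fintype ι),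
        Nonempty (Hub (G.induce (B : Set V)) w ι) := by
  classical
  have hex : ∃ B : Finset V, Rem G B := by
    refine ⟨Finset.univ, ?_, ?_, ?_, Or.inl (fun v => Finset.mem_univ v)⟩
    · rw [Finset.card_univ]; exact hcard
    · rw [Finset.coe_univ]
      exact (Iso.connected_iff (induceUnivIso G)).2 hG
    · by_contra hcon
      apply hne
      push Not at hcon
      ext a b
      simp only [SimpleGraph.top_adj]
      exact ⟨fun h => h.ne, fun h => hcon a (Finset.mem_univ a) b (Finset.mem_univ b) h⟩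
  have hexn : ∃ n, ∃ B : Finset V, Rem G B ∧ B.card = n := by
    obtain ⟨B, hB⟩ := hex
    exact ⟨_, B, hB, rfl⟩
  obtain ⟨B, hB, hBn⟩ := Nat.find_spec hexn
  have hmin : ∀ B' : Finset V, Rem G B' → B.card ≤ B'.card := by
    intro B' hB'
    rw [hBn]
    exact Nat.find_min' hexn ⟨B', hB', rfl⟩
  obtain ⟨hB4, hBc, hBn', hBr⟩ := hB
  obtain ⟨a0, ha0, b0, hb0, hab0, nab0⟩ := hBn'
  -- choice of the hub
  have hw : ∃ w ∈ B, (∀ v, v ∈ B) ∨ ∃ r, r ∉ B ∧ G.Adj w r := by
    by_cases hall : ∀ v, v ∈ B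
    · exact ⟨a0, ha0, Or.inl hall⟩
    · push Not at hall
      obtain ⟨v, hv⟩ := hall
      obtain ⟨p⟩ := hG.preconnected a0 v
      obtain ⟨d, -, h1, h2⟩ := p.exists_boundary_dart {z | z ∈ B} ha0 hv
      exact ⟨d.fst, h1, Or.inr ⟨d.snd, h2, d.adj⟩⟩
  obtain ⟨w, hwB, hwr⟩ := hw
  set S : Set V := {v | v ∈ B ∧ v ≠ w} with hS
  have hwS : w ∉ S := fun h => h.2 rfl
  -- every component has a neighbour of w
  have hn : ∀ C : (G.induce S).ConnectedComponent, ∃ x ∈ DD G S C, G.Adj w x := by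
    intro C
    obtain ⟨⟨a, ha⟩⟩ := (DD_conn G S C).nonempty
    obtain ⟨x, y, -, hx, hy, hyT, hadj⟩ := exists_cross hBc (DD G S C) (a := a) (b := w)
      ha.1.1 ha hwB (fun h => hwS h.1)
    refine ⟨x, hx, ?_⟩
    by_cases hyw : y = w
    · rw [hyw] at hadj; exact hadj.symm
    · exact absurd (DD_adj hx ⟨hy, hyw⟩ hadj) hyT
  -- complements of components are connected
  have hcompl : ∀ C : (G.induce S).ConnectedComponent, (G.induce ((DD G S C)ᶜ)).Connected := by
    intro C
    have hsing : (G.induce ({w} : Set V)).Preconnected := by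
      have : Subsingleton ↥({w} : Set V) := by
        constructor
        rintro ⟨a, ha⟩ ⟨b, hb⟩
        apply Subtype.ext
        exact (Set.mem_singleton_iff.1 ha).trans (Set.mem_singleton_iff.1 hb).symm
      exact Preconnected.of_subsingleton
    have hwc : w ∈ (DD G S C)ᶜ := fun h => hwS h.1
    apply induce_connected_of_patches (s := (DD G S C)ᶜ) w hwc
    intro v hv
    by_cases hvB : v ∈ B
    · by_cases hvw : v = w
      · subst hvw
        exact ⟨{v}, by
          rintro z hz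
          rw [Set.mem_singleton_iff.1 hz]
          exact fun h => hwS h.1, rfl, rfl, Reachable.refl _⟩
      · have hvS : v ∈ S := ⟨hvB, hvw⟩
        set C' := (G.induce S).connectedComponentMk ⟨v, hvS⟩ with hC'
        have hvC' : v ∈ DD G S C' := ⟨hvS, rfl⟩
        have hne' : C' ≠ C := by
          intro h
          exact hv (h ▸ hvC')
        obtain ⟨x, hx, hadj⟩ := hn C'
        have hconn := connected_induce_union (G := G) (s := DD G S C') (t := {w})
          (DD_conn G S C').preconnected hsing hx rfl hadj.symm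
        refine ⟨DD G S C' ∪ {w}, ?_, Or.inr rfl, Or.inl hvC', hconn.preconnected _ _⟩
        rintro z (hz | hz)
        · intro hz2
          obtain ⟨hz1, hz3⟩ := hz
          obtain ⟨hz4, hz5⟩ := hz2
          exact hne' (hz3.symm.trans hz5)
        · rw [Set.mem_singleton_iff.1 hz]
          exact fun h => hwS h.1
    · rcases hBr with hall | hR
      · exact absurd (hall v) hvB
      · rcases hwr with hall | ⟨r, hr, hadj⟩
        · exact absurd (hall v) hvB
        · have hconn := connected_induce_union (G := G) (s := (B : Set V)ᶜ) (t := {w})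
            hR.preconnected hsing (by simpa using hr) rfl hadj.symm
          refine ⟨(B : Set V)ᶜ ∪ {w}, ?_, Or.inr rfl, Or.inl (by simpa using hvB),
            hconn.preconnected _ _⟩
          rintro z (hz | hz)
          · intro hz2
            exact hz (Finset.mem_coe.2 hz2.1.1)
          · rw [Set.mem_singleton_iff.1 hz]
            exact fun h => hwS h.1
  -- components are cliques or have at most three vertices
  have hsmall : ∀ C : (G.induce S).ConnectedComponent,
      (∃ a ∈ DD G S C, ∃ b ∈ DD G S C, a ≠ b ∧ ¬ G.Adj a b) →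
      (Set.toFinset (DD G S C)).card ≤ 3 := by
    intro C hC
    by_contra hcon
    push Not at hcon
    have hrem : Rem G (Set.toFinset (DD G S C)) := by
      refine ⟨hcon, ?_, ?_, Or.inr ?_⟩
      · rw [Set.coe_toFinset]; exact DD_conn G S C
      · obtain ⟨a, ha, b, hb, hab, nab⟩ := hC
        exact ⟨a, Set.mem_toFinset.2 ha, b, Set.mem_toFinset.2 hb, hab, nab⟩
      · rw [Set.coe_toFinset]; exact hcompl C
    have h1 := hmin _ hrem
    have h2 : Set.toFinset (DD G S C) ⊂ B := by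
      rw [Finset.ssubset_iff_of_subset]
      · refine ⟨w, hwB, ?_⟩
        rw [Set.mem_toFinset]
        exact fun h => hwS h.1
      · intro z hz
        rw [Set.mem_toFinset] at hz
        exact hz.1.1
    exact absurd (Finset.card_lt_card h2) (not_lt.2 h1)
  refine ⟨B, hB4, ⟨a0, ha0, b0, hb0, hab0, nab0⟩, hBr, ⟨w, hwB⟩,
    (G.induce S).ConnectedComponent, Fintype.ofFinite _, ?_⟩
  -- the structure
  obtain ⟨v0, hv0B, hv0w⟩ : ∃ v ∈ B, v ≠ w := by
    by_cases h : a0 = w
    · exact ⟨b0, hb0, fun h' => hab0 (h.trans h'.symm)⟩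
    · exact ⟨a0, ha0, h⟩
  let C0 : (G.induce S).ConnectedComponent :=
    (G.induce S).connectedComponentMk ⟨v0, hv0B, hv0w⟩
  let P : (G.induce S).ConnectedComponent → Prop := fun C =>
    ∃ a ∈ DD G S C, ∃ b ∈ DD G S C, a ≠ b ∧ ¬ G.Adj a b
  have hpath : ∀ C : (G.induce S).ConnectedComponent, ∃ p q s : ↥(B : Set V), P C →
      (p.1 ∈ DD G S C ∧ q.1 ∈ DD G S C ∧ s.1 ∈ DD G S C ∧ p ≠ q ∧ q ≠ s ∧ p ≠ s ∧
        G.Adj p.1 q.1 ∧ G.Adj q.1 s.1 ∧ ¬ G.Adj p.1 s.1 ∧
        ∀ u ∈ DD G S C, u = p.1 ∨ u = q.1 ∨ u = s.1) := by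
    intro C
    by_cases hP : P C
    · obtain ⟨p, hp, s, hs, hps, nps⟩ := hP
      have hconn : (G.induce ((Set.toFinset (DD G S C) : Finset V) : Set V)).Connected := by
        rw [Set.coe_toFinset]; exact DD_conn G S C
      obtain ⟨q, hq, hpq, hqs, apq, aqs, hall⟩ := small_path hconn
        (hsmall C ⟨p, hp, s, hs, hps, nps⟩) (Set.mem_toFinset.2 hp) (Set.mem_toFinset.2 hs)
        hps nps
      have hq' : q ∈ DD G S C := Set.mem_toFinset.1 hq
      refine ⟨⟨p, hp.1.1⟩, ⟨q, hq'.1.1⟩, ⟨s, hs.1.1⟩, fun _ => ⟨hp, hq', hs, ?_, ?_, ?_, apq,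
        aqs, nps, fun u hu => hall u (Set.mem_toFinset.2 hu)⟩⟩
      · exact fun h => hpq (congrArg Subtype.val h)
      · exact fun h => hqs (congrArg Subtype.val h)
      · exact fun h => hps (congrArg Subtype.val h)
    · exact ⟨⟨w, hwB⟩, ⟨w, hwB⟩, ⟨w, hwB⟩, fun h => absurd h hP⟩
  choose p q s hpqs using hpath
  let c : ↥(B : Set V) → (G.induce S).ConnectedComponent := fun u =>
    if h : u.1 ≠ w then (G.induce S).connectedComponentMk ⟨u.1, u.2, h⟩ else C0
  have hcD : ∀ (u : ↥(B : Set V)), u.1 ≠ w → u.1 ∈ DD G S (c u) := by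
    intro u hu
    refine ⟨⟨u.2, hu⟩, ?_⟩
    simp only [c, dif_pos hu]
  have hDc : ∀ (u : ↥(B : Set V)) (C : (G.induce S).ConnectedComponent), u.1 ∈ DD G S C →
      c u = C := by
    intro u C hu
    obtain ⟨h1, h2⟩ := hu
    simp only [c, dif_pos h1.2]
    exact h2
  have hne_of : ∀ (u : ↥(B : Set V)), u ≠ ⟨w, hwB⟩ → u.1 ≠ w := by
    intro u hu h
    exact hu (Subtype.ext h)
  have hne_of' : ∀ (u : ↥(B : Set V)) (C : (G.induce S).ConnectedComponent), u.1 ∈ DD G S C →
      u ≠ ⟨w, hwB⟩ := by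
    intro u C hu h
    rw [h] at hu
    exact hwS hu.1
  exact ⟨{
    c := c
    P := P
    p := p
    q := q
    s := s
    hc := by
      intro u v hu hv hadj
      have h1 := hcD u (hne_of u hu)
      exact (hDc v _ (DD_adj h1 ⟨v.2, hne_of v hv⟩ hadj)).symm
    hn := by
      intro C
      obtain ⟨x, hx, hadj⟩ := hn C
      exact ⟨⟨x, hx.1.1⟩, hne_of' _ C hx, hDc _ C hx, hadj⟩
    hK := by
      intro C hP u v hu hv huv cu cv
      have h1 := hcD u (hne_of u hu)
      have h2 := hcD v (hne_of v hv)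
      rw [cu] at h1
      rw [cv] at h2
      by_contra hcon
      exact hP ⟨u.1, h1, v.1, h2, fun h => huv (Subtype.ext h), hcon⟩
    hpw := fun C hP => hne_of' _ C (hpqs C hP).1
    hqw := fun C hP => hne_of' _ C (hpqs C hP).2.1
    hsw := fun C hP => hne_of' _ C (hpqs C hP).2.2.1
    hpq := fun C hP => (hpqs C hP).2.2.2.1
    hqs := fun C hP => (hpqs C hP).2.2.2.2.1
    hps := fun C hP => (hpqs C hP).2.2.2.2.2.1
    cp := fun C hP => hDc _ C (hpqs C hP).1
    cq := fun C hP => hDc _ C (hpqs C hP).2.1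
    cs := fun C hP => hDc _ C (hpqs C hP).2.2.1
    apq := fun C hP => (hpqs C hP).2.2.2.2.2.2.1
    aqs := fun C hP => (hpqs C hP).2.2.2.2.2.2.2.1
    aps := fun C hP => (hpqs C hP).2.2.2.2.2.2.2.2.1
    hall := by
      intro C hP u hu cu
      have h1 := hcD u (hne_of u hu)
      rw [cu] at h1
      rcases (hpqs C hP).2.2.2.2.2.2.2.2.2 u.1 h1 with h | h | h
      · exact Or.inl (Subtype.ext h)
      · exact Or.inr (Or.inl (Subtype.ext h))
      · exact Or.inr (Or.inr (Subtype.ext h)) }⟩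

end H78NE
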