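import Pool.Agent.Helper78.NE.CorrInd
import Pool.Agent.Helper78.NE.Graph

set_option linter.unusedSectionVars false

/-!
The square energies of a connected graph.
-/

namespace H78NE

open Finset Matrix

variable {V : Type*} [Fintype V] [DecidableEq V]

lemma basis_complete {A : Matrix V V ℝ} (hA : A.IsHermitian) (b c : V) :
    ∑ i, hA.eigenvectorBasis i b * hA.eigenvectorBasis i c = if b = c then 1 else 0 := by
  have h := (hA.eigenvectorBasis).sum_repr' (EuclideanSpace.single b (1:ℝ))
  have h2 := congrArg (fun x : EuclideanSpace ℝ V => x c) h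
  simp only [EuclideanSpace.inner_single_right, one_mul, conj_trivial] at h2
  have h3 : (∑ i, hA.eigenvectorBasis i b • hA.eigenvectorBasis i : EuclideanSpace ℝ V) c
      = ∑ i, hA.eigenvectorBasis i b * hA.eigenvectorBasis i c := by
    rw [WithLp.ofLp_sum, Finset.sum_apply]
    rfl
  rw [← h3]
  refine h2.trans ?_
  simp only [PiLp.single_apply]
  by_cases hbc : b = c
  · simp [hbc]
  · rw [if_neg hbc, if_neg (fun h => hbc h.symm)]

lemma basis_ortho {A : Matrix V V ℝ} (hA : A.IsHermitian) (i j : V) :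
    ∑ a, hA.eigenvectorBasis i a * hA.eigenvectorBasis j a = if i = j then 1 else 0 := by
  rw [← inner_sum]
  have h := (orthonormal_iff_ite.1 (hA.eigenvectorBasis).orthonormal) i j
  exact h

lemma basis_eig {A : Matrix V V ℝ} (hA : A.IsHermitian) (i a : V) :
    ∑ b, A a b * hA.eigenvectorBasis i b = hA.eigenvalues i * hA.eigenvectorBasis i a := by
  have h := hA.mulVec_eigenvectorBasis i
  have h2 := congrFun h a
  simp only [Matrix.mulVec, dotProduct, Pi.smul_apply, smul_eq_mul] at h2
  exact h2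

lemma spec_entry {A : Matrix V V ℝ} (hA : A.IsHermitian) (a b : V) :
    A a b = ∑ i, hA.eigenvalues i * (hA.eigenvectorBasis i a * hA.eigenvectorBasis i b) := by
  have h1 : A a b = ∑ c, A a c * (if b = c then 1 else 0) := by simp
  rw [h1]
  simp only [← basis_complete hA, Finset.mul_sum]
  rw [Finset.sum_comm]
  apply Finset.sum_congr rfl; intro i _
  have h2 : ∀ c, A a c * (hA.eigenvectorBasis i b * hA.eigenvectorBasis i c)
      = hA.eigenvectorBasis i b * (A a c * hA.eigenvectorBasis i c) := by intro c; ring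
  simp only [h2]
  rw [← Finset.mul_sum, basis_eig]
  ring

lemma sq_expand {A : Matrix V V ℝ} (hA : A.IsHermitian) (c : V → ℝ) (a b : V) :
    (∑ i, c i * (hA.eigenvectorBasis i a * hA.eigenvectorBasis i b)) ^ 2
      = ∑ i, ∑ j, c i * c j * ((hA.eigenvectorBasis i a * hA.eigenvectorBasis j a)
        * (hA.eigenvectorBasis i b * hA.eigenvectorBasis j b)) := by
  rw [sq, Finset.sum_mul_sum]
  apply Finset.sum_congr rfl; intro i _
  apply Finset.sum_congr rfl; intro j _
  ring

lemma sum_four {f : V → V → V → V → ℝ} :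
    ∑ a, ∑ b, ∑ i, ∑ j, f a b i j = ∑ i, ∑ j, ∑ a, ∑ b, f a b i j := by
  calc ∑ a, ∑ b, ∑ i, ∑ j, f a b i j
      = ∑ a, ∑ i, ∑ b, ∑ j, f a b i j := by
        apply Finset.sum_congr rfl; intro a _; exact Finset.sum_comm
    _ = ∑ i, ∑ a, ∑ b, ∑ j, f a b i j := Finset.sum_comm
    _ = ∑ i, ∑ a, ∑ j, ∑ b, f a b i j := by
        apply Finset.sum_congr rfl; intro i _
        apply Finset.sum_congr rfl; intro a _; exact Finset.sum_comm
    _ = ∑ i, ∑ j, ∑ a, ∑ b, f a b i j := by
        apply Finset.sum_congr rfl; intro i _; exact Finset.sum_comm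

lemma frob {A : Matrix V V ℝ} (hA : A.IsHermitian) (c : V → ℝ) :
    ∑ a, ∑ b, (∑ i, c i * (hA.eigenvectorBasis i a * hA.eigenvectorBasis i b)) ^ 2
      = ∑ i, c i ^ 2 := by
  simp only [sq_expand]
  rw [sum_four]
  have h : ∀ i j, ∑ a, ∑ b, c i * c j * ((hA.eigenvectorBasis i a * hA.eigenvectorBasis j a)
        * (hA.eigenvectorBasis i b * hA.eigenvectorBasis j b))
      = if i = j then c i ^ 2 else 0 := by
    intro i j
    have e : ∑ a, ∑ b, c i * c j * ((hA.eigenvectorBasis i a * hA.eigenvectorBasis j a)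
        * (hA.eigenvectorBasis i b * hA.eigenvectorBasis j b))
        = c i * c j * ((∑ a, hA.eigenvectorBasis i a * hA.eigenvectorBasis j a)
          * (∑ b, hA.eigenvectorBasis i b * hA.eigenvectorBasis j b)) := by
      rw [Finset.sum_mul_sum]
      simp only [Finset.mul_sum]
    rw [e, basis_ortho]
    by_cases hij : i = j
    · rw [if_pos hij, if_pos hij, hij]; ring
    · rw [if_neg hij, if_neg hij]; ring
  simp only [h]
  apply Finset.sum_congr rfl; intro i _
  rw [Finset.sum_ite_eq]
  simp

lemma schur_nonneg {A : Matrix V V ℝ} (hA : A.IsHermitian) (c : V → ℝ) (hc : ∀ i, 0 ≤ c i)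
    {W : V → V → ℝ} (hW : ∀ x, 0 ≤ qf W x) :
    0 ≤ ∑ a, ∑ b, W a b
      * (∑ i, c i * (hA.eigenvectorBasis i a * hA.eigenvectorBasis i b)) ^ 2 := by
  simp only [sq_expand, Finset.mul_sum]
  rw [sum_four]
  apply Finset.sum_nonneg; intro i _
  apply Finset.sum_nonneg; intro j _
  have e : ∑ a, ∑ b, W a b * (c i * c j
      * ((hA.eigenvectorBasis i a * hA.eigenvectorBasis j a)
        * (hA.eigenvectorBasis i b * hA.eigenvectorBasis j b)))
      = c i * c j * qf W (fun a => hA.eigenvectorBasis i a * hA.eigenvectorBasis j a) := by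
    unfold qf
    simp only [Finset.mul_sum]
    apply Finset.sum_congr rfl; intro a _
    apply Finset.sum_congr rfl; intro b _
    ring
  rw [e]
  exact mul_nonneg (mul_nonneg (hc i) (hc j)) (hW _)

lemma Corr.le_one {G : SimpleGraph V} {W : V → V → ℝ} (h : Corr G Finset.univ W) (a b : V) :
    W a b ≤ 1 := by
  have h1 := h.qf_ge (Finset.mem_univ b) (fun u => if u = a then 1 else 0)
  have h2 : (∑ u, W u b * (if u = a then (1:ℝ) else 0)) = W a b := by simp
  have h3 : qf W (fun u => if u = a then 1 else 0) = W a a := by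
    unfold qf
    simp
  rw [h2, h3, h.diag a (Finset.mem_univ a)] at h1
  nlinarith

lemma edge_ineq {w r ε : ℝ} (hw : w < 0) (hε : ε ^ 2 = 1) :
    ph (-w) ≤ (ε - r) ^ 2 - w * r ^ 2 := by
  unfold ph
  have h1 : 0 < 1 - w := by linarith
  have h2 : (ε - r) ^ 2 - w * r ^ 2 - -w / (1 + -w) = ((1 - w) * r - ε) ^ 2 / (1 - w) := by
    have h3 : (1 + -w) = 1 - w := by ring
    rw [h3]
    field_simp
    ring_nf
    rw [hε]
    ring
  have h3 : 0 ≤ ((1 - w) * r - ε) ^ 2 / (1 - w) := by positivity
  linarith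

/-- The key inequality: a correlation matrix bounds both square energies from below. -/
lemma th_le {G : SimpleGraph V} {W : V → V → ℝ} (h : Corr G Finset.univ W) {ε : ℝ}
    (hε : ε ^ 2 = 1) :
    th G W ≤ ∑ i, (min (ε * (adj_herm G).eigenvalues i) 0) ^ 2 := by
  classical
  set hA := adj_herm G with hAdef
  set c : V → ℝ := fun i => max (ε * hA.eigenvalues i) 0 with hc
  have hc0 : ∀ i, 0 ≤ c i := fun i => le_max_right _ _
  set R : V → V → ℝ := fun a b =>
    ∑ i, c i * (hA.eigenvectorBasis i a * hA.eigenvectorBasis i b) with hR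
  have hmin : ∀ i, min (ε * hA.eigenvalues i) 0 = ε * hA.eigenvalues i - c i := by
    intro i
    simp only [hc]
    rcases le_total (ε * hA.eigenvalues i) 0 with h1 | h1
    · rw [min_eq_left h1, max_eq_right h1]; ring
    · rw [min_eq_right h1, max_eq_left h1]; ring
  have hB : ∀ a b, ε * adj G a b - R a b
      = ∑ i, (min (ε * hA.eigenvalues i) 0)
        * (hA.eigenvectorBasis i a * hA.eigenvectorBasis i b) := by
    intro a b
    rw [spec_entry hA a b, Finset.mul_sum]
    simp only [hR]
    rw [← Finset.sum_sub_distrib]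
    apply Finset.sum_congr rfl; intro i _
    rw [hmin i]; ring
  have hsum : ∑ i, (min (ε * hA.eigenvalues i) 0) ^ 2
      = ∑ a, ∑ b, (ε * adj G a b - R a b) ^ 2 := by
    rw [← frob hA]
    apply Finset.sum_congr rfl; intro a _
    apply Finset.sum_congr rfl; intro b _
    rw [hB a b]
  have hsch := schur_nonneg hA c hc0 h.psd
  rw [hsum]
  have hpt : ∀ a b, (if G.Adj a b then ph (-W a b) else 0)
      ≤ (ε * adj G a b - R a b) ^ 2 - W a b * (R a b) ^ 2 := by
    intro a b
    by_cases hab : G.Adj a b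
    · rw [if_pos hab, adj_one hab, mul_one]
      exact edge_ineq (h.neg a (Finset.mem_univ a) b (Finset.mem_univ b) hab) hε
    · rw [if_neg hab, adj_zero hab, mul_zero]
      have := h.le_one a b
      nlinarith [sq_nonneg (R a b)]
  have h1 : th G W ≤ ∑ a, ∑ b, ((ε * adj G a b - R a b) ^ 2 - W a b * (R a b) ^ 2) := by
    unfold th
    exact Finset.sum_le_sum (fun a _ => Finset.sum_le_sum (fun b _ => hpt a b))
  simp only [Finset.sum_sub_distrib] at h1
  linarith

lemma cn_of_connected {G : SimpleGraph V} (hG : G.Connected) : Cn G Finset.univ := by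
  have hne : Nonempty V := hG.nonempty
  refine ⟨Finset.univ_nonempty, ?_⟩
  intro A _ hA hAu
  obtain ⟨a, ha⟩ := hA
  obtain ⟨b, hb⟩ : ∃ b, b ∉ A := by
    by_contra hcon
    push Not at hcon
    exact hAu (Finset.eq_univ_of_forall hcon)
  obtain ⟨p⟩ := hG.preconnected a b
  obtain ⟨d, _, h1, h2⟩ := p.exists_boundary_dart (↑A : Set V) ha hb
  exact ⟨d.fst, h1, d.snd, Finset.mem_univ _, h2, d.adj⟩

/-- Both square energies of a connected graph are at least the number of vertices minus one. -/
theorem square_ge (G : SimpleGraph V) (hG : G.Connected) {ε : ℝ} (hε : ε ^ 2 = 1) :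
    (Fintype.card V : ℝ) - 1 ≤ ∑ i, (min (ε * (adj_herm G).eigenvalues i) 0) ^ 2 := by
  obtain ⟨W, hW, hth⟩ := exists_corr G _ Finset.univ rfl (cn_of_connected hG)
  rw [Finset.card_univ] at hth
  exact hth.trans (th_le hW hε)

/-- From squares to powers `p ≥ 2`. -/
lemma sq_to_rpow {ι : Type*} [Fintype ι] (x : ι → ℝ) {N p : ℝ} (hp : 2 ≤ p)
    (hr : (((Finset.univ.filter (fun i => x i < 0)).card : ℕ) : ℝ) ≤ N)
    (hs : N ≤ ∑ i, (min (x i) 0) ^ 2) :
    N ≤ ∑ i, if x i < 0 then |x i| ^ p else 0 := by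
  classical
  set r : ℝ := (((Finset.univ.filter (fun i => x i < 0)).card : ℕ) : ℝ) with hrdef
  have key : ∀ i, (if x i < 0 then (1:ℝ) else 0)
      + (p / 2) * ((min (x i) 0) ^ 2 - (if x i < 0 then (1:ℝ) else 0))
      ≤ if x i < 0 then |x i| ^ p else 0 := by
    intro i
    by_cases hi : x i < 0
    · rw [if_pos hi, if_pos hi, min_eq_left hi.le]
      set t := |x i| with ht
      have ht0 : 0 ≤ t := abs_nonneg _
      have hsq : (x i) ^ 2 = t ^ 2 := by rw [ht, sq_abs]
      rw [hsq]
      have hb := one_add_mul_self_le_rpow_one_add (s := t ^ 2 - 1)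
        (by have : 0 ≤ t ^ 2 := by positivity
            linarith) (p := p / 2) (by linarith)
      have he : (1 + (t ^ 2 - 1)) ^ (p / 2) = t ^ p := by
        rw [show (1 + (t ^ 2 - 1)) = t ^ (2:ℝ) by
          rw [show (2:ℝ) = ((2:ℕ):ℝ) by norm_num, Real.rpow_natCast]; ring]
        rw [← Real.rpow_mul ht0]
        congr 1
        ring
      rw [he] at hb
      exact hb
    · rw [if_neg hi, if_neg hi, min_eq_right (by linarith)]
      norm_num
  have hsum := Finset.sum_le_sum (fun i (_ : i ∈ (Finset.univ : Finset ι)) => key i)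
  rw [Finset.sum_add_distrib, ← Finset.mul_sum, Finset.sum_sub_distrib] at hsum
  have hcard : ∑ i, (if x i < 0 then (1:ℝ) else 0) = r := by
    rw [Finset.sum_boole, hrdef]
  rw [hcard] at hsum
  have h3 : (∑ i, (min (x i) 0) ^ 2) - r ≤ (p / 2) * ((∑ i, (min (x i) 0) ^ 2) - r) := by
    have : 0 ≤ (∑ i, (min (x i) 0) ^ 2) - r := by linarith
    nlinarith
  linarith

lemma card_sign_le [Nonempty V] (G : SimpleGraph V) {ε : ℝ} (hε : ε ^ 2 = 1) :
    (((Finset.univ.filter (fun i => ε * (adj_herm G).eigenvalues i < 0)).card : ℕ) : ℝ)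
      ≤ (Fintype.card V : ℝ) - 1 := by
  have hlt : (Finset.univ.filter (fun i => ε * (adj_herm G).eigenvalues i < 0)).card
      < Fintype.card V := by
    rw [← Finset.card_univ]
    apply Finset.card_lt_card
    rw [Finset.ssubset_iff_subset_ne]
    refine ⟨Finset.filter_subset _ _, ?_⟩
    intro h
    have hall : ∀ i, ε * (adj_herm G).eigenvalues i < 0 := by
      intro i
      have : i ∈ (Finset.univ.filter (fun i => ε * (adj_herm G).eigenvalues i < 0)) := by
        rw [h]; exact Finset.mem_univ i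
      simpa using this
    have hs := sum_eig G
    have h2 : ∑ i, ε * (adj_herm G).eigenvalues i < 0 :=
      Finset.sum_neg (fun i _ => hall i) Finset.univ_nonempty
    rw [← Finset.mul_sum, hs, mul_zero] at h2
    exact lt_irrefl _ h2
  have h1 : (Finset.univ.filter (fun i => ε * (adj_herm G).eigenvalues i < 0)).card + 1
      ≤ Fintype.card V := hlt
  have h2 : (((Finset.univ.filter (fun i => ε * (adj_herm G).eigenvalues i < 0)).card + 1 : ℕ) : ℝ)
      ≤ (Fintype.card V : ℝ) := by exact_mod_cast h1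
  push_cast at h2
  linarith

/-- The negative p-energy of a connected graph, for all `p ≥ 2`. -/
theorem negEnergy_ge_two (G : SimpleGraph V) (hG : G.Connected) {p : ℝ} (hp : 2 ≤ p) :
    (Fintype.card V : ℝ) - 1 ≤ negEnergy p G := by
  have hne : Nonempty V := hG.nonempty
  have h1 := square_ge G hG (ε := 1) (by norm_num)
  have h2 := card_sign_le G (ε := 1) (by norm_num)
  rw [negEnergy_eq]
  have h3 := sq_to_rpow (fun i => 1 * (adj_herm G).eigenvalues i) hp h2 h1
  simpa using h3

open Classical in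
/-- The positive p-energy of a finite simple graph: the sum of the p-th powers of the positive
eigenvalues of its adjacency matrix, counted with multiplicity. -/
noncomputable def posEnergy {V : Type*} [Fintype V] (p : ℝ) (G : SimpleGraph V) : ℝ :=
  ∑ i, if 0 < (G.isHermitian_adjMatrix ℝ).eigenvalues i
    then (G.isHermitian_adjMatrix ℝ).eigenvalues i ^ p else 0

lemma posEnergy_eq {V : Type*} [Fintype V] [inst : DecidableEq V] (p : ℝ) (G : SimpleGraph V) :
    posEnergy p G = ∑ i, if 0 < (adj_herm G).eigenvalues i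
      then (adj_herm G).eigenvalues i ^ p else 0 := by
  unfold posEnergy adj
  rw [Subsingleton.elim (fun a b => Classical.propDecidable (a = b)) inst]

/-- The positive p-energy of a connected graph, for all `p ≥ 2`. -/
theorem posEnergy_ge_two (G : SimpleGraph V) (hG : G.Connected) {p : ℝ} (hp : 2 ≤ p) :
    (Fintype.card V : ℝ) - 1 ≤ posEnergy p G := by
  have hne : Nonempty V := hG.nonempty
  have h1 := square_ge G hG (ε := -1) (by norm_num)
  have h2 := card_sign_le G (ε := -1) (by norm_num)
  rw [posEnergy_eq]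
  have h3 := sq_to_rpow (fun i => -1 * (adj_herm G).eigenvalues i) hp h2 h1
  refine h3.trans (le_of_eq ?_)
  apply Finset.sum_congr rfl; intro i _
  by_cases hi : 0 < (adj_herm G).eigenvalues i
  · rw [if_pos hi, if_pos (by linarith)]
    congr 1
    rw [abs_of_neg (by linarith)]; ring
  · rw [if_neg hi, if_neg (by intro h; apply hi; linarith)]

end H78NE
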