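import Pool.Agent.Helper78.NE.Dim

set_option linter.unusedSectionVars false

namespace H78NE

open Matrix Finset

variable {V : Type*} [Fintype V] [DecidableEq V]

lemma adj_self (G : SimpleGraph V) (a : V) : adj G a a = 0 := adj_zero (G.loopless.irrefl a)

lemma adj_symm (G : SimpleGraph V) (a b : V) : adj G a b = adj G b a := by
  by_cases h : G.Adj a b
  · rw [adj_one h, adj_one h.symm]
  · rw [adj_zero h, adj_zero (fun h' => h h'.symm)]

lemma Q4 (G : SimpleGraph V) (a b c d : V) (y0 y1 y2 y3 : ℝ) :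
    Q (adj G) (ext ![a, b, c, d] !₂[y0, y1, y2, y3]) =
      2 * (adj G a b * y0 * y1 + adj G a c * y0 * y2 + adj G a d * y0 * y3
        + adj G b c * y1 * y2 + adj G b d * y1 * y3 + adj G c d * y2 * y3) := by
  rw [Q_ext]
  unfold Q
  simp [Fin.sum_univ_succ, adj_self]
  rw [adj_symm G b a, adj_symm G c a, adj_symm G d a, adj_symm G c b, adj_symm G d b,
    adj_symm G d c]
  ring

lemma Q5 (G : SimpleGraph V) (a b c d e : V) (y0 y1 y2 y3 y4 : ℝ) :
    Q (adj G) (ext ![a, b, c, d, e] !₂[y0, y1, y2, y3, y4]) =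
      2 * (adj G a b * y0 * y1 + adj G a c * y0 * y2 + adj G a d * y0 * y3
        + adj G a e * y0 * y4
        + adj G b c * y1 * y2 + adj G b d * y1 * y3 + adj G b e * y1 * y4
        + adj G c d * y2 * y3 + adj G c e * y2 * y4 + adj G d e * y3 * y4) := by
  rw [Q_ext]
  unfold Q
  simp [Fin.sum_univ_succ, adj_self]
  rw [adj_symm G b a, adj_symm G c a, adj_symm G d a, adj_symm G e a, adj_symm G c b,
    adj_symm G d b, adj_symm G e b, adj_symm G d c, adj_symm G e c, adj_symm G e d]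
  ring

lemma inj4 {a b c d : V} (hab : a ≠ b) (hac : a ≠ c) (had : a ≠ d) (hbc : b ≠ c) (hbd : b ≠ d)
    (hcd : c ≠ d) : Function.Injective ![a, b, c, d] := by
  intro i j hij
  fin_cases i <;> fin_cases j <;> simp_all

lemma inj5 {a b c d e : V} (hab : a ≠ b) (hac : a ≠ c) (had : a ≠ d) (hae : a ≠ e)
    (hbc : b ≠ c) (hbd : b ≠ d) (hbe : b ≠ e) (hcd : c ≠ d) (hce : c ≠ e) (hde : d ≠ e) :
    Function.Injective ![a, b, c, d, e] := by
  intro i j hij
  fin_cases i <;> fin_cases j <;> simp_all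

lemma norm4 {a b c d : V} (hf : Function.Injective ![a, b, c, d]) (y0 y1 y2 y3 : ℝ) :
    ‖ext ![a, b, c, d] !₂[y0, y1, y2, y3]‖ ^ 2 = y0 ^ 2 + y1 ^ 2 + y2 ^ 2 + y3 ^ 2 := by
  rw [ext_norm hf, norm_sq_sum]
  simp [Fin.sum_univ_succ]
  ring

lemma norm5 {a b c d e : V} (hf : Function.Injective ![a, b, c, d, e]) (y0 y1 y2 y3 y4 : ℝ) :
    ‖ext ![a, b, c, d, e] !₂[y0, y1, y2, y3, y4]‖ ^ 2
      = y0 ^ 2 + y1 ^ 2 + y2 ^ 2 + y3 ^ 2 + y4 ^ 2 := by
  rw [ext_norm hf, norm_sq_sum]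
  simp [Fin.sum_univ_succ]
  ring

/-- There is a test vector with Rayleigh quotient at most `-x`. -/
def HasT (G : SimpleGraph V) (x : ℝ) : Prop :=
  ∃ y : EuclideanSpace ℝ V, y ≠ 0 ∧ Q (adj G) y ≤ -x * ‖y‖ ^ 2

lemma ne_zero_of_norm {y : EuclideanSpace ℝ V} (h : 0 < ‖y‖ ^ 2) : y ≠ 0 := by
  rintro rfl
  simp at h

/-- Induced star with three leaves. -/
lemma hasT_star3 {G : SimpleGraph V} {w a b c : V} (ha : G.Adj w a) (hb : G.Adj w b)
    (hc : G.Adj w c) (hab : a ≠ b) (hac : a ≠ c) (hbc : b ≠ c)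
    (nab : ¬ G.Adj a b) (nac : ¬ G.Adj a c) (nbc : ¬ G.Adj b c) : HasT G (√3) := by
  have hf : Function.Injective ![w, a, b, c] := inj4 ha.ne hb.ne hc.ne hab hac hbc
  have h3 : √3 * √3 = 3 := Real.mul_self_sqrt (by norm_num)
  have hn := norm4 hf (√3) (-1) (-1) (-1)
  refine ⟨ext ![w, a, b, c] !₂[√3, -1, -1, -1], ?_, ?_⟩
  · apply ne_zero_of_norm
    rw [hn]
    positivity
  · rw [Q4, hn, adj_one ha, adj_one hb, adj_one hc, adj_zero nab, adj_zero nac, adj_zero nbc]
    apply le_of_eq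
    linear_combination √3 * h3

/-- Induced path on four vertices. -/
lemma hasT_P4 {G : SimpleGraph V} {a b c d : V} (hab : G.Adj a b) (hbc : G.Adj b c)
    (hcd : G.Adj c d) (nac : ¬ G.Adj a c) (nad : ¬ G.Adj a d) (nbd : ¬ G.Adj b d)
    (eac : a ≠ c) (ead : a ≠ d) (ebd : b ≠ d) : HasT G (21 / 13) := by
  have hf : Function.Injective ![a, b, c, d] := inj4 hab.ne eac ead hbc.ne ebd hcd.ne
  have hn := norm4 hf 2 (-3) 3 (-2)
  refine ⟨ext ![a, b, c, d] !₂[2, -3, 3, -2], ?_, ?_⟩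
  · apply ne_zero_of_norm
    rw [hn]
    norm_num
  · rw [Q4, hn, adj_one hab, adj_one hbc, adj_one hcd, adj_zero nac, adj_zero nad, adj_zero nbd]
    norm_num

/-- Induced path on five vertices. -/
lemma hasT_P5 {G : SimpleGraph V} {a b c d e : V} (hab : G.Adj a b) (hbc : G.Adj b c)
    (hcd : G.Adj c d) (hde : G.Adj d e) (nac : ¬ G.Adj a c) (nad : ¬ G.Adj a d)
    (nae : ¬ G.Adj a e) (nbd : ¬ G.Adj b d) (nbe : ¬ G.Adj b e) (nce : ¬ G.Adj c e)
    (eac : a ≠ c) (ead : a ≠ d) (eae : a ≠ e) (ebd : b ≠ d) (ebe : b ≠ e) (ece : c ≠ e) :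
    HasT G (√3) := by
  have hf : Function.Injective ![a, b, c, d, e] :=
    inj5 hab.ne eac ead eae hbc.ne ebd ebe hcd.ne ece hde.ne
  have h3 : √3 * √3 = 3 := Real.mul_self_sqrt (by norm_num)
  have hn := norm5 hf 1 (-√3) 2 (-√3) 1
  refine ⟨ext ![a, b, c, d, e] !₂[1, -√3, 2, -√3, 1], ?_, ?_⟩
  · apply ne_zero_of_norm
    rw [hn]
    positivity
  · rw [Q5, hn, adj_one hab, adj_one hbc, adj_one hcd, adj_one hde, adj_zero nac, adj_zero nad,
      adj_zero nae, adj_zero nbd, adj_zero nbe, adj_zero nce]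
    apply le_of_eq
    linear_combination 2 * √3 * h3

/-- Induced star with four leaves. -/
lemma hasT_star4 {G : SimpleGraph V} {w a b c d : V} (ha : G.Adj w a) (hb : G.Adj w b)
    (hc : G.Adj w c) (hd : G.Adj w d) (eab : a ≠ b) (eac : a ≠ c) (ead : a ≠ d) (ebc : b ≠ c)
    (ebd : b ≠ d) (ecd : c ≠ d)
    (nab : ¬ G.Adj a b) (nac : ¬ G.Adj a c) (nad : ¬ G.Adj a d) (nbc : ¬ G.Adj b c)
    (nbd : ¬ G.Adj b d) (ncd : ¬ G.Adj c d) : HasT G 2 := by
  have hf : Function.Injective ![w, a, b, c, d] :=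
    inj5 ha.ne hb.ne hc.ne hd.ne eab eac ead ebc ebd ecd
  have hn := norm5 hf 2 (-1) (-1) (-1) (-1)
  refine ⟨ext ![w, a, b, c, d] !₂[2, -1, -1, -1, -1], ?_, ?_⟩
  · apply ne_zero_of_norm
    rw [hn]
    norm_num
  · rw [Q5, hn, adj_one ha, adj_one hb, adj_one hc, adj_one hd, adj_zero nab, adj_zero nac,
      adj_zero nad, adj_zero nbc, adj_zero nbd, adj_zero ncd]
    norm_num

/-- Induced fork: `w` with leaves `a`, `b` and a path `w - c - d`. -/
lemma hasT_fork {G : SimpleGraph V} {w a b c d : V} (ha : G.Adj w a) (hb : G.Adj w b)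
    (hc : G.Adj w c) (hd : G.Adj c d) (eab : a ≠ b) (eac : a ≠ c) (ead : a ≠ d) (ebc : b ≠ c)
    (ebd : b ≠ d) (ewd : w ≠ d)
    (nab : ¬ G.Adj a b) (nac : ¬ G.Adj a c) (nad : ¬ G.Adj a d) (nbc : ¬ G.Adj b c)
    (nbd : ¬ G.Adj b d) (nwd : ¬ G.Adj w d) : HasT G (116 / 63) := by
  have hf : Function.Injective ![w, a, b, c, d] :=
    inj5 ha.ne hb.ne hc.ne ewd eab eac ead ebc ebd hd.ne
  have hn := norm5 hf (-5) 3 3 4 (-2)
  refine ⟨ext ![w, a, b, c, d] !₂[-5, 3, 3, 4, -2], ?_, ?_⟩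
  · apply ne_zero_of_norm
    rw [hn]
    norm_num
  · rw [Q5, hn, adj_one ha, adj_one hb, adj_one hc, adj_one hd, adj_zero nab, adj_zero nac,
      adj_zero nad, adj_zero nbc, adj_zero nbd, adj_zero nwd]
    norm_num

/-- Induced four-cycle. -/
lemma hasT_C4 {G : SimpleGraph V} {a b c d : V} (hab : G.Adj a b) (hbc : G.Adj b c)
    (hcd : G.Adj c d) (had : G.Adj a d) (nac : ¬ G.Adj a c) (nbd : ¬ G.Adj b d)
    (eac : a ≠ c) (ebd : b ≠ d) : HasT G 2 := by
  have hf : Function.Injective ![a, b, c, d] := inj4 hab.ne eac had.ne hbc.ne ebd hcd.ne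
  have hn := norm4 hf 1 (-1) 1 (-1)
  refine ⟨ext ![a, b, c, d] !₂[1, -1, 1, -1], ?_, ?_⟩
  · apply ne_zero_of_norm
    rw [hn]
    norm_num
  · rw [Q4, hn, adj_one hab, adj_one hbc, adj_one hcd, adj_one had, adj_zero nac, adj_zero nbd]
    norm_num

/-- Induced diamond: `a, b` adjacent to everything, `c, d` not adjacent. -/
lemma hasT_diamond {G : SimpleGraph V} {a b c d : V} (hab : G.Adj a b) (hac : G.Adj a c)
    (had : G.Adj a d) (hbc : G.Adj b c) (hbd : G.Adj b d) (ncd : ¬ G.Adj c d)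
    (ecd : c ≠ d) : HasT G (64 / 41) := by
  have hf : Function.Injective ![a, b, c, d] := inj4 hab.ne hac.ne had.ne hbc.ne hbd.ne ecd
  have hn := norm4 hf (-4) (-4) 5 5
  refine ⟨ext ![a, b, c, d] !₂[-4, -4, 5, 5], ?_, ?_⟩
  · apply ne_zero_of_norm
    rw [hn]
    norm_num
  · rw [Q4, hn, adj_one hab, adj_one hac, adj_one had, adj_one hbc, adj_one hbd, adj_zero ncd]
    norm_num

/-- Induced paw: triangle `a, b, c` and `d` adjacent to `c` only. -/
lemma hasT_paw {G : SimpleGraph V} {a b c d : V} (hab : G.Adj a b) (hac : G.Adj a c)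
    (hbc : G.Adj b c) (hcd : G.Adj c d) (nad : ¬ G.Adj a d) (nbd : ¬ G.Adj b d)
    (ead : a ≠ d) (ebd : b ≠ d) : HasT G (31 / 21) := by
  have hf : Function.Injective ![a, b, c, d] := inj4 hab.ne hac.ne ead hbc.ne ebd hcd.ne
  have hn := norm4 hf (-2) (-2) 5 (-3)
  refine ⟨ext ![a, b, c, d] !₂[-2, -2, 5, -3], ?_, ?_⟩
  · apply ne_zero_of_norm
    rw [hn]
    norm_num
  · rw [Q4, hn, adj_one hab, adj_one hac, adj_one hbc, adj_one hcd, adj_zero nad, adj_zero nbd]
    norm_num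

/-- Two orthogonal test vectors. -/
lemma two_vec {φ : ℝ → ℝ} (hφ : Good φ) {G : SimpleGraph V} (y z : EuclideanSpace ℝ V)
    (hy0 : y ≠ 0) {x : ℝ} (hy : Q (adj G) y ≤ -x * ‖y‖ ^ 2)
    (hz0 : z ≠ 0) (hz : Q (adj G) z ≤ -‖z‖ ^ 2) (hyz : inner ℝ y z = 0) :
    φ (-x) + 1 ≤ gE φ G := by
  have h := flag hφ (adj_herm G) (c := 0) (x := x) (Submodule.span ℝ {z}) ⊥ bot_le y hy0 hy
    (by
      intro u hu
      rw [Submodule.mem_span_singleton] at hu
      obtain ⟨a, rfl⟩ := hu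
      rw [inner_smul_right, hyz, mul_zero])
    (by
      intro u hu
      rw [Submodule.mem_span_singleton] at hu
      obtain ⟨a, rfl⟩ := hu
      rw [Q_smul, norm_smul, mul_pow, Real.norm_eq_abs, sq_abs]
      nlinarith [sq_nonneg a])
    (by
      intro v hv
      rw [Submodule.mem_bot] at hv
      subst hv
      simp [Q])
  rw [finrank_span_singleton hz0, finrank_bot] at h
  rw [gE_eq]
  simp only [Nat.cast_zero, zero_mul, add_zero, Nat.cast_one, sub_zero] at h
  exact h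

/-- The star of a hub. -/
lemma hasT_hub {ι : Type*} [Fintype ι] [DecidableEq ι] {G : SimpleGraph V} {w : V}
    (h : Hub G w ι) : HasT G (√(Fintype.card ι)) := by
  classical
  choose u hu using h.hn
  set r : ℝ := ((Fintype.card ι : ℕ) : ℝ) with hr
  have hr0 : 0 ≤ r := by positivity
  have hrr : √r * √r = r := Real.mul_self_sqrt hr0
  let f : Option ι → V := fun o => o.elim w u
  have hf : Function.Injective f := by
    rintro (_ | i) (_ | j) hij
    · rfl
    · exact absurd hij.symm (hu j).1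
    · exact absurd hij (hu i).1
    · have : u i = u j := hij
      have h2 := congrArg h.c this
      rw [(hu i).2.1, (hu j).2.1] at h2
      rw [h2]
  let y : EuclideanSpace ℝ (Option ι) := WithLp.toLp 2 (fun o => o.elim (√r) (fun _ => -1))
  have hyn : y none = √r := rfl
  have hys : ∀ i, y (some i) = -1 := fun i => rfl
  by_cases hι : Fintype.card ι = 0
  · have h0 : √r = 0 := by rw [hr, hι]; simp
    refine ⟨EuclideanSpace.single w (1:ℝ), ?_, ?_⟩
    · intro h'
      have := congrArg (fun v : EuclideanSpace ℝ V => v w) h'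
      simp at this
    · rw [h0]
      unfold Q
      simp only [neg_zero, zero_mul]
      apply Finset.sum_nonpos
      intro a _
      apply Finset.sum_nonpos
      intro b _
      by_cases haw : a = w
      · by_cases hbw : b = w
        · rw [haw, hbw, adj_self]; simp
        · simp [hbw]
      · simp [haw]
  have hrpos : 0 < r := by
    rw [hr]; exact_mod_cast Nat.pos_of_ne_zero hι
  have hn : ‖ext f y‖ ^ 2 = 2 * r := by
    rw [ext_norm hf, norm_sq_sum, Fintype.sum_option, hyn]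
    simp only [hys]
    simp only [Finset.sum_const, Finset.card_univ, nsmul_eq_mul]
    rw [← hr]
    nlinarith
  refine ⟨ext f y, ?_, ?_⟩
  · apply ne_zero_of_norm
    rw [hn]; positivity
  · rw [Q_ext, hn]
    unfold Q
    rw [Fintype.sum_option, Fintype.sum_option]
    simp only [Fintype.sum_option, hyn, hys, Matrix.submatrix_apply]
    have a0 : adj G (f none) (f none) = 0 := adj_self _ _
    have a1 : ∀ i, adj G (f none) (f (some i)) = 1 := fun i => adj_one (hu i).2.2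
    have a2 : ∀ i, adj G (f (some i)) (f none) = 1 := fun i => adj_one (hu i).2.2.symm
    have a3 : ∀ i j, adj G (f (some i)) (f (some j)) = 0 := by
      intro i j
      by_cases hij : i = j
      · rw [hij, adj_self]
      · apply adj_zero
        intro hadj
        have := h.hc _ _ (hu i).1 (hu j).1 hadj
        rw [(hu i).2.1, (hu j).2.1] at this
        exact hij this
    simp only [a0, a1, a2, a3]
    simp only [zero_mul, one_mul, Finset.sum_const_zero, add_zero, zero_add, Finset.sum_const,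
      Finset.card_univ, nsmul_eq_mul]
    rw [← hr]
    nlinarith

end H78NE
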