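import Pool.Agent.Helper78.NE.Iter
import Pool.Agent.Helper92.NE.Step2

/-!
# E3: the two party lemma (from one_step)
-/

namespace Pool.Agent.Helper78.NE

open Finset Pool.Agent.Helper92.NE

variable {ι B : Type} [Fintype ι] [DecidableEq ι] [Fintype B] [DecidableEq B] [AddCommGroup B]

/-- E3: the two party lemma. -/
theorem two_party (α : ι → B) (U U' : (ι → B) → Finset B) (G : Finset ((ι → B) × (ι → B))) (ε : ℝ)
    (hε : 0 < ε) (hε1 : ε ≤ 1)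
    (hG1 : ∀ p ∈ G, ε * Fintype.card B ≤ ((U p.1 ∩ U' p.2).card : ℝ))
    (hG2 : ∀ p ∈ G, ∀ t, α t + p.1 t + p.2 t ∉ U p.1 ∩ U' p.2) :
    (G.card : ℝ) ≤ 2 * Real.exp (-(ε / (10 ^ 6 * Real.log (2 / ε)) * Fintype.card ι)) *
      (Fintype.card B : ℝ) ^ (2 * Fintype.card ι) :=
  two_party_of G ε hε hε1 (Fintype.card_pos_iff.mpr ⟨0⟩)
    (fun Λ A A' hA hA' hpos hs => Pool.Agent.Helper92.NE.one_step α U U' G ε hε hε1 hG1 hG2 Λ A A' hA hA' hpos hs)

end Pool.Agent.Helper78.NE
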